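import Pool.Agent.Helper68.Fpt.Crit

/-!
Order types of budgets, and the monotone search for the least solution of a given type.
-/

set_option autoImplicit false

namespace Pool.Agent.Helper68.BCP

open Finset

/-- The vector `x` has the order type `t`, differences being recorded up to `K`. -/
def Match (A : Finset ℕ) (K : ℕ) (t x : ℕ → ℕ) : Prop :=
  ∀ s ∈ A, ∀ s' ∈ A, t s ≤ t s' →
    (t s' < t s + K → x s' = x s + (t s' - t s)) ∧ (t s + K ≤ t s' → x s + K ≤ x s')

/-- Every vector has an order type with small entries. -/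
theorem exists_type (A : Finset ℕ) (K : ℕ) (hA : A ⊆ range K) (x : ℕ → ℕ) :
    ∃ t : ℕ → ℕ, Match A K t x ∧ ∀ s, t s ≤ K * K := by
  classical
  let cov : ℕ → Prop := fun y => ∃ u ∈ A, x u ≤ y ∧ y < x u + K
  let T : ℕ → ℕ := fun z => ((range z).filter cov).card
  have hT1 : ∀ z d, T z ≤ T (z + d) ∧ T (z + d) ≤ T z + d := by
    intro z d
    induction d with
    | zero => exact ⟨le_rfl, le_rfl⟩
    | succ d ih =>
      have h : T (z + (d + 1)) = T (z + d) + (if cov (z + d) then 1 else 0) := by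
        simp only [T]
        rw [← Nat.add_assoc, range_add_one, filter_insert]
        split_ifs with h1
        · rw [card_insert_of_notMem]
          simp
        · rfl
      rw [h]
      split_ifs <;> omega
  have hT2 : ∀ z d, (∀ y, z ≤ y → y < z + d → cov y) → T (z + d) = T z + d := by
    intro z d
    induction d with
    | zero => intro _; rfl
    | succ d ih =>
      intro hc
      have h : T (z + (d + 1)) = T (z + d) + (if cov (z + d) then 1 else 0) := by
        simp only [T]
        rw [← Nat.add_assoc, range_add_one, filter_insert]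
        split_ifs with h1
        · rw [card_insert_of_notMem]
          simp
        · rfl
      rw [h, if_pos (hc _ (by omega) (by omega)), ih (fun y h1 h2 => hc y h1 (by omega))]
      omega
  -- the increment between two values
  have hT3 : ∀ s ∈ A, ∀ z, x s ≤ z → z ≤ x s + K → T z = T (x s) + (z - x s) := by
    intro s hs z h1 h2
    have h3 := hT2 (x s) (z - x s) (fun y h4 h5 => ⟨s, hs, h4, by omega⟩)
    rwa [Nat.add_sub_cancel' h1] at h3
  have hT4 : ∀ s ∈ A, ∀ z, x s + K ≤ z → T (x s) + K ≤ T z := by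
    intro s hs z h1
    have h2 := hT3 s hs (x s + K) (by omega) le_rfl
    have h3 := (hT1 (x s + K) (z - (x s + K))).1
    rw [Nat.add_sub_cancel' h1] at h3
    omega
  refine ⟨fun s => T (x s), ?_, ?_⟩
  · intro s hs s' hs' hss
    have hK : 0 < K := by
      have := mem_range.mp (hA hs)
      omega
    simp only at hss ⊢
    constructor
    · intro h1
      rcases le_total (x s) (x s') with h2 | h2
      · rcases le_total (x s') (x s + K) with h3 | h3
        · have h4 := hT3 s hs (x s') h2 h3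
          omega
        · have h4 := hT4 s hs (x s') h3
          omega
      · rcases le_total (x s) (x s' + K) with h3 | h3
        · have h4 := hT3 s' hs' (x s) h2 h3
          omega
        · have h4 := hT4 s' hs' (x s) h3
          omega
    · intro h1
      rcases le_total (x s) (x s') with h2 | h2
      · have h3 := (hT1 (x s) (x s' - x s)).2
        rw [Nat.add_sub_cancel' h2] at h3
        omega
      · have h3 := (hT1 (x s') (x s - x s')).1
        rw [Nat.add_sub_cancel' h2] at h3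
        omega
  · intro s
    have h1 : (range (x s)).filter cov ⊆ A.biUnion (fun u => (range (x u + K)) \ range (x u)) := by
      intro y hy
      obtain ⟨_, u, hu, h2, h3⟩ := mem_filter.mp hy
      refine mem_biUnion.mpr ⟨u, hu, mem_sdiff.mpr ⟨mem_range.mpr h3, ?_⟩⟩
      rw [mem_range]
      omega
    calc T (x s) ≤ (A.biUnion (fun u => (range (x u + K)) \ range (x u))).card := card_le_card h1
      _ ≤ ∑ u ∈ A, ((range (x u + K)) \ range (x u)).card := card_biUnion_le
      _ = ∑ u ∈ A, K := by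
          refine sum_congr rfl (fun u _ => ?_)
          rw [card_sdiff_of_subset (by
            intro y hy
            rw [mem_range] at hy ⊢
            omega), card_range, card_range]
          omega
      _ = A.card * K := by rw [sum_const, smul_eq_mul]
      _ ≤ K * K := Nat.mul_le_mul_right _ ((card_le_card hA).trans (card_range K).le)

section

variable (A : Finset ℕ) (K n : ℕ) (t σ mult : ℕ → ℕ) (c : ℕ) (b : ℕ → ℕ) (V : Finset ℕ)
  (r : ℕ → ℕ) (nb : ℕ → ℕ → Prop)

/-- Solutions of the type `t`. -/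
def Sol (x : ℕ → ℕ) : Prop :=
  (∀ s ∈ A, σ s ≤ x s ∧ (A.filter (fun s' => t s' = t s)).card ≤ mult (x s)) ∧
    Match A K t x ∧ ∀ R ⊆ A, ∀ m ≤ n, Main n c b V r nb A σ x R m

/-- Violation of the constraints on one entry. -/
def B1 (L : ℕ → ℕ) (u : ℕ) : Prop :=
  L u < σ u ∨ mult (L u) < (A.filter (fun s' => t s' = t u)).card

/-- Violation of the constraints on two entries. -/
def B2 (L : ℕ → ℕ) (u : ℕ) : Prop :=
  ∃ s ∈ A, (t s ≤ t u ∧ t u < t s + K ∧ L u < L s + (t u - t s)) ∨
    (t u ≤ t s ∧ t s < t u + K ∧ L u + (t s - t u) < L s) ∨ (t s + K ≤ t u ∧ L u < L s + K)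

/-- Violation of the main constraints. -/
def B3 (L : ℕ → ℕ) (u : ℕ) : Prop :=
  (∀ s ∈ A, ¬ B1 A t σ mult L s ∧ ¬ B2 A K t L s) ∧ ∃ R ⊆ A, ∃ m ≤ n,
    ¬ Main n c b V r nb A σ L R m ∧ u ∉ R ∧ L u < m + σ u ∧
      ∀ u' ∈ A \ R, L u' < m + σ u' → L u' ≤ L u

/-- Entries that have to be increased. -/
def Bump (L : ℕ → ℕ) (u : ℕ) : Prop :=
  u ∈ A ∧ (B1 A t σ mult L u ∨ B2 A K t L u ∨ B3 A K n t σ mult c b V r nb L u)

variable {A K n t σ mult c b V r nb}

/-- Comparison of the main constraints at two vectors. -/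
theorem main_mono {R : Finset ℕ} (hR : R ⊆ A) {m : ℕ} {L x : ℕ → ℕ}
    (h1 : ∀ s ∈ A, L s ≤ x s)
    (h2 : ∀ s ∈ A \ R, min (L s) m + min (x s - σ s) m ≤ min (x s) m + min (L s - σ s) m)
    (hx : Main n c b V r nb A σ x R m) : Main n c b V r nb A σ L R m := by
  unfold Main at *
  have e1 : ∑ s ∈ A, min (x s) m = ∑ s ∈ A \ R, min (x s) m + ∑ s ∈ R, min (x s) m :=
    (sum_sdiff hR).symm
  have e2 : ∑ s ∈ A, min (L s) m = ∑ s ∈ A \ R, min (L s) m + ∑ s ∈ R, min (L s) m :=
    (sum_sdiff hR).symm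
  have e3 : ∑ s ∈ R, min (L s) m ≤ ∑ s ∈ R, min (x s) m :=
    sum_le_sum (fun s hs => by have := h1 s (hR hs); omega)
  have e4 := sum_le_sum h2
  rw [sum_add_distrib, sum_add_distrib] at e4
  omega

theorem bump_lt (hA : A ⊆ range K) (hσ : ∀ s ∈ A, σ s ≤ K) {L x : ℕ → ℕ} {u : ℕ}
    (hu : Bump A K n t σ mult c b V r nb L u) (hx : Sol A K n t σ mult c b V r nb x)
    (hL : ∀ s ∈ A, L s ≤ x s) : L u < x u := by
  obtain ⟨huA, hu⟩ := hu
  obtain ⟨hx1, hx2, hx3⟩ := hx
  have hLu := hL u huA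
  rcases hu with hu | hu | hu
  · obtain ⟨h1, h2⟩ := hx1 u huA
    rcases hu with hu | hu
    · omega
    · by_contra h3
      have h4 : x u = L u := by omega
      rw [h4] at h2
      omega
  · obtain ⟨s, hs, hu⟩ := hu
    have hLs := hL s hs
    rcases hu with ⟨h1, h2, h3⟩ | ⟨h1, h2, h3⟩ | ⟨h1, h2⟩
    · have := (hx2 s hs u huA h1).1 h2
      omega
    · have := (hx2 u huA s hs h1).1 h2
      omega
    · have := (hx2 s hs u huA (by omega)).2 h1
      omega
  · obtain ⟨h0, R, hR, m, hm, hviol, huR, hum, hmax⟩ := hu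
    by_contra hlt
    have hux : x u = L u := by omega
    refine hviol (main_mono hR hL (fun s hs => ?_) (hx3 R hR m hm))
    obtain ⟨hsA, hsR⟩ := mem_sdiff.mp hs
    have hK : 0 < K := by
      have := mem_range.mp (hA hsA)
      omega
    have a1 := hL s hsA
    obtain ⟨b1, b2⟩ := h0 s hsA
    obtain ⟨c1, c2⟩ := h0 u huA
    have b3 : σ s ≤ L s := by
      by_contra h
      exact b1 (Or.inl (by omega))
    by_cases hsm : L s < m + σ s
    · have a2 := hmax s hs hsm
      have hσu := hσ u huA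
      rcases le_total (t s) (t u) with ht | ht
      · by_cases hnear : t u < t s + K
        · have a3 := (hx2 s hsA u huA ht).1 hnear
          -- the same for L
          have a4 : L u = L s + (t u - t s) := by
            have d1 : ¬ L u < L s + (t u - t s) := fun h =>
              c2 ⟨s, hsA, Or.inl ⟨ht, hnear, h⟩⟩
            have d2 : ¬ L s + (t u - t s) < L u := fun h =>
              b2 ⟨u, huA, Or.inr (Or.inl ⟨ht, hnear, h⟩)⟩
            omega
          have a5 : x s = L s := by omega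
          rw [a5]
        · have a3 := (hx2 s hsA u huA ht).2 (by omega)
          omega
      · by_cases hnear : t s < t u + K
        · have a3 := (hx2 u huA s hsA ht).1 hnear
          have a4 : L s = L u + (t s - t u) := by
            have d1 : ¬ L s < L u + (t s - t u) := fun h =>
              b2 ⟨u, huA, Or.inl ⟨ht, hnear, h⟩⟩
            have d2 : ¬ L u + (t s - t u) < L s := fun h =>
              c2 ⟨s, hsA, Or.inr (Or.inl ⟨ht, hnear, h⟩)⟩
            omega
          have a5 : x s = L s := by omega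
          rw [a5]
        · exfalso
          exact b2 ⟨u, huA, Or.inr (Or.inr ⟨by omega, by omega⟩)⟩
    · omega

theorem sol_or {L : ℕ → ℕ}
    (hb : ∀ u, ¬ Bump A K n t σ mult c b V r nb L u)
    (hM : ∃ R ⊆ A, ∃ m ≤ n, ¬ Main n c b V r nb A σ L R m) (x : ℕ → ℕ)
    (hL : ∀ s ∈ A, L s ≤ x s) : ¬ Sol A K n t σ mult c b V r nb x := by
  intro hx
  obtain ⟨R, hR, m, hm, hviol⟩ := hM
  have h0 : ∀ s ∈ A, ¬ B1 A t σ mult L s ∧ ¬ B2 A K t L s := by
    intro s hs
    exact ⟨fun h => hb s ⟨hs, Or.inl h⟩, fun h => hb s ⟨hs, Or.inr (Or.inl h)⟩⟩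
  have h1 : ∀ s ∈ A \ R, ¬ L s < m + σ s := by
    intro s hs h
    obtain ⟨u, hu, hmax⟩ := Finset.exists_max_image ((A \ R).filter (fun u => L u < m + σ u)) L
      ⟨s, mem_filter.mpr ⟨hs, h⟩⟩
    obtain ⟨hu1, hu2⟩ := mem_filter.mp hu
    refine hb u ⟨(mem_sdiff.mp hu1).1, Or.inr (Or.inr ⟨h0, R, hR, m, hm, hviol,
      (mem_sdiff.mp hu1).2, hu2, fun u' hu' h' => ?_⟩)⟩
    exact hmax u' (mem_filter.mpr ⟨hu', h'⟩)
  refine hviol (main_mono hR hL (fun s hs => ?_) (hx.2.2 R hR m hm))
  have a1 := h1 s hs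
  have a2 := hL s (mem_sdiff.mp hs).1
  omega

theorem sol_of_no_bump {L : ℕ → ℕ}
    (hb : ∀ u, ¬ Bump A K n t σ mult c b V r nb L u)
    (hM : ∀ R ⊆ A, ∀ m ≤ n, Main n c b V r nb A σ L R m) :
    Sol A K n t σ mult c b V r nb L := by
  have h0 : ∀ s ∈ A, ¬ B1 A t σ mult L s ∧ ¬ B2 A K t L s := by
    intro s hs
    exact ⟨fun h => hb s ⟨hs, Or.inl h⟩, fun h => hb s ⟨hs, Or.inr (Or.inl h)⟩⟩
  refine ⟨fun s hs => ?_, fun s hs s' hs' ht => ⟨fun h => ?_, fun h => ?_⟩, hM⟩
  · have := (h0 s hs).1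
    unfold B1 at this
    push Not at this
    exact this
  · by_contra h1
    rcases Nat.lt_or_gt_of_ne h1 with h2 | h2
    · exact (h0 s' hs').2 ⟨s, hs, Or.inl ⟨ht, h, h2⟩⟩
    · exact (h0 s hs).2 ⟨s', hs', Or.inr (Or.inl ⟨ht, h, h2⟩)⟩
  · by_contra h1
    exact (h0 s' hs').2 ⟨s, hs, Or.inr (Or.inr ⟨h, by omega⟩)⟩

end

end Pool.Agent.Helper68.BCP
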