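import Pool.Agent.Helper68.Fpt.Words

/-!
The step of the algorithm as a word function.
-/

set_option autoImplicit false

namespace Pool.Agent.Helper68.BCP

open Finset Una SP Calc

/-- Digits of a guess. -/
def dig (K P g i : ℕ) : ℕ := g / min (2 ^ (4 * K * i)) P % min (2 ^ (4 * K)) P

/-- The partition coded by a guess. -/
def clG (K P g i : ℕ) : ℕ := dig K P g i / (K * K + 1)

/-- The order type coded by a guess. -/
def tG (K P g i : ℕ) : ℕ := dig K P g i % (K * K + 1)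

/-- An induced path on three vertices outside the modulator. -/
def P3 (adj : ℕ → ℕ → Prop) (K : ℕ) (Sv : ℕ → ℕ) (a b d : ℕ) : Prop :=
  ¬ InS K Sv a ∧ ¬ InS K Sv b ∧ ¬ InS K Sv d ∧ adj a b ∧ adj b d ∧ a ≠ d ∧ ¬ adj a d

noncomputable def phW (w : List Bool) : ℕ := num w 0
noncomputable def kW (w : List Bool) : ℕ := num w 1
noncomputable def pW (w : List Bool) : ℕ := num w 2
noncomputable def gW (w : List Bool) : ℕ := num w 3
noncomputable def SvW (w : List Bool) (i : ℕ) : ℕ := if i < kW w then num w (4 + 2 * i) else 0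
noncomputable def LvW (w : List Bool) (i : ℕ) : ℕ := if i < kW w then num w (5 + 2 * i) else 0
noncomputable def nW (w : List Bool) : ℕ := num w (4 + 2 * kW w)
noncomputable def cW (w : List Bool) : ℕ := num w (5 + 2 * kW w)
noncomputable def dW (w : List Bool) : ℕ := num w (6 + 2 * kW w)
noncomputable def oW (w : List Bool) : ℕ := offs w (7 + 2 * kW w)
noncomputable def hdW (w : List Bool) : ℕ := offs w (4 + 2 * kW w)
noncomputable def adjW (w : List Bool) (u v : ℕ) : Prop :=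
  u < nW w ∧ v < nW w ∧ bitw w (oW w + (u * nW w + v)) = 1
noncomputable def bW (w : List Bool) (i : ℕ) : ℕ :=
  tv (i < cW w) * min (∑ j ∈ range (dW w),
    tv (bitw w (oW w + (nW w * nW w + (i * dW w + j))) = 1) * min (2 ^ j) (nW w)) (nW w)
noncomputable def clW (w : List Bool) : ℕ → ℕ := clG (kW w) (pW w) (gW w)
noncomputable def tW (w : List Bool) : ℕ → ℕ := tG (kW w) (pW w) (gW w)

section

variable {α : Type} [Ctx α]

/-- The input word of a context. -/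
abbrev wd (a : α) : List Bool := Ctx.inp a

theorem pu_ph : PU (fun a : α => phW (wd a)) := pu_num (PU.const 0)
theorem pu_k : PU (fun a : α => kW (wd a)) := pu_num (PU.const 1)
theorem pu_p : PU (fun a : α => pW (wd a)) := pu_num (PU.const 2)
theorem pu_g : PU (fun a : α => gW (wd a)) := pu_num (PU.const 3)
theorem pu_n : PU (fun a : α => nW (wd a)) := pu_num ((PU.const 4).add ((PU.const 2).mul pu_k))
theorem pu_c : PU (fun a : α => cW (wd a)) := pu_num ((PU.const 5).add ((PU.const 2).mul pu_k))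
theorem pu_d : PU (fun a : α => dW (wd a)) := pu_num ((PU.const 6).add ((PU.const 2).mul pu_k))
theorem pu_o : PU (fun a : α => oW (wd a)) := pu_offs ((PU.const 7).add ((PU.const 2).mul pu_k))
theorem pu_hd : PU (fun a : α => hdW (wd a)) := pu_offs ((PU.const 4).add ((PU.const 2).mul pu_k))

variable {u v i s x y z ρ ρ' m j l : α → ℕ}

theorem pu_S (hi : PU i) : PU (fun a => SvW (wd a) (i a)) :=
  PU.ite (PP.lt hi pu_k) (pu_num ((PU.const 4).add ((PU.const 2).mul hi))) (PU.const 0)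

theorem pu_L (hi : PU i) : PU (fun a => LvW (wd a) (i a)) :=
  PU.ite (PP.lt hi pu_k) (pu_num ((PU.const 5).add ((PU.const 2).mul hi))) (PU.const 0)

theorem pp_adj (hu : PU u) (hv : PU v) : Una.PP (fun a => adjW (wd a) (u a) (v a)) :=
  (PP.lt hu pu_n).and ((PP.lt hv pu_n).and
    (PP.eq (PU.bit (pu_o.add ((hu.mul pu_n).add hv))) (PU.const 1)))

theorem pu_b (hi : PU i) : PU (fun a => bW (wd a) (i a)) := by
  refine (pu_tv (PP.lt hi pu_c)).mul (pu_min ?_ pu_n)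
  exact PU.sum (f := fun a j => tv (bitw (wd a) (oW (wd a) + (nW (wd a) * nW (wd a) +
    (i a * dW (wd a) + j))) = 1) * min (2 ^ j) (nW (wd a))) pu_d
    ((pu_tv (PP.eq (PU.bit (α := α × ℕ) (pu_o.add ((pu_n.mul pu_n).add
      ((hi.wk.mul pu_d).add PU.snd)))) (PU.const 1))).mul (pu_powcap PU.snd pu_n))

theorem pu_dig (hi : PU i) : PU (fun a => dig (kW (wd a)) (pW (wd a)) (gW (wd a)) (i a)) :=
  (pu_g.div (pu_powcap (((PU.const 4).mul pu_k).mul hi) pu_p)).mod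
    (pu_powcap ((PU.const 4).mul pu_k) pu_p)

theorem pu_cl (hi : PU i) : PU (fun a => clW (wd a) (i a)) :=
  (pu_dig hi).div ((pu_k.mul pu_k).add (PU.const 1))

theorem pu_t (hi : PU i) : PU (fun a => tW (wd a) (i a)) :=
  (pu_dig hi).mod ((pu_k.mul pu_k).add (PU.const 1))

theorem pp_inS (hv : PU v) : Una.PP (fun a => InS (kW (wd a)) (SvW (wd a)) (v a)) :=
  PP.exLt (Q := fun a i => SvW (wd a) i = v a) pu_k
    (PP.eq (pu_S (α := α × ℕ) PU.snd) hv.wk)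

theorem pp_act (hs : PU s) : Una.PP (fun a => Act (kW (wd a)) (clW (wd a)) (s a)) :=
  PP.exLt (Q := fun a i => clW (wd a) i = s a) pu_k
    (PP.eq (pu_cl (α := α × ℕ) PU.snd) hs.wk)

theorem pp_RR (hr : PU ρ) (hs : PU s) :
    Una.PP (fun a => RR (kW (wd a)) (clW (wd a)) (pW (wd a)) (ρ a) (s a)) :=
  (pp_act hs).and (pp_bitP pu_p hr hs)

theorem pu_sg (hs : PU s) : PU (fun a => sg (kW (wd a)) (clW (wd a)) (s a)) :=
  pu_cnt (Q := fun a i => clW (wd a) i = s a) pu_k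
    (PP.eq (pu_cl (α := α × ℕ) PU.snd) hs.wk)

theorem pu_ml (hv : PU v) : PU (fun a => ml (cW (wd a)) (bW (wd a)) (v a)) :=
  pu_cnt (Q := fun a i => bW (wd a) i = v a) pu_c
    (PP.eq (pu_b (α := α × ℕ) PU.snd) hv.wk)

theorem pp_NB (hs : PU s) (hv : PU v) :
    Una.PP (fun a => NB (adjW (wd a)) (kW (wd a)) (SvW (wd a)) (clW (wd a)) (s a) (v a)) :=
  PP.exLt (Q := fun a i => clW (wd a) i = s a ∧ adjW (wd a) (SvW (wd a) i) (v a)) pu_k
    ((PP.eq (pu_cl (α := α × ℕ) PU.snd) hs.wk).and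
      (pp_adj (α := α × ℕ) (pu_S (α := α × ℕ) PU.snd) hv.wk))

theorem pp_rep (hj : PU j) :
    Una.PP (fun a => IsRep (nW (wd a)) (adjW (wd a)) (kW (wd a)) (SvW (wd a)) (j a)) :=
  (PP.lt hj pu_n).and ((pp_inS hj).not.and
    (PP.allLt (Q := fun a u => ¬ InS (kW (wd a)) (SvW (wd a)) u → ¬ adjW (wd a) u (j a)) hj
      ((pp_inS (α := α × ℕ) PU.snd).not.imp (pp_adj (α := α × ℕ) PU.snd hj.wk).not)))

theorem pu_uu (hr : PU ρ) (hr' : PU ρ') (hj : PU j) :
    PU (fun a => uuP (nW (wd a)) (adjW (wd a)) (kW (wd a)) (SvW (wd a)) (clW (wd a)) (pW (wd a))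
      (ρ a) (ρ' a) (j a)) := by
  refine pu_cnt (Q := fun a v => ¬ InS (kW (wd a)) (SvW (wd a)) v ∧ (v = j a ∨ adjW (wd a) (j a) v) ∧
    ∀ s < kW (wd a), RR (kW (wd a)) (clW (wd a)) (pW (wd a)) (ρ a) s ∧ bitP (pW (wd a)) (ρ' a) s →
      NB (adjW (wd a)) (kW (wd a)) (SvW (wd a)) (clW (wd a)) s v) pu_n ?_
  refine (pp_inS (α := α × ℕ) PU.snd).not.and (((PP.eq PU.snd hj.wk).or
    (pp_adj (α := α × ℕ) hj.wk PU.snd)).and ?_)
  exact PP.allLt (α := α × ℕ) (n := fun p => kW (wd p.1)) (Q := fun p s =>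
    RR (kW (wd p.1)) (clW (wd p.1)) (pW (wd p.1)) (ρ p.1) s ∧ bitP (pW (wd p.1)) (ρ' p.1) s →
      NB (adjW (wd p.1)) (kW (wd p.1)) (SvW (wd p.1)) (clW (wd p.1)) s p.2) (pu_k (α := α × ℕ))
    (((pp_RR (α := (α × ℕ) × ℕ) hr.wk.wk PU.snd).and
      (pp_bitP (α := (α × ℕ) × ℕ) pu_p hr'.wk.wk PU.snd)).imp
      (pp_NB (α := (α × ℕ) × ℕ) PU.snd PU.snd.wk))

theorem pu_df (hr : PU ρ) (hr' : PU ρ') :
    PU (fun a => dfP (kW (wd a)) (clW (wd a)) (pW (wd a)) (ρ a) (ρ' a)) :=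
  pu_cnt (Q := fun a s => RR (kW (wd a)) (clW (wd a)) (pW (wd a)) (ρ a) s ∧
    ¬ bitP (pW (wd a)) (ρ' a) s) pu_k
    ((pp_RR (α := α × ℕ) hr.wk PU.snd).and (pp_bitP (α := α × ℕ) pu_p hr'.wk PU.snd).not)

theorem pp_dem (hr : PU ρ) (hj : PU j) (hl : PU l) :
    Una.PP (fun a => dem (nW (wd a)) (adjW (wd a)) (kW (wd a)) (SvW (wd a)) (clW (wd a)) (pW (wd a))
      (ρ a) (j a) (l a)) :=
  PP.exLt (Q := fun a r' => l a + dfP (kW (wd a)) (clW (wd a)) (pW (wd a)) (ρ a) r' <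
    uuP (nW (wd a)) (adjW (wd a)) (kW (wd a)) (SvW (wd a)) (clW (wd a)) (pW (wd a))
      (ρ a) r' (j a)) pu_p
    (PP.lt (hl.wk.add (pu_df (α := α × ℕ) hr.wk PU.snd))
      (pu_uu (α := α × ℕ) hr.wk PU.snd hj.wk))

theorem pu_CC (hr : PU ρ) (hm : PU m) :
    PU (fun a => CCP (nW (wd a)) (adjW (wd a)) (kW (wd a)) (SvW (wd a)) (clW (wd a)) (pW (wd a))
      (ρ a) (m a)) := by
  refine PU.sum (f := fun a l => min (m a) (cnt (nW (wd a)) (fun j =>
    IsRep (nW (wd a)) (adjW (wd a)) (kW (wd a)) (SvW (wd a)) j ∧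
    dem (nW (wd a)) (adjW (wd a)) (kW (wd a)) (SvW (wd a)) (clW (wd a)) (pW (wd a))
      (ρ a) j l))) pu_n (pu_min hm.wk ?_)
  exact pu_cnt (α := α × ℕ) (n := fun p => nW (wd p.1)) (Q := fun p j =>
    IsRep (nW (wd p.1)) (adjW (wd p.1)) (kW (wd p.1)) (SvW (wd p.1)) j ∧
    dem (nW (wd p.1)) (adjW (wd p.1)) (kW (wd p.1)) (SvW (wd p.1)) (clW (wd p.1)) (pW (wd p.1))
      (ρ p.1) j p.2) (pu_n (α := α × ℕ))
    ((pp_rep (α := (α × ℕ) × ℕ) PU.snd).and
      (pp_dem (α := (α × ℕ) × ℕ) hr.wk.wk PU.snd PU.snd.wk))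

theorem pp_main (hr : PU ρ) (hm : PU m) :
    Una.PP (fun a => MainP (nW (wd a)) (cW (wd a)) (adjW (wd a)) (bW (wd a)) (kW (wd a))
      (SvW (wd a)) (clW (wd a)) (pW (wd a)) (LvW (wd a)) (ρ a) (m a)) := by
  refine PP.le ((pu_CC hr hm).add ?_) (PU.add ?_ ?_)
  · exact PU.sum (f := fun a s => tv (Act (kW (wd a)) (clW (wd a)) s) *
      min (LvW (wd a) s) (m a)) pu_k
      ((pu_tv (pp_act (α := α × ℕ) PU.snd)).mul (pu_min (pu_L (α := α × ℕ) PU.snd) hm.wk))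
  · exact PU.sum (f := fun a i => min (bW (wd a) i) (m a)) pu_c
      (pu_min (pu_b (α := α × ℕ) PU.snd) hm.wk)
  · exact PU.sum (f := fun a s => tv (Act (kW (wd a)) (clW (wd a)) s ∧ ¬ bitP (pW (wd a)) (ρ a) s) *
      min (LvW (wd a) s - sg (kW (wd a)) (clW (wd a)) s) (m a)) pu_k
      ((pu_tv ((pp_act (α := α × ℕ) PU.snd).and
        (pp_bitP (α := α × ℕ) pu_p hr.wk PU.snd).not)).mul
        (pu_min ((pu_L (α := α × ℕ) PU.snd).sub (pu_sg (α := α × ℕ) PU.snd)) hm.wk))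

theorem pp_allMain : Una.PP (fun a : α => AllMain (nW (wd a)) (cW (wd a)) (adjW (wd a)) (bW (wd a))
    (kW (wd a)) (SvW (wd a)) (clW (wd a)) (pW (wd a)) (LvW (wd a))) := by
  refine PP.allLt (Q := fun a r => ∀ m < nW (wd a) + 1, MainP (nW (wd a)) (cW (wd a)) (adjW (wd a))
    (bW (wd a)) (kW (wd a)) (SvW (wd a)) (clW (wd a)) (pW (wd a)) (LvW (wd a)) r m) pu_p ?_
  exact PP.allLt (α := α × ℕ) (n := fun p => nW (wd p.1) + 1) (Q := fun p m =>
    MainP (nW (wd p.1)) (cW (wd p.1)) (adjW (wd p.1)) (bW (wd p.1)) (kW (wd p.1)) (SvW (wd p.1))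
      (clW (wd p.1)) (pW (wd p.1)) (LvW (wd p.1)) p.2 m) ((pu_n (α := α × ℕ)).add (PU.const 1))
    (pp_main (α := (α × ℕ) × ℕ) PU.snd.wk PU.snd)

theorem pp_B1 (hu : PU u) : Una.PP (fun a => B1P (cW (wd a)) (bW (wd a)) (kW (wd a)) (clW (wd a))
    (tW (wd a)) (LvW (wd a)) (u a)) :=
  (PP.lt (pu_L hu) (pu_sg hu)).or (PP.lt (pu_ml (pu_L hu))
    (pu_cnt (Q := fun a s' => Act (kW (wd a)) (clW (wd a)) s' ∧ tW (wd a) s' = tW (wd a) (u a)) pu_k
      ((pp_act (α := α × ℕ) PU.snd).and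
        (PP.eq (pu_t (α := α × ℕ) PU.snd) (pu_t (α := α × ℕ) hu.wk)))))

theorem pp_B2 (hu : PU u) : Una.PP (fun a => B2P (kW (wd a)) (clW (wd a))
    (tW (wd a)) (LvW (wd a)) (u a)) := by
  have ts := pu_t (α := α × ℕ) PU.snd
  have tu := pu_t (α := α × ℕ) hu.wk
  have Ls := pu_L (α := α × ℕ) PU.snd
  have Lu := pu_L (α := α × ℕ) hu.wk
  have kk := pu_k (α := α × ℕ)
  exact PP.exLt (Q := fun a s => Act (kW (wd a)) (clW (wd a)) s ∧
    ((tW (wd a) s ≤ tW (wd a) (u a) ∧ tW (wd a) (u a) < tW (wd a) s + kW (wd a) ∧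
      LvW (wd a) (u a) < LvW (wd a) s + (tW (wd a) (u a) - tW (wd a) s)) ∨
    (tW (wd a) (u a) ≤ tW (wd a) s ∧ tW (wd a) s < tW (wd a) (u a) + kW (wd a) ∧
      LvW (wd a) (u a) + (tW (wd a) s - tW (wd a) (u a)) < LvW (wd a) s) ∨
    (tW (wd a) s + kW (wd a) ≤ tW (wd a) (u a) ∧ LvW (wd a) (u a) < LvW (wd a) s + kW (wd a)))) pu_k
    ((pp_act (α := α × ℕ) PU.snd).and
      (((PP.le ts tu).and ((PP.lt tu (ts.add kk)).and (PP.lt Lu (Ls.add (tu.sub ts))))).or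
      (((PP.le tu ts).and ((PP.lt ts (tu.add kk)).and (PP.lt (Lu.add (ts.sub tu)) Ls))).or
      ((PP.le (ts.add kk) tu).and (PP.lt Lu (Ls.add kk))))))

theorem pp_B3 (hu : PU u) : Una.PP (fun a => B3P (nW (wd a)) (cW (wd a)) (adjW (wd a)) (bW (wd a))
    (kW (wd a)) (SvW (wd a)) (clW (wd a)) (tW (wd a)) (pW (wd a)) (LvW (wd a)) (u a)) := by
  refine PP.and ?_ ?_
  · exact PP.allLt (Q := fun a s => Act (kW (wd a)) (clW (wd a)) s →
      ¬ B1P (cW (wd a)) (bW (wd a)) (kW (wd a)) (clW (wd a)) (tW (wd a)) (LvW (wd a)) s ∧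
      ¬ B2P (kW (wd a)) (clW (wd a)) (tW (wd a)) (LvW (wd a)) s) pu_k
      ((pp_act (α := α × ℕ) PU.snd).imp ((pp_B1 (α := α × ℕ) PU.snd).not.and
        (pp_B2 (α := α × ℕ) PU.snd).not))
  · refine PP.exLt (Q := fun a r => ∃ m < nW (wd a) + 1,
      ¬ MainP (nW (wd a)) (cW (wd a)) (adjW (wd a)) (bW (wd a)) (kW (wd a)) (SvW (wd a))
        (clW (wd a)) (pW (wd a)) (LvW (wd a)) r m ∧
      ¬ RR (kW (wd a)) (clW (wd a)) (pW (wd a)) r (u a) ∧
      LvW (wd a) (u a) < m + sg (kW (wd a)) (clW (wd a)) (u a) ∧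
      ∀ u' < kW (wd a), Act (kW (wd a)) (clW (wd a)) u' ∧
        ¬ RR (kW (wd a)) (clW (wd a)) (pW (wd a)) r u' ∧
        LvW (wd a) u' < m + sg (kW (wd a)) (clW (wd a)) u' → LvW (wd a) u' ≤ LvW (wd a) (u a))
      pu_p ?_
    refine PP.exLt (α := α × ℕ) (n := fun p => nW (wd p.1) + 1) (Q := fun p m =>
      ¬ MainP (nW (wd p.1)) (cW (wd p.1)) (adjW (wd p.1)) (bW (wd p.1)) (kW (wd p.1)) (SvW (wd p.1))
        (clW (wd p.1)) (pW (wd p.1)) (LvW (wd p.1)) p.2 m ∧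
      ¬ RR (kW (wd p.1)) (clW (wd p.1)) (pW (wd p.1)) p.2 (u p.1) ∧
      LvW (wd p.1) (u p.1) < m + sg (kW (wd p.1)) (clW (wd p.1)) (u p.1) ∧
      ∀ u' < kW (wd p.1), Act (kW (wd p.1)) (clW (wd p.1)) u' ∧
        ¬ RR (kW (wd p.1)) (clW (wd p.1)) (pW (wd p.1)) p.2 u' ∧
        LvW (wd p.1) u' < m + sg (kW (wd p.1)) (clW (wd p.1)) u' →
          LvW (wd p.1) u' ≤ LvW (wd p.1) (u p.1))
      ((pu_n (α := α × ℕ)).add (PU.const 1)) ?_
    have hu2 : PU (fun p : (α × ℕ) × ℕ => u p.1.1) := hu.wk.wk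
    have hr2 : PU (fun p : (α × ℕ) × ℕ => p.1.2) := PU.snd.wk
    have hm2 : PU (fun p : (α × ℕ) × ℕ => p.2) := PU.snd
    refine (pp_main (α := (α × ℕ) × ℕ) hr2 hm2).not.and ((pp_RR (α := (α × ℕ) × ℕ) hr2 hu2).not.and
      ((PP.lt (pu_L (α := (α × ℕ) × ℕ) hu2) (hm2.add (pu_sg (α := (α × ℕ) × ℕ) hu2))).and ?_))
    exact PP.allLt (α := (α × ℕ) × ℕ) (n := fun p => kW (wd p.1.1)) (Q := fun p u' =>
      Act (kW (wd p.1.1)) (clW (wd p.1.1)) u' ∧
        ¬ RR (kW (wd p.1.1)) (clW (wd p.1.1)) (pW (wd p.1.1)) p.1.2 u' ∧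
        LvW (wd p.1.1) u' < p.2 + sg (kW (wd p.1.1)) (clW (wd p.1.1)) u' →
          LvW (wd p.1.1) u' ≤ LvW (wd p.1.1) (u p.1.1)) (pu_k (α := (α × ℕ) × ℕ))
      (((pp_act (α := ((α × ℕ) × ℕ) × ℕ) PU.snd).and
        ((pp_RR (α := ((α × ℕ) × ℕ) × ℕ) hr2.wk PU.snd).not.and
        (PP.lt (pu_L (α := ((α × ℕ) × ℕ) × ℕ) PU.snd)
          (hm2.wk.add (pu_sg (α := ((α × ℕ) × ℕ) × ℕ) PU.snd))))).imp
        (PP.le (pu_L (α := ((α × ℕ) × ℕ) × ℕ) PU.snd) (pu_L (α := ((α × ℕ) × ℕ) × ℕ) hu2.wk)))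

theorem pp_bump (hu : PU u) : Una.PP (fun a => BumpP (nW (wd a)) (cW (wd a)) (adjW (wd a))
    (bW (wd a)) (kW (wd a)) (SvW (wd a)) (clW (wd a)) (tW (wd a)) (pW (wd a)) (LvW (wd a)) (u a)) :=
  (pp_act hu).and ((pp_B1 hu).or ((pp_B2 hu).or (pp_B3 hu)))

theorem pp_valid : Una.PP (fun a : α => Valid (adjW (wd a)) (kW (wd a)) (SvW (wd a))
    (clW (wd a))) := by
  refine PP.and ?_ ?_
  · exact PP.allLt (Q := fun a i => clW (wd a) i < kW (wd a)) pu_k
      (PP.lt (pu_cl (α := α × ℕ) PU.snd) (pu_k (α := α × ℕ)))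
  · refine PP.allLt (Q := fun a i => ∀ j < kW (wd a), clW (wd a) i = clW (wd a) j →
      ¬ adjW (wd a) (SvW (wd a) i) (SvW (wd a) j)) pu_k ?_
    exact PP.allLt (α := α × ℕ) (n := fun p => kW (wd p.1)) (Q := fun p j =>
      clW (wd p.1) p.2 = clW (wd p.1) j → ¬ adjW (wd p.1) (SvW (wd p.1) p.2) (SvW (wd p.1) j))
      (pu_k (α := α × ℕ))
      ((PP.eq (pu_cl (α := (α × ℕ) × ℕ) PU.snd.wk) (pu_cl (α := (α × ℕ) × ℕ) PU.snd)).imp
        (pp_adj (α := (α × ℕ) × ℕ) (pu_S (α := (α × ℕ) × ℕ) PU.snd.wk)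
          (pu_S (α := (α × ℕ) × ℕ) PU.snd)).not)

theorem pp_P3 (hx : PU x) (hy : PU y) (hz : PU z) :
    Una.PP (fun a => P3 (adjW (wd a)) (kW (wd a)) (SvW (wd a)) (x a) (y a) (z a)) :=
  (pp_inS hx).not.and ((pp_inS hy).not.and ((pp_inS hz).not.and ((pp_adj hx hy).and
    ((pp_adj hy hz).and ((PP.eq hx hz).not.and (pp_adj hx hz).not)))))

end

/-- The first induced path on three vertices. -/
noncomputable def qW (w : List Bool) : ℕ :=
  lst (nW w * nW w * nW w) (fun q => P3 (adjW w) (kW w) (SvW w) (q / (nW w * nW w)) (q / nW w % nW w)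
    (q % nW w))

/-- There is an induced path on three vertices. -/
def found (w : List Bool) : Prop := qW w < nW w * nW w * nW w

/-- The first entry to be increased. -/
noncomputable def uW (w : List Bool) : ℕ :=
  lst (kW w) (BumpP (nW w) (cW w) (adjW w) (bW w) (kW w) (SvW w) (clW w) (tW w) (pW w) (LvW w))

/-- The step increases an entry. -/
def isB (w : List Bool) : Prop :=
  Valid (adjW w) (kW w) (SvW w) (clW w) ∧ uW w < kW w ∧ LvW w (uW w) < nW w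

/-- The step accepts. -/
def isA (w : List Bool) : Prop :=
  Valid (adjW w) (kW w) (SvW w) (clW w) ∧ ¬ uW w < kW w ∧
    AllMain (nW w) (cW w) (adjW w) (bW w) (kW w) (SvW w) (clW w) (pW w) (LvW w)

/-- There is a next guess. -/
def isN (w : List Bool) : Prop := gW w + 1 < pW w

open Classical in
/-- The new phase. -/
noncomputable def nPh (w : List Bool) : ℕ :=
  if phW w = 0 then (if found w then 0 else 1) else
    if isB w then 1 else if isA w then 2 else if isN w then 1 else 3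

open Classical in
/-- The new size of the modulator. -/
noncomputable def nK (w : List Bool) : ℕ := if phW w = 0 ∧ found w then kW w + 3 else kW w

open Classical in
/-- The new bound. -/
noncomputable def nP (w : List Bool) : ℕ :=
  if phW w = 0 ∧ found w then min (2 ^ (4 * (nK w * nK w))) (pW w ^ 7 * 2 ^ 36) else pW w

open Classical in
/-- The new guess. -/
noncomputable def nG (w : List Bool) : ℕ :=
  if phW w = 0 then 0 else if isB w then gW w else if isA w then gW w else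
    if isN w then gW w + 1 else gW w

open Classical in
/-- The new modulator. -/
noncomputable def nS (w : List Bool) (i : ℕ) : ℕ :=
  if i < kW w then SvW w i else if i = kW w then qW w / (nW w * nW w) else
    if i = kW w + 1 then qW w / nW w % nW w else qW w % nW w

open Classical in
/-- The new vector. -/
noncomputable def nL (w : List Bool) (i : ℕ) : ℕ :=
  if phW w = 0 then 0 else if isB w then (if i = uW w then LvW w i + 1 else LvW w i) else
    if isA w then LvW w i else 0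

open Classical in
/-- The new numbers. -/
noncomputable def nR (w : List Bool) (j : ℕ) : ℕ :=
  if j = 0 then nPh w else if j = 1 then nK w else if j = 2 then nP w else if j = 3 then nG w else
    if j % 2 = 0 then nS w ((j - 4) / 2) else nL w ((j - 5) / 2)

/-- The step. -/
noncomputable def stepW (w : List Bool) : List Bool :=
  enc ((List.range (4 + 2 * nK w)).map (nR w)) ++ w.drop (hdW w)

section

variable {α : Type} [Ctx α]

theorem pu_q : PU (fun a : α => qW (wd a)) := by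
  refine pu_lst (Q := fun a q => P3 (adjW (wd a)) (kW (wd a)) (SvW (wd a))
    (q / (nW (wd a) * nW (wd a))) (q / nW (wd a) % nW (wd a)) (q % nW (wd a)))
    ((pu_n.mul pu_n).mul pu_n) ?_
  have n1 := pu_n (α := α × ℕ)
  exact pp_P3 (α := α × ℕ) (PU.snd.div (n1.mul n1)) ((PU.snd.div n1).mod n1) (PU.snd.mod n1)

theorem pp_found : Una.PP (fun a : α => found (wd a)) := PP.lt pu_q ((pu_n.mul pu_n).mul pu_n)

theorem pu_u : PU (fun a : α => uW (wd a)) :=
  pu_lst (Q := fun a u => BumpP (nW (wd a)) (cW (wd a)) (adjW (wd a)) (bW (wd a)) (kW (wd a))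
    (SvW (wd a)) (clW (wd a)) (tW (wd a)) (pW (wd a)) (LvW (wd a)) u) pu_k
    (pp_bump (α := α × ℕ) PU.snd)

theorem pp_isB : Una.PP (fun a : α => isB (wd a)) :=
  pp_valid.and ((PP.lt pu_u pu_k).and (PP.lt (pu_L pu_u) pu_n))

theorem pp_isA : Una.PP (fun a : α => isA (wd a)) :=
  pp_valid.and ((PP.lt pu_u pu_k).not.and pp_allMain)

theorem pp_isN : Una.PP (fun a : α => isN (wd a)) := PP.lt (pu_g.add (PU.const 1)) pu_p

theorem pp_ph0 : Una.PP (fun a : α => phW (wd a) = 0) := PP.eq pu_ph (PU.const 0)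

theorem pu_nPh : PU (fun a : α => nPh (wd a)) := by
  classical
  exact PU.ite pp_ph0 (PU.ite pp_found (PU.const 0) (PU.const 1))
    (PU.ite pp_isB (PU.const 1) (PU.ite pp_isA (PU.const 2) (PU.ite pp_isN (PU.const 1)
      (PU.const 3))))

theorem pu_nK : PU (fun a : α => nK (wd a)) := by
  classical
  exact PU.ite (pp_ph0.and pp_found) (pu_k.add (PU.const 3)) pu_k

theorem pu_nP : PU (fun a : α => nP (wd a)) := by
  classical
  exact PU.ite (pp_ph0.and pp_found) (pu_powcap ((PU.const 4).mul (pu_nK.mul pu_nK))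
    ((pu_p.pow 7).mul (PU.const (2 ^ 36)))) pu_p

theorem pu_nG : PU (fun a : α => nG (wd a)) := by
  classical
  exact PU.ite pp_ph0 (PU.const 0) (PU.ite pp_isB pu_g (PU.ite pp_isA pu_g
    (PU.ite pp_isN (pu_g.add (PU.const 1)) pu_g)))

theorem pu_nS {i : α → ℕ} (hi : PU i) : PU (fun a => nS (wd a) (i a)) := by
  classical
  exact PU.ite (PP.lt hi pu_k) (pu_S hi) (PU.ite (PP.eq hi pu_k) (pu_q.div (pu_n.mul pu_n))
    (PU.ite (PP.eq hi (pu_k.add (PU.const 1))) ((pu_q.div pu_n).mod pu_n) (pu_q.mod pu_n)))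

theorem pu_nL {i : α → ℕ} (hi : PU i) : PU (fun a => nL (wd a) (i a)) := by
  classical
  exact PU.ite pp_ph0 (PU.const 0) (PU.ite pp_isB
    (PU.ite (PP.eq hi pu_u) ((pu_L hi).add (PU.const 1)) (pu_L hi))
    (PU.ite pp_isA (pu_L hi) (PU.const 0)))

theorem pu_nR {j : α → ℕ} (hj : PU j) : PU (fun a => nR (wd a) (j a)) := by
  classical
  exact PU.ite (PP.eq hj (PU.const 0)) pu_nPh (PU.ite (PP.eq hj (PU.const 1)) pu_nK
    (PU.ite (PP.eq hj (PU.const 2)) pu_nP (PU.ite (PP.eq hj (PU.const 3)) pu_nG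
    (PU.ite (PP.eq (hj.mod (PU.const 2)) (PU.const 0)) (pu_nS ((hj.sub (PU.const 4)).div
      (PU.const 2))) (pu_nL ((hj.sub (PU.const 5)).div (PU.const 2)))))))

end

theorem pw_step : PW stepW :=
  PW_enc ((PU.const 4).add ((PU.const 2).mul (pu_nK (α := List Bool)))) (pu_hd (α := List Bool))
    (pu_nR (α := List Bool × ℕ) PU.snd)

end Pool.Agent.Helper68.BCP
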