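import Pool.Agent.Helper68.Fpt.Hall

/-!
The cut criterion: a partition of the modulator with given budgets extends to a budgeted colouring.
-/

set_option autoImplicit false

namespace Pool.Agent.Helper68.BCP

open Finset

/-- The vertices of the clique `j` that are blocked for all classes in `R'`. -/
noncomputable def UU (V : Finset ℕ) (r : ℕ → ℕ) (nb : ℕ → ℕ → Prop) (R' : Finset ℕ) (j : ℕ) :
    Finset ℕ := @Finset.filter ℕ (fun v => r v = j ∧ ∀ s ∈ R', nb s v) (Classical.decPred _) V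

theorem mem_UU {V : Finset ℕ} {r : ℕ → ℕ} {nb : ℕ → ℕ → Prop} {R' : Finset ℕ} {j v : ℕ} :
    v ∈ UU V r nb R' j ↔ v ∈ V ∧ r v = j ∧ ∀ s ∈ R', nb s v := by
  unfold UU
  exact @mem_filter ℕ _ (Classical.decPred _) V v

/-- Number of vertices of the clique `j` that are blocked for all classes in `R'`. -/
noncomputable def uu (V : Finset ℕ) (r : ℕ → ℕ) (nb : ℕ → ℕ → Prop) (R' : Finset ℕ) (j : ℕ) : ℕ :=
  (UU V r nb R' j).card

/-- The demand of the clique `j` on the colours outside `R`. -/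
noncomputable def ww (V : Finset ℕ) (r : ℕ → ℕ) (nb : ℕ → ℕ → Prop) (R : Finset ℕ) (j : ℕ) : ℕ :=
  R.powerset.sup (fun R' => uu V r nb R' j - (R \ R').card)

/-- The total demand of the `m` most demanding cliques. -/
noncomputable def CC (n : ℕ) (V : Finset ℕ) (r : ℕ → ℕ) (nb : ℕ → ℕ → Prop) (R : Finset ℕ)
    (m : ℕ) : ℕ :=
  ∑ l ∈ range n, min m ((V.image r).filter (fun j => l < ww V r nb R j)).card

/-- The cut criterion. -/
def Main (n c : ℕ) (b : ℕ → ℕ) (V : Finset ℕ) (r : ℕ → ℕ) (nb : ℕ → ℕ → Prop) (A : Finset ℕ)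
    (σ x : ℕ → ℕ) (R : Finset ℕ) (m : ℕ) : Prop :=
  CC n V r nb R m + ∑ s ∈ A, min (x s) m ≤
    ∑ i ∈ range c, min (b i) m + ∑ s ∈ A \ R, min (x s - σ s) m

theorem uu_le (V : Finset ℕ) (r : ℕ → ℕ) (nb : ℕ → ℕ → Prop) (R' : Finset ℕ) (j : ℕ) :
    uu V r nb R' j ≤ V.card := by
  unfold uu
  exact card_le_card (fun v hv => (mem_UU.mp hv).1)

theorem ww_le (V : Finset ℕ) (r : ℕ → ℕ) (nb : ℕ → ℕ → Prop) (R : Finset ℕ) (j : ℕ) :
    ww V r nb R j ≤ V.card := by
  unfold ww
  refine Finset.sup_le (fun R' _ => ?_)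
  exact (Nat.sub_le _ _).trans (uu_le _ _ _ _ _)

theorem sum_split (c : ℕ) (A : Finset ℕ) (col : ℕ → ℕ) (hcol : ∀ s ∈ A, col s < c)
    (hinj : Set.InjOn col (A : Set ℕ)) (f : ℕ → ℕ) :
    ∑ i ∈ range c, f i = ∑ s ∈ A, f (col s) + ∑ i ∈ range c \ A.image col, f i := by
  have h1 : A.image col ⊆ range c := by
    intro i hi
    obtain ⟨s, hs, rfl⟩ := mem_image.mp hi
    exact mem_range.mpr (hcol s hs)
  rw [← Finset.sum_sdiff h1, Finset.sum_image hinj, add_comm]

theorem suff (n c : ℕ) (adj : ℕ → ℕ → Prop) (b : ℕ → ℕ) (S : Finset ℕ)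
    (hsymm : ∀ u v, adj u v → adj v u) (hir : ∀ u, ¬ adj u u) (r : ℕ → ℕ)
    (hr : ∀ u ∈ range n \ S, ∀ v ∈ range n \ S, u ≠ v → (adj u v ↔ r u = r v))
    (A : Finset ℕ) (P : ℕ → Finset ℕ) (hcov : ∀ u ∈ S, ∃ s ∈ A, u ∈ P s)
    (hind : ∀ s ∈ A, ∀ u ∈ P s, ∀ v ∈ P s, ¬ adj u v)
    (col : ℕ → ℕ) (hcol : ∀ s ∈ A, col s < c) (hinj : Set.InjOn col (A : Set ℕ))
    (x : ℕ → ℕ) (hx : ∀ s ∈ A, x s = b (col s)) (hσ : ∀ s ∈ A, (P s).card ≤ x s)
    (hM : ∀ R ⊆ A, ∀ m ≤ n, Main n c b (range n \ S) r (fun s v => ∃ u ∈ P s, adj u v) A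
      (fun s => (P s).card) x R m) :
    ∃ φ : ℕ → ℕ, (∀ v < n, φ v < c) ∧ (∀ u < n, ∀ v < n, adj u v → φ u ≠ φ v) ∧
      ∀ i < c, ((range n).filter (fun v => φ v = i)).card ≤ b i := by
  classical
  set V := range n \ S with hV
  set nb : ℕ → ℕ → Prop := fun s v => ∃ u ∈ P s, adj u v with hnb
  let al : ℕ → ℕ → Prop := fun v i => ∀ s ∈ A, col s = i → ¬ nb s v
  let β : ℕ → ℕ := fun i => b i - ∑ s ∈ A.filter (fun s => col s = i), (P s).card
  have hfil : ∀ s ∈ A, A.filter (fun s' => col s' = col s) = {s} := by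
    intro s hs
    ext s'
    rw [mem_filter, mem_singleton]
    constructor
    · rintro ⟨h1, h2⟩
      exact hinj (mem_coe.mpr h1) (mem_coe.mpr hs) h2
    · rintro rfl
      exact ⟨hs, rfl⟩
  have hβ1 : ∀ s ∈ A, β (col s) = x s - (P s).card := by
    intro s hs
    simp only [β]
    rw [hfil s hs, sum_singleton, hx s hs]
  have hβ2 : ∀ i ∈ range c \ A.image col, β i = b i := by
    intro i hi
    simp only [β]
    have : A.filter (fun s => col s = i) = ∅ := by
      rw [filter_eq_empty_iff]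
      intro s hs h
      exact (mem_sdiff.mp hi).2 (mem_image.mpr ⟨s, hs, h⟩)
    rw [this, sum_empty, Nat.sub_zero]
  have hVn : V.card ≤ n := by
    calc V.card ≤ (range n).card := card_le_card sdiff_subset
      _ = n := card_range n
  have H : ∀ X ⊆ V, X.card ≤ ∑ i ∈ range c,
      min ((V.image r).filter (fun j => ∃ v ∈ X, r v = j ∧ al v i)).card (β i) := by
    intro X hX
    set m := (X.image r).card with hm
    have hmn : m ≤ n := card_image_le.trans ((card_le_card hX).trans hVn)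
    let Ns : ℕ → Finset ℕ := fun s => (V.image r).filter (fun j => ∃ v ∈ X, r v = j ∧ ¬ nb s v)
    have hNs : ∀ s ∈ A, (V.image r).filter (fun j => ∃ v ∈ X, r v = j ∧ al v (col s)) = Ns s := by
      intro s hs
      simp only [Ns]
      refine filter_congr (fun j _ => ?_)
      constructor
      · rintro ⟨v, h1, h2, h3⟩
        exact ⟨v, h1, h2, h3 s hs rfl⟩
      · rintro ⟨v, h1, h2, h3⟩
        refine ⟨v, h1, h2, fun s' hs' h4 => ?_⟩
        rw [hinj (mem_coe.mpr hs') (mem_coe.mpr hs) h4]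
        exact h3
    have hNm : ∀ s, (Ns s).card ≤ m := by
      intro s
      refine card_le_card (fun j hj => ?_)
      obtain ⟨_, v, h1, h2, _⟩ := mem_filter.mp hj
      exact mem_image.mpr ⟨v, h1, h2⟩
    have hfree : ∀ i ∈ range c \ A.image col,
        ((V.image r).filter (fun j => ∃ v ∈ X, r v = j ∧ al v i)).card = m := by
      intro i hi
      rw [hm]
      congr 1
      ext j
      rw [mem_filter, mem_image]
      constructor
      · rintro ⟨_, v, h1, h2, _⟩
        exact mem_image.mpr ⟨v, h1, h2⟩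
      · intro hj
        obtain ⟨v, h1, h2⟩ := mem_image.mp hj
        refine ⟨⟨v, hX h1, h2⟩, v, h1, h2, fun s hs h3 => ?_⟩
        exact absurd (mem_image.mpr ⟨s, hs, h3⟩) (mem_sdiff.mp hi).2
    rw [sum_split c A col hcol hinj]
    have e1 : ∑ s ∈ A, min ((V.image r).filter (fun j => ∃ v ∈ X, r v = j ∧ al v (col s))).card
        (β (col s)) = ∑ s ∈ A, min (Ns s).card (x s - (P s).card) :=
      sum_congr rfl (fun s hs => by rw [hNs s hs, hβ1 s hs])
    have e2 : ∑ i ∈ range c \ A.image col,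
        min ((V.image r).filter (fun j => ∃ v ∈ X, r v = j ∧ al v i)).card (β i) =
        ∑ i ∈ range c \ A.image col, min (b i) m :=
      sum_congr rfl (fun i hi => by rw [hfree i hi, hβ2 i hi, min_comm])
    rw [e1, e2]
    set R := A.filter (fun s => (Ns s).card < x s - (P s).card) with hR
    have hRA : R ⊆ A := filter_subset _ _
    have e3 := hM R hRA m hmn
    unfold Main at e3
    rw [sum_split c A col hcol hinj] at e3
    have e4 : ∑ s ∈ A, min (x s) m = ∑ s ∈ A, min (b (col s)) m :=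
      sum_congr rfl (fun s hs => by rw [hx s hs])
    rw [e4] at e3
    simp only at e3
    have e5 : ∑ s ∈ A, min (Ns s).card (x s - (P s).card) =
        ∑ s ∈ A \ R, min (Ns s).card (x s - (P s).card) +
          ∑ s ∈ R, min (Ns s).card (x s - (P s).card) := (sum_sdiff hRA).symm
    have e6 : ∑ s ∈ A \ R, min (x s - (P s).card) m ≤
        ∑ s ∈ A \ R, min (Ns s).card (x s - (P s).card) := by
      refine sum_le_sum (fun s hs => ?_)
      obtain ⟨h1, h2⟩ := mem_sdiff.mp hs
      have h3 : ¬ (Ns s).card < x s - (P s).card := fun h => h2 (mem_filter.mpr ⟨h1, h⟩)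
      omega
    have e7 : ∑ s ∈ R, (Ns s).card ≤ ∑ s ∈ R, min (Ns s).card (x s - (P s).card) := by
      refine sum_le_sum (fun s hs => ?_)
      have := (mem_filter.mp hs).2
      omega
    have e8 : X.card ≤ CC n V r nb R m + ∑ s ∈ R, (Ns s).card := by
      rw [card_eq_sum_card_image r X]
      have f1 : ∀ j ∈ X.image r, (X.filter (fun v => r v = j)).card ≤
          ww V r nb R j + (R.filter (fun s => j ∈ Ns s)).card := by
        intro j hj
        let R' := R.filter (fun s => j ∉ Ns s)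
        have g1 : (X.filter (fun v => r v = j)).card ≤ uu V r nb R' j := by
          unfold uu
          refine card_le_card (fun v hv => ?_)
          obtain ⟨h1, h2⟩ := mem_filter.mp hv
          refine mem_UU.mpr ⟨hX h1, h2, fun s hs => ?_⟩
          by_contra h3
          refine (mem_filter.mp hs).2 (mem_filter.mpr ⟨?_, v, h1, h2, h3⟩)
          exact mem_image.mpr ⟨v, hX h1, h2⟩
        have g2 : uu V r nb R' j - (R \ R').card ≤ ww V r nb R j := by
          unfold ww
          exact Finset.le_sup (f := fun R' => uu V r nb R' j - (R \ R').card)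
            (mem_powerset.mpr (filter_subset _ _))
        have g3 : R \ R' = R.filter (fun s => j ∈ Ns s) := by
          ext s
          simp only [R', mem_sdiff, mem_filter, not_and, not_not]
          tauto
        rw [g3] at g2
        omega
      refine (sum_le_sum f1).trans ?_
      rw [sum_add_distrib]
      refine Nat.add_le_add ?_ ?_
      · unfold CC
        exact sum_le_top (V.image r) (ww V r nb R) n (fun j _ => (ww_le V r nb R j).trans hVn)
          (X.image r) (image_subset_image hX) m le_rfl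
      · simp only [card_filter]
        rw [sum_comm]
        refine sum_le_sum (fun s _ => ?_)
        rw [← card_filter]
        refine card_le_card (fun j hj => ?_)
        exact (mem_filter.mp hj).2
    omega
  obtain ⟨φ0, h1, h2, h3⟩ := hall_colour V r c al β H
  -- extend to the modulator
  have hcl : ∀ u ∈ S, ∃ s, s ∈ A ∧ u ∈ P s := fun u hu => by
    obtain ⟨s, h, h'⟩ := hcov u hu
    exact ⟨s, h, h'⟩
  choose! cl hcl1 hcl2 using hcl
  let φ : ℕ → ℕ := fun v => if v ∈ S then col (cl v) else φ0 v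
  have hφS : ∀ v ∈ S, φ v = col (cl v) := fun v hv => if_pos hv
  have hφV : ∀ v, v ∉ S → φ v = φ0 v := fun v hv => if_neg hv
  have hmix : ∀ u ∈ S, ∀ v ∈ V, adj u v → φ u ≠ φ v := by
    intro u hu v hv huv
    rw [hφS u hu, hφV v (mem_sdiff.mp hv).2]
    intro h
    exact (h1 v hv).2 (cl u) (hcl1 u hu) h ⟨u, hcl2 u hu, huv⟩
  refine ⟨φ, ?_, ?_, ?_⟩
  · intro v hv
    by_cases hvS : v ∈ S
    · rw [hφS v hvS]
      exact hcol _ (hcl1 v hvS)
    · rw [hφV v hvS]
      exact (h1 v (mem_sdiff.mpr ⟨mem_range.mpr hv, hvS⟩)).1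
  · intro u hu v hv huv
    by_cases huS : u ∈ S
    · by_cases hvS : v ∈ S
      · rw [hφS u huS, hφS v hvS]
        intro h
        have h4 := hinj (mem_coe.mpr (hcl1 u huS)) (mem_coe.mpr (hcl1 v hvS)) h
        have h5 := hcl2 v hvS
        rw [← h4] at h5
        exact hind _ (hcl1 u huS) u (hcl2 u huS) v h5 huv
      · exact hmix u huS v (mem_sdiff.mpr ⟨mem_range.mpr hv, hvS⟩) huv
    · by_cases hvS : v ∈ S
      · exact (hmix v hvS u (mem_sdiff.mpr ⟨mem_range.mpr hu, huS⟩) (hsymm _ _ huv)).symm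
      · have h4 : u ∈ V := mem_sdiff.mpr ⟨mem_range.mpr hu, huS⟩
        have h5 : v ∈ V := mem_sdiff.mpr ⟨mem_range.mpr hv, hvS⟩
        rw [hφV u huS, hφV v hvS]
        by_cases huv' : u = v
        · subst huv'
          -- a vertex adjacent to itself: excluded
          exfalso
          exact absurd huv (by
            intro _
            exact (hir u) huv)
        · exact h2 u h4 v h5 huv' ((hr u h4 v h5 huv').mp huv)
  · intro i hi
    have h4 : (range n).filter (fun v => φ v = i) ⊆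
        (V.filter (fun v => φ0 v = i)) ∪ (A.filter (fun s => col s = i)).biUnion P := by
      intro v hv
      obtain ⟨h5, h6⟩ := mem_filter.mp hv
      by_cases hvS : v ∈ S
      · rw [hφS v hvS] at h6
        exact mem_union_right _ (mem_biUnion.mpr ⟨cl v, mem_filter.mpr ⟨hcl1 v hvS, h6⟩,
          hcl2 v hvS⟩)
      · rw [hφV v hvS] at h6
        exact mem_union_left _ (mem_filter.mpr ⟨mem_sdiff.mpr ⟨h5, hvS⟩, h6⟩)
    have h5 : ((A.filter (fun s => col s = i)).biUnion P).card ≤
        ∑ s ∈ A.filter (fun s => col s = i), (P s).card := card_biUnion_le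
    have h6 : ∑ s ∈ A.filter (fun s => col s = i), (P s).card ≤ b i := by
      by_cases hi' : i ∈ A.image col
      · obtain ⟨s, hs, rfl⟩ := mem_image.mp hi'
        rw [hfil s hs, sum_singleton, ← hx s hs]
        exact hσ s hs
      · have : A.filter (fun s => col s = i) = ∅ := by
          rw [filter_eq_empty_iff]
          intro s hs h
          exact hi' (mem_image.mpr ⟨s, hs, h⟩)
        rw [this, sum_empty]
        exact Nat.zero_le _
    have h7 := h3 i hi
    have h8 := (card_le_card h4).trans (card_union_le _ _)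
    simp only [β] at h7
    omega

theorem nec (n c : ℕ) (adj : ℕ → ℕ → Prop) (b : ℕ → ℕ) (S : Finset ℕ) (hS : S ⊆ range n)
    (r : ℕ → ℕ)
    (hr : ∀ u ∈ range n \ S, ∀ v ∈ range n \ S, u ≠ v → (adj u v ↔ r u = r v))
    (A : Finset ℕ) (P : ℕ → Finset ℕ) (hPS : ∀ s ∈ A, P s ⊆ S)
    (col : ℕ → ℕ) (hcol : ∀ s ∈ A, col s < c) (hinj : Set.InjOn col (A : Set ℕ))
    (x : ℕ → ℕ) (hx : ∀ s ∈ A, x s = b (col s))
    (φ : ℕ → ℕ) (h1 : ∀ v < n, φ v < c) (h2 : ∀ u < n, ∀ v < n, adj u v → φ u ≠ φ v)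
    (h3 : ∀ i < c, ((range n).filter (fun v => φ v = i)).card ≤ b i)
    (hP : ∀ s ∈ A, ∀ u ∈ P s, φ u = col s) (R : Finset ℕ) (hRA : R ⊆ A) (m : ℕ) :
    Main n c b (range n \ S) r (fun s v => ∃ u ∈ P s, adj u v) A (fun s => (P s).card) x R m := by
  classical
  set V := range n \ S with hV
  set nb : ℕ → ℕ → Prop := fun s v => ∃ u ∈ P s, adj u v with hnb
  obtain ⟨J', hJ1, hJ2, hJ3⟩ := exists_top (V.image r) (ww V r nb R) n m
  have hR' : ∀ j, ∃ R' ⊆ R, ww V r nb R j = uu V r nb R' j - (R \ R').card := by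
    intro j
    obtain ⟨R', hR', h⟩ := Finset.exists_mem_eq_sup R.powerset ⟨∅, by simp⟩
      (fun R' => uu V r nb R' j - (R \ R').card)
    exact ⟨R', mem_powerset.mp hR', h⟩
  choose R' hR1 hR2 using hR'
  let J := J'.filter (fun j => 0 < ww V r nb R j)
  let U := J.biUnion (fun j => UU V r nb (R' j) j)
  have hUV : ∀ v ∈ U, v ∈ V ∧ r v ∈ J ∧ ∀ s ∈ R' (r v), nb s v := by
    intro v hv
    obtain ⟨j, hj, hv⟩ := mem_biUnion.mp hv
    obtain ⟨a1, a2, a3⟩ := mem_UU.mp hv
    subst a2
    exact ⟨a1, hj, a3⟩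
  have hVn : ∀ v ∈ V, v < n := fun v hv => mem_range.mp (mem_sdiff.mp hv).1
  have hU : U.card = ∑ j ∈ J, uu V r nb (R' j) j := by
    rw [card_biUnion]
    · rfl
    · intro i _ j _ hij
      rw [Function.onFun, Finset.disjoint_left]
      intro v hv hv'
      exact hij ((mem_UU.mp hv).2.1.symm.trans (mem_UU.mp hv').2.1)
  have hinjr : ∀ i, Set.InjOn r ((U.filter (fun v => φ v = i) : Finset ℕ) : Set ℕ) := by
    intro i u hu v hv huv
    obtain ⟨a1, a2⟩ := mem_filter.mp (mem_coe.mp hu)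
    obtain ⟨b1, b2⟩ := mem_filter.mp (mem_coe.mp hv)
    by_contra hne
    have a3 := (hUV u a1).1
    have b3 := (hUV v b1).1
    exact h2 u (hVn u a3) v (hVn v b3) ((hr u a3 v b3 hne).mpr huv) (a2.trans b2.symm)
  have hJm : J.card ≤ m := (card_filter_le _ _).trans hJ2
  have hbound : ∀ i, (U.filter (fun v => φ v = i)).card ≤ m := by
    intro i
    refine le_trans ?_ hJm
    refine card_le_card_of_injOn r (fun v hv => ?_) (hinjr i)
    exact mem_coe.mpr (hUV v (mem_filter.mp (mem_coe.mp hv)).1).2.1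
  have hU2 : U.card = ∑ i ∈ range c, (U.filter (fun v => φ v = i)).card :=
    card_eq_sum_card_fiberwise (fun v hv => mem_range.mpr (h1 v (hVn v (hUV v hv).1)))
  rw [sum_split c A col hcol hinj] at hU2
  have k1 : ∑ i ∈ range c \ A.image col, (U.filter (fun v => φ v = i)).card ≤
      ∑ i ∈ range c \ A.image col, min (b i) m := by
    refine sum_le_sum (fun i hi => le_min ?_ (hbound i))
    refine le_trans (card_le_card (fun v hv => ?_)) (h3 i (mem_range.mp (mem_sdiff.mp hi).1))
    obtain ⟨a1, a2⟩ := mem_filter.mp hv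
    exact mem_filter.mpr ⟨mem_range.mpr (hVn v (hUV v a1).1), a2⟩
  have k2 : ∑ s ∈ A \ R, (U.filter (fun v => φ v = col s)).card ≤
      ∑ s ∈ A \ R, min (x s - (P s).card) m := by
    refine sum_le_sum (fun s hs => le_min ?_ (hbound _))
    have hsA := (mem_sdiff.mp hs).1
    have a1 : (U.filter (fun v => φ v = col s)).card + (P s).card ≤ x s := by
      rw [hx s hsA]
      refine le_trans ?_ (h3 (col s) (hcol s hsA))
      rw [← card_union_of_disjoint]
      · refine card_le_card (fun v hv => ?_)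
        rcases mem_union.mp hv with hv | hv
        · obtain ⟨a1, a2⟩ := mem_filter.mp hv
          exact mem_filter.mpr ⟨mem_range.mpr (hVn v (hUV v a1).1), a2⟩
        · exact mem_filter.mpr ⟨hS (hPS s hsA hv), hP s hsA v hv⟩
      · rw [Finset.disjoint_left]
        intro v hv hv'
        have a1 := (hUV v (mem_filter.mp hv).1).1
        exact (mem_sdiff.mp a1).2 (hPS s hsA hv')
    omega
  have k3 : ∑ s ∈ R, (U.filter (fun v => φ v = col s)).card ≤
      ∑ s ∈ R, (J.filter (fun j => s ∈ R \ R' j)).card := by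
    refine sum_le_sum (fun s hs => ?_)
    refine card_le_card_of_injOn r (fun v hv => ?_) (hinjr (col s))
    obtain ⟨a1, a2⟩ := mem_filter.mp (mem_coe.mp hv)
    obtain ⟨a3, a4, a5⟩ := hUV v a1
    refine mem_coe.mpr (mem_filter.mpr ⟨a4, mem_sdiff.mpr ⟨hs, fun h => ?_⟩⟩)
    obtain ⟨u, hu, huv⟩ := a5 s h
    have hsA := hRA hs
    exact h2 u (mem_range.mp (hS (hPS s hsA hu))) v (hVn v a3) huv
      ((hP s hsA u hu).trans a2.symm)
  have k4 : ∑ s ∈ R, (J.filter (fun j => s ∈ R \ R' j)).card = ∑ j ∈ J, (R \ R' j).card := by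
    simp only [card_filter]
    rw [sum_comm]
    refine sum_congr rfl (fun j _ => ?_)
    rw [← card_filter]
    congr 1
    ext s
    rw [mem_filter, mem_sdiff]
    tauto
  have k5 : ∑ s ∈ A, (U.filter (fun v => φ v = col s)).card =
      ∑ s ∈ A \ R, (U.filter (fun v => φ v = col s)).card +
        ∑ s ∈ R, (U.filter (fun v => φ v = col s)).card := (sum_sdiff hRA).symm
  have k6 : ∑ j ∈ J', ww V r nb R j + ∑ j ∈ J, (R \ R' j).card ≤
      ∑ j ∈ J, uu V r nb (R' j) j := by
    have a1 : ∑ j ∈ J', ww V r nb R j = ∑ j ∈ J, ww V r nb R j := by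
      simp only [J]
      rw [sum_filter]
      refine sum_congr rfl (fun j _ => ?_)
      split_ifs <;> omega
    rw [a1, ← sum_add_distrib]
    refine sum_le_sum (fun j hj => ?_)
    have a2 := (mem_filter.mp hj).2
    rw [hR2 j] at a2 ⊢
    omega
  unfold Main
  have k7 : ∑ i ∈ range c, min (b i) m = ∑ s ∈ A, min (x s) m +
      ∑ i ∈ range c \ A.image col, min (b i) m := by
    rw [sum_split c A col hcol hinj]
    congr 1
    exact sum_congr rfl (fun s hs => by rw [hx s hs])
  rw [k7]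
  have k8 : CC n V r nb R m ≤ ∑ j ∈ J', ww V r nb R j := hJ3
  simp only
  omega

end Pool.Agent.Helper68.BCP
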