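import Mathlib

/-!
# Budgeted coloring parameterized by the cluster vertex deletion number

Instances of the Budgeted Coloring Problem (BCP), their encoding by binary words, the cluster
vertex deletion number, and fixed-parameter tractability in terms of the multi-stack Turing
machines of Mathlib.
-/

set_option autoImplicit false

namespace Pool.Agent.Helper68.BCP

/-- Instances of the Budgeted Coloring Problem: a graph `G` on the vertices `0, ..., n - 1`, a
number `c` of colours and a budget `b i` for each colour `i`. -/
structure Inst where
  /-- number of vertices -/
  n : ℕ
  /-- the graph -/
  G : SimpleGraph (Fin n)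
  /-- number of colours -/
  c : ℕ
  /-- the budgets -/
  b : Fin c → ℕ

/-- There is a proper budgeted coloring: adjacent vertices get different colours and the colour
`i` is used at most `b i` times. -/
def Inst.Yes (I : Inst) : Prop :=
  ∃ φ : Fin I.n → Fin I.c, (∀ u v, I.G.Adj u v → φ u ≠ φ v) ∧
    ∀ i, (Finset.univ.filter (fun v => φ v = i)).card ≤ I.b i

/-- Cluster graphs: any two distinct vertices of one connected component are adjacent, that is,
the graph is a disjoint union of cliques. -/
def IsCluster {V : Type} (H : SimpleGraph V) : Prop :=
  ∀ u v, H.Reachable u v → u ≠ v → H.Adj u v

/-- The cluster vertex deletion number: the minimum size of a set `S` of vertices such that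
`G - S` is a cluster graph. -/
noncomputable def cvd {n : ℕ} (G : SimpleGraph (Fin n)) : ℕ :=
  sInf {k | ∃ S : Finset (Fin n), S.card = k ∧ IsCluster (G.induce {v | v ∉ S})}

/-- Unary code of a number. -/
def unary (a : ℕ) : List Bool := List.replicate a true ++ [false]

/-- The number of binary digits of the largest budget. -/
def Inst.width (I : Inst) : ℕ := Finset.univ.sup (fun i => (I.b i).size)

open Classical in
/-- The word of an instance: the number of vertices, the number of colours and the number of
binary digits of the largest budget in unary, the adjacency matrix row by row, and the binary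
digits of the budgets. Its length is `n + c + w + 3 + n ^ 2 + c * w` with `w` the number of
binary digits of the largest budget. -/
noncomputable def Inst.enc (I : Inst) : List Bool :=
  unary I.n ++ unary I.c ++ unary I.width ++
  (List.finRange I.n).flatMap (fun u => (List.finRange I.n).map (fun v => decide (I.G.Adj u v))) ++
  (List.finRange I.c).flatMap (fun i => (List.range I.width).map (fun j => (I.b i).testBit j))

/-- The decision problem with instances `X`, encoding `enc`, yes-instances `Yes` and parameter
`κ` is fixed-parameter tractable: there are a Turing machine (a multi-stack machine of Mathlib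
with finite stack alphabets), a computable function `h` and a constant `d` such that on the code
of each instance `x` the machine halts after at most `h (κ x) * (|enc x| + 1) ^ d` steps and its
output is the one-letter word telling whether `x` is a yes-instance. -/
def IsFPT {X : Type} (enc : X → List Bool) (Yes : X → Prop) (κ : X → ℕ) : Prop :=
  ∃ (tm : Turing.FinTM2) (ein : tm.Γ tm.k₀ ≃ Bool) (eout : tm.Γ tm.k₁ ≃ Bool)
    (h : ℕ → ℕ) (d : ℕ), (∀ i, Finite (tm.Γ i)) ∧ Computable h ∧
    ∀ x, ∃ a : Bool, (a = true ↔ Yes x) ∧
      Nonempty (Turing.TM2OutputsInTime tm ((enc x).map ein.symm) (some ([a].map eout.symm))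
        (h (κ x) * ((enc x).length + 1) ^ d))

end Pool.Agent.Helper68.BCP
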