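import Pool.Agent.Helper68.Fpt.Sim

/-!
BCP parameterized by the cluster vertex deletion number is fixed-parameter tractable.
-/

set_option autoImplicit false

namespace Pool.Agent.Helper68.BCP

open Finset Una SP Calc

/-- The first word of the algorithm. -/
def startW (w : List Bool) : List Bool :=
  enc ((List.range 4).map (fun j => if j = 2 then 1 else 0)) ++ w.drop 0

theorem pw_start : PW startW :=
  PW_enc (r := fun _ => 4) (o := fun _ => 0) (f := fun _ j => if j = 2 then 1 else 0)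
    (PU.const 4) (PU.const 0) (PU.ite (PP.eq PU.snd (PU.const 2)) (PU.const 1) (PU.const 0))

theorem start_eq (w : List Bool) : startW w = enc [0, 0, 1, 0] ++ w := rfl

theorem start_num (w : List Bool) (j : ℕ) (hj : j < 4) :
    num (startW w) j = [0, 0, 1, 0].getD j 0 := by
  rw [start_eq, num_enc _ _ _ (by simpa using hj)]

theorem start_k (w : List Bool) : kW (startW w) = 0 := start_num w 1 (by omega)

theorem start_wd (I : Inst) : Wd I (startW I.enc) := by
  refine ⟨[0, 0, 1, 0], start_eq _, ?_⟩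
  rw [start_k]
  rfl

theorem start_inv (I : Inst) : Inv I (startW I.enc) := by
  have hk := start_k I.enc
  have hp : pW (startW I.enc) = 1 := start_num _ 2 (by omega)
  have hg : gW (startW I.enc) = 0 := start_num _ 3 (by omega)
  have hph : phW (startW I.enc) = 0 := start_num _ 0 (by omega)
  refine Or.inl ⟨⟨start_wd I, ?_, ?_, ?_, ?_, ?_⟩, hph⟩
  · rw [hp, hk]
    rfl
  · rw [hph]; omega
  · rw [hg, hp]; omega
  · intro i
    unfold LvW
    rw [hk, if_neg (by omega)]
    exact Nat.zero_le _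
  · rw [hk]
    exact ⟨fun i hi => by omega, fun i hi => by omega, 0, rfl, fun t ht => by omega⟩

theorem length_le {I : Inst} {w : List Bool} (h : Base I w) :
    w.length ≤ (4 + 2 * kW w) * (4 + kW w + 2 * pW w + I.n) + I.enc.length := by
  obtain ⟨l, h1, h2⟩ := h.wd
  have h3 : ∀ j < l.length, l.getD j 0 + 1 ≤ 4 + kW w + 2 * pW w + I.n := by
    intro j hj
    have h4 : num w j = l.getD j 0 := by
      conv_lhs => rw [h1]
      rw [num_enc l _ j hj]
    rw [← h4]
    have hph := h.ph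
    have hg := h.g
    unfold phW at hph
    unfold gW at hg
    rcases lt_or_ge j 4 with h5 | h5
    · have h6 : j = 0 ∨ j = 1 ∨ j = 2 ∨ j = 3 := by omega
      rcases h6 with rfl | rfl | rfl | rfl
      · omega
      · have : num w 1 = kW w := rfl
        omega
      · have : num w 2 = pW w := rfl
        omega
      · omega
    · obtain ⟨i, hi⟩ : ∃ i, j = 4 + 2 * i ∨ j = 5 + 2 * i := ⟨(j - 4) / 2, by omega⟩
      rcases hi with rfl | rfl
      · have h7 : i < kW w := by omega
        have h8 := h.trip.1 i h7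
        unfold SvW at h8
        rw [if_pos h7] at h8
        omega
      · have h7 : i < kW w := by omega
        have h8 := h.L i
        unfold LvW at h8
        rw [if_pos h7] at h8
        omega
  have h5 : (enc l).length ≤ (4 + 2 * kW w) * (4 + kW w + 2 * pW w + I.n) := by
    rw [length_enc]
    calc ∑ j ∈ range l.length, (l.getD j 0 + 1) ≤
        ∑ j ∈ range l.length, (4 + kW w + 2 * pW w + I.n) :=
          sum_le_sum (fun j hj => h3 j (mem_range.mp hj))
      _ = (4 + 2 * kW w) * (4 + kW w + 2 * pW w + I.n) := by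
          rw [sum_const, card_range, smul_eq_mul, h2]
  have h6 : w.length = (enc l).length + I.enc.length := by
    conv_lhs => rw [h1]
    rw [List.length_append]
  omega

/-- The basic bound. -/
def Wk (k : ℕ) : ℕ := (4 + 6 * k) * (4 + 3 * k + 2 * 2 ^ (36 * (k * k))) + (4 + 6 * k) + 3

theorem n_le_enc (I : Inst) : I.n ≤ I.enc.length := by
  rw [enc_inst, List.length_append, length_enc]
  have : ∑ j ∈ range [I.n, I.c, I.width].length, ([I.n, I.c, I.width].getD j 0 + 1) =
      I.n + 1 + (I.c + 1) + (I.width + 1) := by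
    simp [sum_range_succ]
  rw [this]
  omega

theorem p_le {I : Inst} {w : List Bool} (h : Base I w) : pW w ≤ 2 ^ (36 * (cvd I.G * cvd I.G)) := by
  rw [h.p]
  refine Nat.pow_le_pow_right (by omega) ?_
  have := h.trip.le_cvd
  nlinarith

theorem length_le2 {I : Inst} {w : List Bool} (h : Base I w) :
    w.length + 2 ≤ Wk (cvd I.G) * (I.enc.length + 1) := by
  have h1 := length_le h
  have h2 := h.trip.le_cvd
  have h3 := p_le h
  have h4 := n_le_enc I
  set k := cvd I.G
  set Q := 2 ^ (36 * (k * k))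
  set E := I.enc.length
  have h5 : (4 + 2 * kW w) * (4 + kW w + 2 * pW w + I.n) ≤ (4 + 6 * k) * (4 + 3 * k + 2 * Q + E) := by
    refine Nat.mul_le_mul (by omega) (by omega)
  have h6 : (4 + 6 * k) * (4 + 3 * k + 2 * Q + E) =
      (4 + 6 * k) * (4 + 3 * k + 2 * Q) + (4 + 6 * k) * E := by ring
  have h7 : Wk k * (E + 1) = (4 + 6 * k) * (4 + 3 * k + 2 * Q) * E + (4 + 6 * k) * E + 3 * E +
      Wk k := by
    unfold Wk
    ring
  rw [h7]
  have h8 : Wk k = (4 + 6 * k) * (4 + 3 * k + 2 * Q) + (4 + 6 * k) + 3 := rfl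
  have h9 : 0 ≤ (4 + 6 * k) * (4 + 3 * k + 2 * Q) * E := Nat.zero_le _
  omega

/-- Bound of the potential. -/
theorem psi_le {I : Inst} {w : List Bool} (h : Inv I w) :
    Psi I w + 2 ≤ Wk (cvd I.G) * (I.enc.length + 1) := by
  have hb := h.base
  have h2 := hb.trip.le_cvd
  have h3 := p_le hb
  have h4 := n_le_enc I
  have h1 := phi_lt hb
  unfold Psi
  set k := cvd I.G
  set Q := 2 ^ (36 * (k * k))
  set E := I.enc.length
  have hQ : 1 ≤ Q := Nat.one_le_pow _ _ (by omega)
  have h7 : Wk k * (E + 1) = (4 + 6 * k) * (4 + 3 * k) * (E + 1) + (4 + 6 * k) * 2 * Q * (E + 1) +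
      (4 + 6 * k + 3) * (E + 1) := by
    unfold Wk
    ring
  have h8 : pW w * (kW w * I.n + 1) ≤ Q * ((3 * k + 1) * (E + 1)) := by
    refine Nat.mul_le_mul h3 ?_
    nlinarith
  have h9 : Q * ((3 * k + 1) * (E + 1)) ≤ (4 + 6 * k) * 2 * Q * (E + 1) := by
    have : (4 + 6 * k) * 2 * Q * (E + 1) = Q * ((4 + 6 * k) * 2 * (E + 1)) := by ring
    rw [this]
    refine Nat.mul_le_mul_left _ (Nat.mul_le_mul_right _ (by omega))
  have h10 : 3 * k + 7 ≤ (4 + 6 * k + 3) * (E + 1) := by nlinarith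
  rw [h7]
  have h11 : 0 ≤ (4 + 6 * k) * (4 + 3 * k) * (E + 1) := Nat.zero_le _
  split_ifs
  · omega
  · omega

theorem run (I : Inst) : ∃ N ≤ Wk (cvd I.G) * (I.enc.length + 1),
    (∀ i < N, hlt (stepW^[i] (startW I.enc)) ≠ 0) ∧ hlt (stepW^[N] (startW I.enc)) = 0 ∧
    ∀ i ≤ N, Inv I (stepW^[i] (startW I.enc)) := by
  obtain ⟨N, h1, h2, h3, h4⟩ := loop_ends stepW (Inv I) (fun w => hlt w = 0) (Psi I)
    (Wk (cvd I.G) * (I.enc.length + 1) - 2) (fun w hw hh => inv_step hw hh)
    (fun w hw _ => by have := psi_le hw; omega) (startW I.enc) (start_inv I)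
  have h5 := psi_le (start_inv I)
  exact ⟨N, by omega, h2, h3, h4⟩

theorem primrec_pow : Primrec₂ (fun a b : ℕ => a ^ b) :=
  Primrec₂.unpaired'.1 Nat.Primrec.pow

theorem computable_bound (d : ℕ) : Computable (fun k => 3 * Wk k ^ d) := by
  have hk : Primrec (fun k : ℕ => k) := Primrec.id
  have hc : ∀ c : ℕ, Primrec (fun _ : ℕ => c) := fun c => Primrec.const c
  have h1 : Primrec (fun k : ℕ => 4 + 6 * k) :=
    Primrec.nat_add.comp (hc 4) (Primrec.nat_mul.comp (hc 6) hk)
  have h2 : Primrec (fun k : ℕ => 2 ^ (36 * (k * k))) :=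
    primrec_pow.comp (hc 2) (Primrec.nat_mul.comp (hc 36) (Primrec.nat_mul.comp hk hk))
  have h3 : Primrec (fun k : ℕ => 4 + 3 * k + 2 * 2 ^ (36 * (k * k))) :=
    Primrec.nat_add.comp (Primrec.nat_add.comp (hc 4) (Primrec.nat_mul.comp (hc 3) hk))
      (Primrec.nat_mul.comp (hc 2) h2)
  have h4 : Primrec Wk :=
    Primrec.nat_add.comp (Primrec.nat_add.comp (Primrec.nat_mul.comp h1 h3) h1) (hc 3)
  exact (Primrec.nat_mul.comp (hc 3) (primrec_pow.comp h4 (hc d))).to_comp

/-- The output. -/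
noncomputable def outW (w : List Bool) : ℕ := 3 - phW w

theorem fpt : IsFPT Inst.enc Inst.Yes (fun I => cvd I.G) := by
  obtain ⟨tm, ein, eout, d, hfin, hrun⟩ := machine_while pw_start pw_step
    (h := hlt) (out := outW) ((PU.const 2).sub (pu_ph (α := List Bool)))
    ((PU.const 3).sub (pu_ph (α := List Bool)))
  refine ⟨tm, ein, eout, fun k => 3 * Wk k ^ (d + 1), d + 1, hfin, computable_bound _, ?_⟩
  intro I
  obtain ⟨N, h1, h2, h3, h4⟩ := run I
  obtain ⟨hout⟩ := hrun I.enc N h2 h3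
  set W := stepW^[N] (startW I.enc) with hW
  refine ⟨decide (outW W ≠ 0), ?_, ?_⟩
  · rw [decide_eq_true_eq]
    have h5 := h4 N le_rfl
    rw [← hW] at h5
    unfold hlt at h3
    unfold outW
    rcases h5 with h5 | h5 | h5
    · have := h5.2; omega
    · have := h5.ph; omega
    · rcases h5.2 with ⟨h6, h7⟩ | ⟨h6, h7⟩
      · exact ⟨fun _ => h7, fun _ => by omega⟩
      · exact ⟨fun h => by omega, fun h => absurd h h7⟩
  · refine ⟨⟨⟨hout.steps, hout.evals_in_steps⟩, hout.steps_le_m.trans ?_⟩⟩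
    set X := Wk (cvd I.G) * (I.enc.length + 1) with hX
    have g1 : 3 ≤ X := by
      have : 3 ≤ Wk (cvd I.G) := by unfold Wk; omega
      nlinarith
    have g2 : (I.enc.length + 2) ^ d ≤ X ^ d := by
      refine Nat.pow_le_pow_left ?_ d
      have : 2 ≤ Wk (cvd I.G) := by unfold Wk; omega
      nlinarith
    have g3 : ∑ i ∈ range (N + 1), ((stepW^[i] (startW I.enc)).length + 2) ^ d ≤
        (N + 1) * X ^ d := by
      calc ∑ i ∈ range (N + 1), ((stepW^[i] (startW I.enc)).length + 2) ^ d ≤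
          ∑ i ∈ range (N + 1), X ^ d := by
            refine sum_le_sum (fun i hi => Nat.pow_le_pow_left ?_ d)
            exact length_le2 (h4 i (by have := mem_range.mp hi; omega)).base
        _ = (N + 1) * X ^ d := by rw [sum_const, card_range, smul_eq_mul]
    have g4 : 1 ≤ X ^ d := Nat.one_le_pow _ _ (by omega)
    have g5 : X ^ (d + 1) = X * X ^ d := by rw [pow_succ]; ring
    have g6 : 3 * Wk (cvd I.G) ^ (d + 1) * (I.enc.length + 1) ^ (d + 1) = 3 * X ^ (d + 1) := by
      rw [hX, mul_pow]; ring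
    simp only
    rw [g6, g5]
    have g7 : (N + 1) * X ^ d ≤ (X + 1) * X ^ d := Nat.mul_le_mul_right _ (by omega)
    have g8 : 3 * X ^ d ≤ X * X ^ d := Nat.mul_le_mul_right _ g1
    have g9 : (X + 1) * X ^ d = X * X ^ d + X ^ d := by ring
    omega

theorem bit2 (I : Inst) (i : Fin I.c) (j : ℕ) (hj : j < I.width) :
    bitw (body1 I ++ body2 I) (I.n * I.n + (i * I.width + j)) = 1 ↔ (I.b i).testBit j = true := by
  rw [← length_body1, bitw_append]
  have hi := i.2
  have hlt : (i : ℕ) * I.width + j < I.c * I.width := by nlinarith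
  have h4 := bitw_map (I.c * I.width) (fun p =>
    (if h : p / I.width < I.c then I.b ⟨p / I.width, h⟩ else 0).testBit (p % I.width)) [] _ hlt
  rw [List.append_nil] at h4
  have h2 : ((i : ℕ) * I.width + j) / I.width = i := by
    rw [Nat.add_comm, Nat.add_mul_div_right _ _ (by omega), Nat.div_eq_of_lt hj, Nat.zero_add]
  have h3 : ((i : ℕ) * I.width + j) % I.width = j := by
    rw [Nat.add_comm, Nat.add_mul_mod_self_right, Nat.mod_eq_of_lt hj]
  refine h4.trans ?_
  simp only [h3]
  have h5 : (if h : ((i : ℕ) * I.width + j) / I.width < I.c then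
      I.b ⟨((i : ℕ) * I.width + j) / I.width, h⟩ else 0) = I.b i := by
    rw [dif_pos (by rw [h2]; exact hi)]
    congr 1
    exact Fin.ext h2
  rw [h5]

theorem enc_injective : Function.Injective Inst.enc := by
  intro I I' h
  have w1 := start_wd I
  have w2 := start_wd I'
  rw [← h] at w2
  have hn : I.n = I'.n := w1.n.symm.trans w2.n
  have hc : I.c = I'.c := w1.c.symm.trans w2.c
  have hd : I.width = I'.width := w1.d.symm.trans w2.d
  have hadj : adjN I = adjN I' := w1.adj.symm.trans w2.adj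
  have hbit : ∀ p, bitw (body1 I ++ body2 I) p = bitw (body1 I' ++ body2 I') p :=
    fun p => (w1.bit p).symm.trans (w2.bit p)
  have hbud : ∀ (i : ℕ) (h1 : i < I.c) (h2 : i < I'.c), I.b ⟨i, h1⟩ = I'.b ⟨i, h2⟩ := by
    intro i h1 h2
    refine Nat.eq_of_testBit_eq (fun j => ?_)
    rcases lt_or_ge j I.width with hj | hj
    · have e1 := bit2 I ⟨i, h1⟩ j hj
      have e2 := bit2 I' ⟨i, h2⟩ j (by omega)
      simp only at e1 e2
      rw [← hn, ← hd, ← hbit] at e2
      rw [Bool.eq_iff_iff]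
      exact e1.symm.trans e2
    · have e1 : I.b ⟨i, h1⟩ < 2 ^ j :=
        lt_of_lt_of_le (Nat.size_le.mp (size_le_width I ⟨i, h1⟩)) (Nat.pow_le_pow_right (by omega) hj)
      have e2 : I'.b ⟨i, h2⟩ < 2 ^ j :=
        lt_of_lt_of_le (Nat.size_le.mp (size_le_width I' ⟨i, h2⟩))
          (Nat.pow_le_pow_right (by omega) (by omega))
      rw [Nat.testBit_lt_two_pow e1, Nat.testBit_lt_two_pow e2]
  clear hbit w1 w2 h hd
  obtain ⟨n, G, c, b⟩ := I
  obtain ⟨n', G', c', b'⟩ := I'
  simp only at hn hc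
  subst hn
  subst hc
  have hG : G = G' := by
    ext u v
    have e := congrFun (congrFun hadj u) v
    unfold adjN at e
    constructor
    · intro h
      have h2 : ∃ (hu : (u : ℕ) < n) (hv : (v : ℕ) < n), G.Adj ⟨u, hu⟩ ⟨v, hv⟩ := ⟨u.2, v.2, h⟩
      rw [e] at h2
      obtain ⟨_, _, h2⟩ := h2
      exact h2
    · intro h
      have h2 : ∃ (hu : (u : ℕ) < n) (hv : (v : ℕ) < n), G'.Adj ⟨u, hu⟩ ⟨v, hv⟩ := ⟨u.2, v.2, h⟩
      rw [← e] at h2
      obtain ⟨_, _, h2⟩ := h2
      exact h2
  have hb : b = b' := by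
    funext i
    exact hbud i i.2 i.2
  rw [hG, hb]

/-- BCP parameterized by the cluster vertex deletion number is fixed-parameter tractable. -/
theorem main : Function.Injective Inst.enc ∧ IsFPT Inst.enc Inst.Yes (fun I => cvd I.G) :=
  ⟨enc_injective, fpt⟩

end Pool.Agent.Helper68.BCP
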