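import Pool.Agent.Helper68.Fpt.Bump

/-!
Yes-instances in terms of guesses: a partition of the modulator, an order type of the budgets of
its classes, and a solution of the corresponding constraints.
-/

set_option autoImplicit false

namespace Pool.Agent.Helper68.BCP

open Finset

/-- Colourings with budgets, in terms of natural numbers. -/
def YesN (n c : ℕ) (adj : ℕ → ℕ → Prop) (b : ℕ → ℕ) : Prop :=
  ∃ φ : ℕ → ℕ, (∀ v < n, φ v < c) ∧ (∀ u < n, ∀ v < n, adj u v → φ u ≠ φ v) ∧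
    ∀ i < c, ((range n).filter (fun v => φ v = i)).card ≤ b i

/-- Distinct representatives with prescribed values. -/
theorem exists_col (A : Finset ℕ) (c : ℕ) (b x : ℕ → ℕ)
    (h : ∀ s ∈ A, (A.filter (fun s' => x s' = x s)).card ≤
      ((range c).filter (fun i => b i = x s)).card) :
    ∃ col : ℕ → ℕ, (∀ s ∈ A, col s < c ∧ b (col s) = x s) ∧ Set.InjOn col (A : Set ℕ) := by
  classical
  have hall : ∃ f : {s // s ∈ A} → ℕ, Function.Injective f ∧
      ∀ s : {s // s ∈ A}, f s ∈ (range c).filter (fun i => b i = x s) := by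
    rw [← Finset.all_card_le_biUnion_card_iff_exists_injective]
    intro X
    let X' : Finset ℕ := X.image Subtype.val
    have h1 : X.card = X'.card := (card_image_of_injective _ Subtype.val_injective).symm
    have h2 : X'.card = ∑ v ∈ X'.image x, (X'.filter (fun s => x s = v)).card :=
      card_eq_sum_card_image x X'
    have h3 : ∑ v ∈ X'.image x, (X'.filter (fun s => x s = v)).card ≤
        ∑ v ∈ X'.image x, ((range c).filter (fun i => b i = v)).card := by
      refine sum_le_sum (fun v hv => ?_)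
      obtain ⟨s, hs, rfl⟩ := mem_image.mp hv
      obtain ⟨⟨s', hs'⟩, _, rfl⟩ := mem_image.mp hs
      refine le_trans (card_le_card ?_) (h s' hs')
      intro s hs
      obtain ⟨h4, h5⟩ := mem_filter.mp hs
      obtain ⟨⟨s'', hs''⟩, _, rfl⟩ := mem_image.mp h4
      exact mem_filter.mpr ⟨hs'', h5⟩
    have h4 : ∑ v ∈ X'.image x, ((range c).filter (fun i => b i = v)).card =
        ((X'.image x).biUnion (fun v => (range c).filter (fun i => b i = v))).card := by
      rw [card_biUnion]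
      intro v _ v' _ hne
      rw [Function.onFun, Finset.disjoint_left]
      intro i hi hi'
      exact hne ((mem_filter.mp hi).2.symm.trans (mem_filter.mp hi').2)
    rw [h1, h2]
    refine h3.trans (h4.le.trans (card_le_card ?_))
    intro i hi
    obtain ⟨v, hv, hi⟩ := mem_biUnion.mp hi
    obtain ⟨s, hs, rfl⟩ := mem_image.mp hv
    obtain ⟨s', hs', rfl⟩ := mem_image.mp hs
    exact mem_biUnion.mpr ⟨s', hs', hi⟩
  obtain ⟨f, hf, hfm⟩ := hall
  refine ⟨fun s => if h : s ∈ A then f ⟨s, h⟩ else 0, ?_, ?_⟩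
  · intro s hs
    simp only [dif_pos hs]
    obtain ⟨h1, h2⟩ := mem_filter.mp (hfm ⟨s, hs⟩)
    exact ⟨mem_range.mp h1, h2⟩
  · intro s hs s' hs' hss
    have hs := mem_coe.mp hs
    have hs' := mem_coe.mp hs'
    simp only [dif_pos hs, dif_pos hs'] at hss
    have := hf hss
    simpa using this

section

variable (n c : ℕ) (adj : ℕ → ℕ → Prop) (b : ℕ → ℕ) (K : ℕ) (Sv : ℕ → ℕ) (cl t : ℕ → ℕ)

/-- The modulator. -/
def SS : Finset ℕ := (range K).image Sv

/-- The vertices outside the modulator. -/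
def VV : Finset ℕ := range n \ SS K Sv

/-- Membership of the modulator. -/
def InS (v : ℕ) : Prop := ∃ i < K, Sv i = v

theorem mem_VV {v : ℕ} : v ∈ VV n K Sv ↔ v < n ∧ ¬ InS K Sv v := by
  unfold VV SS InS
  rw [mem_sdiff, mem_range, mem_image]
  simp only [mem_range]

/-- The active classes. -/
def AA : Finset ℕ := (range K).filter (fun s => ∃ i ∈ range K, cl i = s)

theorem mem_AA {s : ℕ} : s ∈ AA K cl ↔ s < K ∧ ∃ i < K, cl i = s := by
  unfold AA
  rw [mem_filter, mem_range]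
  simp only [mem_range]

/-- The sizes of the classes. -/
def sig (s : ℕ) : ℕ := ((range K).filter (fun i => cl i = s)).card

/-- Blocked vertices. -/
def NB (s v : ℕ) : Prop := ∃ i < K, cl i = s ∧ adj (Sv i) v

/-- Multiplicities of the budgets. -/
def mlt (v : ℕ) : ℕ := ((range c).filter (fun i => b i = v)).card

/-- Representatives of the cliques. -/
def IsRep (j : ℕ) : Prop := j < n ∧ ¬ InS K Sv j ∧ ∀ u < j, ¬ InS K Sv u → ¬ adj u j

/-- The representative of the clique of a vertex. -/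
noncomputable def rp (v : ℕ) : ℕ :=
  sInf {u | ¬ InS K Sv u ∧ (u = v ∨ adj u v)}

/-- The complement of the modulator is a cluster graph. -/
def Clu : Prop := ∀ u < n, ¬ InS K Sv u → ∀ v < n, ¬ InS K Sv v → ∀ w < n, ¬ InS K Sv w →
  adj u v → adj v w → u ≠ w → adj u w

/-- Valid guesses. -/
def Valid : Prop := (∀ i < K, cl i < K) ∧ ∀ i < K, ∀ j < K, cl i = cl j → ¬ adj (Sv i) (Sv j)

/-- Solutions for a guess. -/
def GSol (x : ℕ → ℕ) : Prop :=
  Sol (AA K cl) K n t (sig K cl) (mlt c b) c b (VV n K Sv) (rp adj K Sv) (NB adj K Sv cl) x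

variable {n c adj b K Sv cl t}

theorem rp_spec {v : ℕ} (hv : v ∈ VV n K Sv) :
    ¬ InS K Sv (rp adj K Sv v) ∧ (rp adj K Sv v = v ∨ adj (rp adj K Sv v) v) ∧
      rp adj K Sv v ≤ v := by
  have h1 : v ∈ {u | ¬ InS K Sv u ∧ (u = v ∨ adj u v)} := ⟨((mem_VV n K Sv).mp hv).2, Or.inl rfl⟩
  have h2 := Nat.sInf_mem ⟨v, h1⟩
  exact ⟨h2.1, h2.2, Nat.sInf_le h1⟩

theorem rp_mem {v : ℕ} (hv : v ∈ VV n K Sv) : rp adj K Sv v ∈ VV n K Sv := by
  obtain ⟨h1, _, h3⟩ := rp_spec (adj := adj) hv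
  exact (mem_VV n K Sv).mpr ⟨lt_of_le_of_lt h3 ((mem_VV n K Sv).mp hv).1, h1⟩

theorem rp_iff (hsymm : ∀ u v, adj u v → adj v u) (hlt : ∀ u v, adj u v → u < n ∧ v < n)
    (hclu : Clu n adj K Sv) (u : ℕ)
    (hu : u ∈ VV n K Sv) (v : ℕ) (hv : v ∈ VV n K Sv) (huv : u ≠ v) :
    adj u v ↔ rp adj K Sv u = rp adj K Sv v := by
  have hu' := (mem_VV n K Sv).mp hu
  have hv' := (mem_VV n K Sv).mp hv
  constructor
  · intro h
    unfold rp
    congr 1
    have key : ∀ u v, u ∈ VV n K Sv → v ∈ VV n K Sv → adj u v → ∀ w,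
        ¬ InS K Sv w → (w = u ∨ adj w u) → (w = v ∨ adj w v) := by
      intro u v hu hv h w hwS hwu
      have hu' := (mem_VV n K Sv).mp hu
      have hv' := (mem_VV n K Sv).mp hv
      rcases hwu with rfl | hwu
      · exact Or.inr h
      · by_cases hwv : w = v
        · exact Or.inl hwv
        · exact Or.inr (hclu w (hlt _ _ hwu).1 hwS u hu'.1 hu'.2 v hv'.1 hv'.2 hwu h hwv)
    ext w
    constructor
    · rintro ⟨h1, h2⟩
      exact ⟨h1, key u v hu hv h w h1 h2⟩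
    · rintro ⟨h1, h2⟩
      exact ⟨h1, key v u hv hu (hsymm _ _ h) w h1 h2⟩
  · intro h
    have h1 := rp_spec (adj := adj) hu
    have h2 := rp_spec (adj := adj) hv
    have h3 := (mem_VV n K Sv).mp (rp_mem (adj := adj) hu)
    rw [← h] at h2
    rcases h1.2.1 with h4 | h4
    · rcases h2.2.1 with h5 | h5
      · exact absurd (h4.symm.trans h5) huv
      · rwa [h4] at h5
    · rcases h2.2.1 with h5 | h5
      · rw [h5] at h4
        exact hsymm _ _ h4
      · exact hclu u hu'.1 hu'.2 _ h3.1 h3.2 v hv'.1 hv'.2 (hsymm _ _ h4) h5 huv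

theorem rp_self {j : ℕ} (hj : IsRep n adj K Sv j) : rp adj K Sv j = j := by
  have hjV : j ∈ VV n K Sv := (mem_VV n K Sv).mpr ⟨hj.1, hj.2.1⟩
  obtain ⟨h1, h2, h3⟩ := rp_spec (adj := adj) hjV
  rcases h2 with h2 | h2
  · exact h2
  · by_contra h4
    exact hj.2.2 _ (by omega) h1 h2

theorem image_rp (hclu : Clu n adj K Sv) (j : ℕ) :
    j ∈ (VV n K Sv).image (rp adj K Sv) ↔ IsRep n adj K Sv j := by
  rw [mem_image]
  constructor
  · rintro ⟨v, hv, rfl⟩
    obtain ⟨h1, h2, h3⟩ := rp_spec (adj := adj) hv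
    obtain ⟨h4, h5⟩ := (mem_VV n K Sv).mp hv
    refine ⟨by omega, h1, fun u hu huS hadj => ?_⟩
    have h6 : adj u v := by
      rcases h2 with h2 | h2
      · rwa [h2] at hadj
      · exact hclu u (by omega) huS _ (by omega) h1 v h4 h5 hadj h2 (by omega)
    have h7 : rp adj K Sv v ≤ u := Nat.sInf_le ⟨huS, Or.inr h6⟩
    omega
  · intro hj
    exact ⟨j, (mem_VV n K Sv).mpr ⟨hj.1, hj.2.1⟩, rp_self hj⟩

theorem rp_eq_iff (hsymm : ∀ u v, adj u v → adj v u) (hlt : ∀ u v, adj u v → u < n ∧ v < n)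
    (hclu : Clu n adj K Sv) {j v : ℕ} (hj : IsRep n adj K Sv j) (hv : v ∈ VV n K Sv) :
    rp adj K Sv v = j ↔ (v = j ∨ adj j v) := by
  have hjV : j ∈ VV n K Sv := (mem_VV n K Sv).mpr ⟨hj.1, hj.2.1⟩
  constructor
  · intro h
    have h2 := (rp_spec (adj := adj) hv).2.1
    rw [h] at h2
    rcases h2 with h2 | h2
    · exact Or.inl h2.symm
    · exact Or.inr h2
  · intro h
    rcases h with rfl | h
    · exact rp_self hj
    · by_cases hne : j = v
      · subst hne
        exact rp_self hj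
      · have := (rp_iff hsymm hlt hclu j hjV v hv hne).mp h
        rw [← this]
        exact rp_self hj

/-- The classes. -/
def PP (K : ℕ) (Sv cl : ℕ → ℕ) (s : ℕ) : Finset ℕ := ((range K).filter (fun i => cl i = s)).image Sv

theorem mem_PP {s u : ℕ} : u ∈ PP K Sv cl s ↔ ∃ i < K, cl i = s ∧ Sv i = u := by
  unfold PP
  rw [mem_image]
  constructor
  · rintro ⟨i, hi, rfl⟩
    obtain ⟨h1, h2⟩ := mem_filter.mp hi
    exact ⟨i, mem_range.mp h1, h2, rfl⟩
  · rintro ⟨i, h1, h2, rfl⟩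
    exact ⟨i, mem_filter.mpr ⟨mem_range.mpr h1, h2⟩, rfl⟩

theorem card_PP (hinj : ∀ i < K, ∀ j < K, Sv i = Sv j → i = j) (s : ℕ) :
    (PP K Sv cl s).card = sig K cl s := by
  unfold PP sig
  refine card_image_of_injOn ?_
  intro i hi j hj h
  obtain ⟨h1, _⟩ := mem_filter.mp (mem_coe.mp hi)
  obtain ⟨h2, _⟩ := mem_filter.mp (mem_coe.mp hj)
  exact hinj i (mem_range.mp h1) j (mem_range.mp h2) h

theorem NB_eq : NB adj K Sv cl = fun s v => ∃ u ∈ PP K Sv cl s, adj u v := by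
  funext s v
  apply propext
  unfold NB
  constructor
  · rintro ⟨i, h1, h2, h3⟩
    exact ⟨Sv i, mem_PP.mpr ⟨i, h1, h2, rfl⟩, h3⟩
  · rintro ⟨u, hu, h3⟩
    obtain ⟨i, h1, h2, rfl⟩ := mem_PP.mp hu
    exact ⟨i, h1, h2, h3⟩

theorem sig_eq (hinj : ∀ i < K, ∀ j < K, Sv i = Sv j → i = j) :
    sig K cl = fun s => (PP K Sv cl s).card := by
  funext s
  exact (card_PP hinj s).symm

theorem yes_of_sol (hsymm : ∀ u v, adj u v → adj v u) (hir : ∀ u, ¬ adj u u)
    (hlt : ∀ u v, adj u v → u < n ∧ v < n)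
    (hinj : ∀ i < K, ∀ j < K, Sv i = Sv j → i = j) (hclu : Clu n adj K Sv)
    (hval : Valid adj K Sv cl) {x : ℕ → ℕ} (hx : GSol n c adj b K Sv cl t x) :
    YesN n c adj b := by
  obtain ⟨h1, h2, h3⟩ := hx
  have hA : ∀ s ∈ AA K cl, s < K := fun s hs => ((mem_AA K cl).mp hs).1
  have hxt : ∀ s ∈ AA K cl, ∀ s' ∈ AA K cl, x s' = x s → t s' = t s := by
    intro s hs s' hs' h
    have hK : 0 < K := by have := hA s hs; omega
    rcases le_total (t s) (t s') with ht | ht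
    · have := h2 s hs s' hs' ht
      by_cases h4 : t s' < t s + K
      · have := this.1 h4; omega
      · have := this.2 (by omega); omega
    · have := h2 s' hs' s hs ht
      by_cases h4 : t s < t s' + K
      · have := this.1 h4; omega
      · have := this.2 (by omega); omega
  obtain ⟨col, hc1, hc2⟩ := exists_col (AA K cl) c b x (by
    intro s hs
    refine le_trans (card_le_card ?_) (h1 s hs).2
    intro s' hs'
    obtain ⟨h4, h5⟩ := mem_filter.mp hs'
    exact mem_filter.mpr ⟨h4, hxt s hs s' h4 h5⟩)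
  refine suff n c adj b (SS K Sv) hsymm hir (rp adj K Sv) (rp_iff hsymm hlt hclu) (AA K cl)
    (PP K Sv cl) ?_ ?_ col (fun s hs => (hc1 s hs).1) hc2 x (fun s hs => ((hc1 s hs).2).symm)
    ?_ ?_
  · intro u hu
    obtain ⟨i, hi, rfl⟩ := mem_image.mp hu
    have hi := mem_range.mp hi
    exact ⟨cl i, (mem_AA K cl).mpr ⟨hval.1 i hi, i, hi, rfl⟩, mem_PP.mpr ⟨i, hi, rfl, rfl⟩⟩
  · intro s _ u hu v hv
    obtain ⟨i, hi, h4, rfl⟩ := mem_PP.mp hu
    obtain ⟨j, hj, h5, rfl⟩ := mem_PP.mp hv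
    exact hval.2 i hi j hj (h4.trans h5.symm)
  · intro s hs
    rw [card_PP hinj]
    exact (h1 s hs).1
  · intro R hR m hm
    have h4 := h3 R hR m hm
    rw [NB_eq, sig_eq hinj] at h4
    exact h4

theorem sol_of_yes (hinj : ∀ i < K, ∀ j < K, Sv i = Sv j → i = j) (hSn : ∀ i < K, Sv i < n)
    (hsymm : ∀ u v, adj u v → adj v u) (hlt : ∀ u v, adj u v → u < n ∧ v < n)
    (hclu : Clu n adj K Sv) (hy : YesN n c adj b) :
    ∃ cl t : ℕ → ℕ, Valid adj K Sv cl ∧ (∀ s, t s ≤ K * K) ∧ ∃ x, GSol n c adj b K Sv cl t x := by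
  classical
  obtain ⟨φ, h1, h2, h3⟩ := hy
  let cl : ℕ → ℕ := fun i => sInf {j | φ (Sv j) = φ (Sv i)}
  have hcl1 : ∀ i, φ (Sv (cl i)) = φ (Sv i) := fun i =>
    Nat.sInf_mem (s := {j | φ (Sv j) = φ (Sv i)}) ⟨i, rfl⟩
  have hcl2 : ∀ i, cl i ≤ i := fun i => Nat.sInf_le (s := {j | φ (Sv j) = φ (Sv i)}) rfl
  have hcl3 : ∀ i j, φ (Sv i) = φ (Sv j) → cl i = cl j := by
    intro i j h
    simp only [cl]
    rw [h]
  let col : ℕ → ℕ := fun s => φ (Sv s)
  let x : ℕ → ℕ := fun s => b (col s)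
  have hA : ∀ s ∈ AA K cl, s < K ∧ cl s = s := by
    intro s hs
    obtain ⟨h4, i, h5, h6⟩ := (mem_AA K cl).mp hs
    refine ⟨h4, ?_⟩
    rw [← h6]
    exact hcl3 _ _ (hcl1 i)
  have hcoli : Set.InjOn col ((AA K cl : Finset ℕ) : Set ℕ) := by
    intro s hs s' hs' h
    have h4 := (hA s (mem_coe.mp hs)).2
    have h5 := (hA s' (mem_coe.mp hs')).2
    rw [← h4, ← h5]
    exact hcl3 _ _ h
  obtain ⟨t, ht1, ht2⟩ := exists_type (AA K cl) K (by
    intro s hs
    exact mem_range.mpr (hA s hs).1) x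
  have hPS : ∀ s ∈ AA K cl, PP K Sv cl s ⊆ SS K Sv := by
    intro s _ u hu
    obtain ⟨i, hi, _, rfl⟩ := mem_PP.mp hu
    exact mem_image_of_mem _ (mem_range.mpr hi)
  have hPc : ∀ s ∈ AA K cl, ∀ u ∈ PP K Sv cl s, φ u = col s := by
    intro s _ u hu
    obtain ⟨i, hi, h4, rfl⟩ := mem_PP.mp hu
    simp only [col]
    rw [← h4, hcl1]
  have hcolc : ∀ s ∈ AA K cl, col s < c := fun s hs => h1 _ (hSn s (hA s hs).1)
  refine ⟨cl, t, ⟨fun i hi => lt_of_le_of_lt (hcl2 i) hi, fun i hi j hj h => ?_⟩, ht2, x, ?_, ht1,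
    ?_⟩
  · intro h4
    refine h2 _ (hSn i hi) _ (hSn j hj) h4 ?_
    rw [← hcl1 i, ← hcl1 j, h]
  · intro s hs
    obtain ⟨hsK, hss⟩ := hA s hs
    constructor
    · rw [← card_PP hinj]
      refine le_trans (card_le_card (fun u hu => ?_)) (h3 (col s) (hcolc s hs))
      obtain ⟨i, hi, h4, rfl⟩ := mem_PP.mp hu
      exact mem_filter.mpr ⟨mem_range.mpr (hSn i hi), hPc s hs _ hu⟩
    · unfold mlt
      refine card_le_card_of_injOn col ?_ (hcoli.mono ?_)
      · intro s' hs'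
        obtain ⟨h4, h5⟩ := mem_filter.mp (mem_coe.mp hs')
        refine mem_coe.mpr (mem_filter.mpr ⟨mem_range.mpr (hcolc s' h4), ?_⟩)
        have hK : 0 < K := by omega
        have h6 := (ht1 s hs s' h4 (by omega)).1 (by omega)
        rw [h5, Nat.sub_self, Nat.add_zero] at h6
        exact h6
      · intro s' hs'
        exact mem_coe.mpr (mem_filter.mp (mem_coe.mp hs')).1
  · intro R hR m _
    rw [NB_eq, sig_eq hinj]
    refine nec n c adj b (SS K Sv) ?_ (rp adj K Sv) (rp_iff hsymm hlt hclu) (AA K cl)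
      (PP K Sv cl) hPS col hcolc hcoli x (fun s _ => rfl) φ h1 h2 h3 hPc R hR m
    intro u hu
    obtain ⟨i, hi, rfl⟩ := mem_image.mp hu
    exact mem_range.mpr (hSn i (mem_range.mp hi))

end

end Pool.Agent.Helper68.BCP
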