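import Mathlib

/-!
A Hall type theorem for colourings of cluster graphs with budgets, and sums of the largest values.
-/

set_option autoImplicit false

namespace Pool.Agent.Helper68.BCP

open Finset

/-- Sum of the largest `m` values: upper bound. -/
theorem sum_le_top (J : Finset ℕ) (f : ℕ → ℕ) (N : ℕ) (hf : ∀ j ∈ J, f j ≤ N) (J' : Finset ℕ)
    (hJ : J' ⊆ J) (m : ℕ) (hm : J'.card ≤ m) :
    ∑ j ∈ J', f j ≤ ∑ l ∈ range N, min m (J.filter (fun j => l < f j)).card := by
  have h1 : ∀ j ∈ J', f j = ∑ l ∈ range N, (if l < f j then 1 else 0) := by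
    intro j hj
    have h2 := hf j (hJ hj)
    rw [Finset.sum_ite, Finset.sum_const_zero, add_zero, Finset.sum_const, smul_eq_mul, mul_one]
    have h3 : (range N).filter (fun l => l < f j) = range (f j) := by
      ext l
      simp only [mem_filter, mem_range]
      omega
    rw [h3, card_range]
  rw [Finset.sum_congr rfl h1, Finset.sum_comm]
  refine Finset.sum_le_sum (fun l _ => ?_)
  rw [← Finset.card_filter]
  refine le_min ((Finset.card_filter_le _ _).trans hm) (Finset.card_le_card ?_)
  exact Finset.filter_subset_filter _ hJ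

/-- Sum of the largest `m` values: the bound is attained. -/
theorem exists_top (J : Finset ℕ) (f : ℕ → ℕ) (N m : ℕ) : ∃ J' ⊆ J, J'.card ≤ m ∧
    ∑ l ∈ range N, min m (J.filter (fun j => l < f j)).card ≤ ∑ j ∈ J', f j := by
  have key : ∀ m : ℕ, ∃ J' ⊆ J, J'.card ≤ m ∧ (J'.card = m ∨ J' = J) ∧
      ∀ j ∈ J', ∀ k ∈ J \ J', f k ≤ f j := by
    intro m
    induction m with
    | zero => exact ⟨∅, Finset.empty_subset _, by simp, by simp, by simp⟩
    | succ m ih =>
      obtain ⟨J', h1, h2, h3, h4⟩ := ih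
      by_cases h5 : J' = J
      · exact ⟨J', h1, by omega, Or.inr h5, h4⟩
      · have h6 : J'.card = m := by tauto
        have h7 : (J \ J').Nonempty := by
          rw [Finset.nonempty_iff_ne_empty]
          intro h8
          exact h5 (Finset.Subset.antisymm h1 (Finset.sdiff_eq_empty_iff_subset.mp h8))
        obtain ⟨k, hk, hkm⟩ := Finset.exists_max_image (J \ J') f h7
        have hk' := Finset.mem_sdiff.mp hk
        have hc : (insert k J').card = m + 1 := by
          rw [Finset.card_insert_of_notMem hk'.2, h6]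
        refine ⟨insert k J', ?_, hc.le, Or.inl hc, ?_⟩
        · exact Finset.insert_subset hk'.1 h1
        · intro j hj l hl
          have hl' : l ∈ J \ J' := by
            simp only [mem_sdiff, mem_insert, not_or] at hl ⊢
            exact ⟨hl.1, hl.2.2⟩
          rcases Finset.mem_insert.mp hj with rfl | hj
          · exact hkm l hl'
          · exact h4 j hj l hl'
  obtain ⟨J', h1, h2, h3, h4⟩ := key m
  refine ⟨J', h1, h2, ?_⟩
  have h5 : ∀ l ∈ range N, min m (J.filter (fun j => l < f j)).card ≤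
      (J'.filter (fun j => l < f j)).card := by
    intro l _
    by_cases h6 : ∃ k ∈ J \ J', l < f k
    · obtain ⟨k, hk, hlk⟩ := h6
      have h7 : J'.filter (fun j => l < f j) = J' := by
        rw [Finset.filter_eq_self]
        intro j hj
        exact lt_of_lt_of_le hlk (h4 j hj k hk)
      have h8 : J'.card = m := by
        rcases h3 with h3 | h3
        · exact h3
        · rw [h3] at hk; simp at hk
      rw [h7, h8]
      exact min_le_left _ _
    · push Not at h6
      refine (min_le_right _ _).trans (Finset.card_le_card ?_)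
      intro j hj
      rw [mem_filter] at hj ⊢
      refine ⟨?_, hj.2⟩
      by_contra h9
      have := h6 j (mem_sdiff.mpr ⟨hj.1, h9⟩)
      omega
  refine (Finset.sum_le_sum h5).trans ?_
  simp only [Finset.card_filter]
  rw [Finset.sum_comm]
  refine Finset.sum_le_sum (fun j _ => ?_)
  rw [← Finset.card_filter]
  calc ((range N).filter (fun l => l < f j)).card ≤ (range (f j)).card := by
        refine Finset.card_le_card (fun l hl => ?_)
        rw [mem_filter] at hl
        exact mem_range.mpr hl.2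
    _ = f j := card_range _

/-- A Hall type theorem: vertices `v ∈ V` in cliques `r v` get colours below `c` among the allowed
ones, different in one clique, each colour `i` at most `β i` times. -/
theorem hall_colour (V : Finset ℕ) (r : ℕ → ℕ) (c : ℕ) (al : ℕ → ℕ → Prop) (β : ℕ → ℕ)
    [∀ v i, Decidable (al v i)]
    (H : ∀ X ⊆ V, X.card ≤ ∑ i ∈ range c,
      min ((V.image r).filter (fun j => ∃ v ∈ X, r v = j ∧ al v i)).card (β i)) :
    ∃ φ : ℕ → ℕ, (∀ v ∈ V, φ v < c ∧ al v (φ v)) ∧
      (∀ u ∈ V, ∀ v ∈ V, u ≠ v → r u = r v → φ u ≠ φ v) ∧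
      ∀ i < c, (V.filter (fun v => φ v = i)).card ≤ β i := by
  classical
  let J := V.image r
  let Y0 := J ×ˢ range c
  let t : ({v // v ∈ V} ⊕ {y // y ∈ Y0}) → Finset ((ℕ × ℕ) ⊕ (ℕ × ℕ)) := fun x =>
    match x with
    | .inl v => ((range c).filter (fun i => al v i)).image (fun i => Sum.inl (r v, i))
    | .inr y => insert (Sum.inl y.1) ((range (β y.1.2)).image (fun q => Sum.inr (y.1.2, q)))
  have hall : ∃ f : ({v // v ∈ V} ⊕ {y // y ∈ Y0}) → ((ℕ × ℕ) ⊕ (ℕ × ℕ)),
      Function.Injective f ∧ ∀ x, f x ∈ t x := by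
    rw [← Finset.all_card_le_biUnion_card_iff_exists_injective]
    intro X
    let X1 : Finset ℕ := V.filter (fun v => ∃ h : v ∈ V, (Sum.inl ⟨v, h⟩ : {v // v ∈ V} ⊕ {y // y ∈ Y0}) ∈ X)
    let Y1 : Finset (ℕ × ℕ) := Y0.filter (fun y => ∃ h : y ∈ Y0, (Sum.inr ⟨y, h⟩ : {v // v ∈ V} ⊕ {y // y ∈ Y0}) ∈ X)
    have hX : X.card ≤ X1.card + Y1.card := by
      have h1 : X ⊆ (X1.attach.image (fun v => (Sum.inl ⟨v.1, (mem_filter.mp v.2).1⟩ :
          {v // v ∈ V} ⊕ {y // y ∈ Y0}))) ∪ (Y1.attach.image (fun y =>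
          (Sum.inr ⟨y.1, (mem_filter.mp y.2).1⟩ : {v // v ∈ V} ⊕ {y // y ∈ Y0}))) := by
        intro x hx
        rw [mem_union, mem_image, mem_image]
        rcases x with ⟨v, hv⟩ | ⟨y, hy⟩
        · left
          exact ⟨⟨v, mem_filter.mpr ⟨hv, hv, hx⟩⟩, mem_attach _ _, rfl⟩
        · right
          exact ⟨⟨y, mem_filter.mpr ⟨hy, hy, hx⟩⟩, mem_attach _ _, rfl⟩
      refine (card_le_card h1).trans ((card_union_le _ _).trans ?_)
      refine Nat.add_le_add (card_image_le.trans ?_) (card_image_le.trans ?_)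
      · rw [card_attach]
      · rw [card_attach]
    let N1 : Finset (ℕ × ℕ) := Y0.filter (fun y => ∃ v ∈ X1, r v = y.1 ∧ al v y.2)
    let Z : Finset (ℕ × ℕ) := ((range c).filter (fun i => ∃ j, (j, i) ∈ Y1)).sigma
      (fun i => range (β i)) |>.image (fun p => (p.1, p.2))
    have hN : (N1 ∪ Y1).image Sum.inl ∪ Z.image Sum.inr ⊆ X.biUnion t := by
      intro x hx
      rw [mem_union, mem_image, mem_image] at hx
      rw [mem_biUnion]
      rcases hx with ⟨y, hy, rfl⟩ | ⟨z, hz, rfl⟩
      · rcases mem_union.mp hy with hy | hy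
        · obtain ⟨hy0, v, hv, h1, h2⟩ := mem_filter.mp hy
          obtain ⟨hvV, h3, h4⟩ := mem_filter.mp hv
          refine ⟨_, h4, ?_⟩
          simp only [t, mem_image, mem_filter]
          refine ⟨y.2, ⟨(mem_product.mp hy0).2, h2⟩, ?_⟩
          rw [h1]
        · obtain ⟨hy0, h3, h4⟩ := mem_filter.mp hy
          refine ⟨_, h4, ?_⟩
          simp only [t]
          exact mem_insert_self _ _
      · simp only [Z, mem_image, mem_sigma, mem_filter, mem_range] at hz
        obtain ⟨⟨i, q⟩, ⟨⟨hi, j, hj⟩, hq⟩, rfl⟩ := hz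
        obtain ⟨hy0, h3, h4⟩ := mem_filter.mp hj
        refine ⟨_, h4, ?_⟩
        simp only [t]
        refine mem_insert_of_mem (mem_image.mpr ⟨q, mem_range.mpr hq, rfl⟩)
    have hcard : (N1 ∪ Y1).card + Z.card ≤ (X.biUnion t).card := by
      refine le_trans ?_ (card_le_card hN)
      have hdis : Disjoint ((N1 ∪ Y1).image (Sum.inl : ℕ × ℕ → (ℕ × ℕ) ⊕ (ℕ × ℕ)))
          (Z.image (Sum.inr : ℕ × ℕ → (ℕ × ℕ) ⊕ (ℕ × ℕ))) := by
        rw [Finset.disjoint_left]
        intro x hx hx'
        rw [mem_image] at hx hx'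
        obtain ⟨y, _, rfl⟩ := hx
        obtain ⟨z, _, hz⟩ := hx'
        cases hz
      rw [card_union_of_disjoint hdis, card_image_of_injective _ Sum.inl_injective,
        card_image_of_injective _ Sum.inr_injective]
    have hZ : Z.card = ∑ i ∈ range c, (if ∃ j, (j, i) ∈ Y1 then β i else 0) := by
      simp only [Z]
      rw [card_image_of_injective, card_sigma, Finset.sum_filter]
      · exact Finset.sum_congr rfl (fun i _ => by rw [card_range])
      · rintro ⟨a, b⟩ ⟨a', b'⟩ h
        simp only [Prod.mk.injEq] at h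
        obtain ⟨rfl, rfl⟩ := h
        rfl
    have hsub : ∀ y ∈ N1 ∪ Y1, y.2 ∈ range c := by
      intro y hy
      rcases mem_union.mp hy with hy | hy
      · exact (mem_product.mp (mem_filter.mp hy).1).2
      · exact (mem_product.mp (mem_filter.mp hy).1).2
    have hNY : (N1 ∪ Y1).card = ∑ i ∈ range c, ((N1 ∪ Y1).filter (fun y => y.2 = i)).card :=
      card_eq_sum_card_fiberwise hsub
    have hYc : Y1.card = ∑ i ∈ range c, (Y1.filter (fun y => y.2 = i)).card :=
      card_eq_sum_card_fiberwise (fun y hy => hsub y (mem_union_right _ hy))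
    have hH := H X1 (filter_subset _ _)
    have hfin : ∀ i ∈ range c, (Y1.filter (fun y => y.2 = i)).card +
        min ((V.image r).filter (fun j => ∃ v ∈ X1, r v = j ∧ al v i)).card (β i) ≤
        ((N1 ∪ Y1).filter (fun y => y.2 = i)).card + (if ∃ j, (j, i) ∈ Y1 then β i else 0) := by
      intro i hi
      by_cases hj : ∃ j, (j, i) ∈ Y1
      · rw [if_pos hj]
        refine Nat.add_le_add (card_le_card ?_) (min_le_right _ _)
        exact filter_subset_filter _ subset_union_right
      · rw [if_neg hj]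
        have h1 : Y1.filter (fun y => y.2 = i) = ∅ := by
          rw [filter_eq_empty_iff]
          rintro ⟨j, i'⟩ hy rfl
          exact hj ⟨j, hy⟩
        rw [h1, card_empty, zero_add, add_zero]
        refine (min_le_left _ _).trans ?_
        refine card_le_card_of_injOn (fun j => (j, i)) ?_ ?_
        · intro j hj'
          obtain ⟨h2, h3⟩ := mem_filter.mp (mem_coe.mp hj')
          refine mem_coe.mpr (mem_filter.mpr ⟨mem_union_left _ (mem_filter.mpr ⟨?_, h3⟩), rfl⟩)
          exact mem_product.mpr ⟨h2, hi⟩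
        · intro a _ a' _ h
          exact (Prod.mk.injEq _ _ _ _ ▸ h).1
    have hfin2 := Finset.sum_le_sum hfin
    rw [Finset.sum_add_distrib, Finset.sum_add_distrib, ← hYc, ← hNY, ← hZ] at hfin2
    omega
  obtain ⟨f, hf, hft⟩ := hall
  have hv : ∀ v : {v // v ∈ V}, ∃ i, i < c ∧ al v i ∧ f (Sum.inl v) = Sum.inl (r v, i) := by
    intro v
    have h1 := hft (Sum.inl v)
    simp only [t, mem_image, mem_filter, mem_range] at h1
    obtain ⟨i, ⟨h2, h3⟩, h4⟩ := h1
    exact ⟨i, h2, h3, h4.symm⟩
  choose g hg1 hg2 hg3 using hv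
  let φ : ℕ → ℕ := fun v => if h : v ∈ V then g ⟨v, h⟩ else 0
  have hφ : ∀ v (h : v ∈ V), φ v = g ⟨v, h⟩ := fun v h => dif_pos h
  refine ⟨φ, ?_, ?_, ?_⟩
  · intro v hv
    rw [hφ v hv]
    exact ⟨hg1 ⟨v, hv⟩, hg2 ⟨v, hv⟩⟩
  · intro u hu v hv huv hr h
    rw [hφ u hu, hφ v hv] at h
    have h1 := hg3 ⟨u, hu⟩
    have h2 := hg3 ⟨v, hv⟩
    rw [h] at h1
    simp only at h1 h2
    rw [hr] at h1
    have h3 := hf (h1.trans h2.symm)
    simp only [Sum.inl.injEq, Subtype.mk.injEq] at h3
    exact huv h3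
  · intro i hi
    -- the slots used by colour i are matched to copies of the colour
    have hslot : ∀ v (hv : v ∈ V), φ v = i → ∃ q < β i, ∃ h : (r v, i) ∈ Y0,
        f (Sum.inr ⟨(r v, i), h⟩) = Sum.inr (i, q) := by
      intro v hv hvi
      have h0 : (r v, i) ∈ Y0 := mem_product.mpr ⟨mem_image_of_mem _ hv, mem_range.mpr hi⟩
      have h1 := hft (Sum.inr ⟨(r v, i), h0⟩)
      simp only [t, mem_insert, mem_image, mem_range] at h1
      rcases h1 with h1 | ⟨q, h2, h3⟩
      · exfalso
        have h4 := hg3 ⟨v, hv⟩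
        rw [← hφ v hv, hvi] at h4
        have h5 := hf (h1.trans h4.symm)
        cases h5
      · exact ⟨q, h2, h0, h3.symm⟩
    choose! q hq1 hq2 using hslot
    have hcr : (V.filter (fun v => φ v = i)).card ≤ (range (β i)).card := by
      refine card_le_card_of_injOn q ?_ ?_
      · intro v hv
        obtain ⟨h1, h2⟩ := mem_filter.mp (mem_coe.mp hv)
        exact mem_coe.mpr (mem_range.mpr (hq1 v h1 h2))
      · intro u hu v hv h
        obtain ⟨hu1, hu2⟩ := mem_filter.mp (mem_coe.mp hu)
        obtain ⟨hv1, hv2⟩ := mem_filter.mp (mem_coe.mp hv)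
        obtain ⟨hu3, hu4⟩ := hq2 u hu1 hu2
        obtain ⟨hv3, hv4⟩ := hq2 v hv1 hv2
        have h5 : f (Sum.inr ⟨(r u, i), hu3⟩) = f (Sum.inr ⟨(r v, i), hv3⟩) := by
          rw [hu4, hv4, h]
        have h6 := hf h5
        simp only [Sum.inr.injEq, Subtype.mk.injEq, Prod.mk.injEq, and_true] at h6
        by_contra h7
        have h8 := hg3 ⟨u, hu1⟩
        have h9 := hg3 ⟨v, hv1⟩
        rw [← hφ u hu1, hu2] at h8
        rw [← hφ v hv1, hv2] at h9
        simp only at h8 h9
        rw [h6] at h8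
        have h10 := hf (h8.trans h9.symm)
        simp only [Sum.inl.injEq, Subtype.mk.injEq] at h10
        exact h7 h10
    rwa [card_range] at hcr

end Pool.Agent.Helper68.BCP
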