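import Pool.Agent.Helper68.PU

/-!
Word functions given by unary polynomial time functions, their execution by stack programs, and
loops over such functions.
-/

set_option autoImplicit false

namespace Pool.Agent.Helper68.Una

open SP Calc Finset

variable {α : Type} [Ctx α]

/-- Bounded iteration. -/
theorem PU.iter {n x0 : α → ℕ} {F : α → ℕ → ℕ} (hn : PU n) (h0 : PU x0)
    (hF : PU (fun p : α × ℕ => F p.1 p.2)) (G : α → ℕ) (hG : PolyB G)
    (hb : ∀ a, ∀ i ≤ n a, (F a)^[i] (x0 a) ≤ G a) : PU (fun a => (F a)^[n a] (x0 a)) := by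
  have hbn := hn.bound
  have hb0 := h0.bound
  have hbF := hF.bound
  obtain ⟨p, t, ht, hp⟩ := hn
  obtain ⟨p0, t0, ht0, hp0⟩ := h0
  obtain ⟨p', t', ht', hp'⟩ := hF
  obtain ⟨T, hT, hTb⟩ := ht'.unif hG
  obtain ⟨H, hH, hHb⟩ := hbF.unif hG
  let body : P := .seq p' (underP dropP)
  let cst : α → ℕ := fun a => T a + ((2 * G a + 2) + (6 * H a + 6))
  have hcst : PolyB cst := hT.add ((((PolyB.const 2).mul hG).add (PolyB.const 2)).add
    (((PolyB.const 6).mul hH).add (PolyB.const 6)))
  refine ⟨.seq p0 (.seq (belowP p) (loopP body)), fun a => t0 a + ((t a + (6 * x0 a + 6) +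
    (6 * n a + 6)) + (n a * (cst a + 2) + (3 * n a + 5))), ?_, ?_⟩
  · have h6 : PolyB (fun _ : α => 6) := PolyB.const 6
    exact ht0.add (((ht.add ((h6.mul hb0).add h6)).add ((h6.mul hbn).add h6)).add
      ((hbn.mul (hcst.add (PolyB.const 2))).add (((PolyB.const 3).mul hbn).add (PolyB.const 5))))
  · intro a s o
    have h1 := hp0 a s o
    have h2 := does_below (n := x0 a) (hp a s o)
    have h3 := does_loop (w := Ctx.inp a) (p := body) (n a)
      (fun i => (F a)^[i] (x0 a) :: (Ctx.vals a ++ s)) (fun _ => o) (fun _ => cst a) (by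
        intro i hi
        have e1 := hp' (a, (F a)^[i] (x0 a)) s o
        have e2 := does_under (n := F a ((F a)^[i] (x0 a)))
          (does_drop (w := Ctx.inp a) (n := (F a)^[i] (x0 a)) (s := Ctx.vals a ++ s) (o := o))
        have e3 := e1.seq e2
        have b0 := hb a i hi.le
        have b1 := hTb a _ b0
        have b2 := hHb a _ b0
        simp only at b1 b2
        rw [Function.iterate_succ_apply']
        refine e3.mono ?_
        simp only [cst]
        omega)
    rw [Finset.sum_const, Finset.card_range, smul_eq_mul] at h3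
    exact h1.seq (h2.seq h3)

/-- Word functions given by unary polynomial time functions. -/
def PW (T : List Bool → List Bool) : Prop :=
  ∃ (l : List Bool → ℕ) (B : List Bool → ℕ → ℕ), PU l ∧ PU (fun p : List Bool × ℕ => B p.1 p.2) ∧
    ∀ w, T w = (List.range (l w)).map (fun i => decide (B w i = 1))

/-- Is the symbol the letter one? -/
def isB (c : Option Computability.Γ') : Bool := c == some (.bit true)

/-- Move the output back. -/
def mvo : P := .whl none isS (.ite none isB (.seq (.pop none) (.push (some .jnp) true))
  (.seq (.pop none) (.push (some .jnp) false)))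

theorem exec_mvo (i e r a b : List Bool) (l : List Bool) : ∀ j : List Bool,
    ExecLe mvo (st i j e r a b (l.map Computability.Γ'.bit)) (4 * l.length + 1)
      (st i (l.reverse ++ j) e r a b []) := by
  induction l with
  | nil => intro j; exact ExecLe.whl_done rfl
  | cons c l ih =>
    intro j
    have h1 : ExecLe (.ite none isB (.seq (.pop none) (.push (some .jnp) true))
        (.seq (.pop none) (.push (some .jnp) false)))
        (st i j e r a b ((c :: l).map Computability.Γ'.bit)) 3
        (st i (c :: j) e r a b (l.map Computability.Γ'.bit)) := by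
      cases c
      · refine ExecLe.ite_false rfl ?_
        simpa using (ExecLe.pop none (st i j e r a b ((false :: l).map Computability.Γ'.bit))).seq
          (ExecLe.push (some .jnp) false _)
      · refine ExecLe.ite_true rfl ?_
        simpa using (ExecLe.pop none (st i j e r a b ((true :: l).map Computability.Γ'.bit))).seq
          (ExecLe.push (some .jnp) true _)
    have h2 := ExecLe.whl_step (k := none) (t := isS) (by rfl) h1 (ih (c :: j))
    refine ExecLe.mono ?_ (show 3 + (4 * l.length + 1) + 1 ≤ 4 * (c :: l).length + 1 by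
      simp only [List.length_cons]; omega)
    rw [List.reverse_cons, List.append_assoc, List.singleton_append]
    exact h2

/-- Execution of a word function. -/
theorem exec_word {T : List Bool → List Bool} (hT : PW T) :
    ∃ (q : P) (t : List Bool → ℕ), PolyB t ∧ ∀ w,
      ExecLe q (st w [] [] [] [] [] []) (t w) (st (T w) [] [] [] [] [] []) := by
  obtain ⟨l, B, hl, hB, hf⟩ := hT
  have hB' : PU (fun p : List Bool × ℕ => if B p.1 p.2 = 1 then 1 else 0) :=
    PU.ite (PP.eq hB (PU.const 1)) (PU.const 1) (PU.const 0)
  let B' : List Bool → ℕ → ℕ := fun w i => if B w i = 1 then 1 else 0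
  let tb : List (List Computability.Γ') := [[.bit false], [.bit true]]
  have hbl := hl.bound
  have hbB := hB'.bound
  obtain ⟨p, t, ht, hp⟩ := hl
  obtain ⟨p', t', ht', hp'⟩ := hB'
  obtain ⟨T', hT', hTb⟩ := ht'.unif hbl
  obtain ⟨F, hF, hFb⟩ := hbB.unif hbl
  let body : P := .seq predP (.seq p' (emitP tb))
  let cst : List Bool → ℕ := fun a => 2 + (T' a + (2 * F a + tblSize tb))
  let prog : P := .seq p (.seq dupP (.seq (loopP body) (.seq dropP
    (.seq clearP (.seq mvo restP)))))
  let cost : List Bool → ℕ := fun a => t a + ((10 * l a + 10) + ((l a * (cst a + 2) +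
    (3 * l a + 5)) + (2 + ((2 * mu a + 1) + ((4 * l a + 1) + (4 * l a + 1))))))
  have hcst : PolyB cst := (PolyB.const 2).add (hT'.add (((PolyB.const 2).mul hF).add
    (PolyB.const _)))
  have h4 : PolyB (fun a : List Bool => 4 * l a + 1) :=
    ((PolyB.const 4).mul hbl).add (PolyB.const 1)
  have hcost : PolyB cost := ht.add ((((PolyB.const 10).mul hbl).add (PolyB.const 10)).add
    (((hbl.mul (hcst.add (PolyB.const 2))).add (((PolyB.const 3).mul hbl).add
      (PolyB.const 5))).add ((PolyB.const 2).add ((((PolyB.const 2).mul PolyB.size).add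
        (PolyB.const 1)).add (h4.add h4)))))
  refine ⟨prog, cost, hcost, fun w => ?_⟩
  have h1 := hp w [] []
  have h2 := does_dup (w := w) (n := l w) (s := []) (o := [])
  have h3 := does_loop (w := w) (p := body) (l w) (fun k => [l w - k])
    (fun k => (List.range' (l w - k) k).flatMap (fun i => tb.getD (B' w i) [])) (fun _ => cst w) (by
      intro k hk
      have e1 := does_pred (w := w) (n := l w - k) (s := [])
        (o := (List.range' (l w - k) k).flatMap (fun i => tb.getD (B' w i) []))
      have e2 := hp' (w, l w - k - 1) []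
        ((List.range' (l w - k) k).flatMap (fun i => tb.getD (B' w i) []))
      have e3 := does_emit (w := w) (s := [l w - k - 1])
        (o := (List.range' (l w - k) k).flatMap (fun i => tb.getD (B' w i) [])) tb
        (B' w (l w - k - 1))
      have e4 := e1.seq (e2.seq e3)
      have e5 : l w - (k + 1) = l w - k - 1 := by omega
      have e6 : l w - k - 1 + 1 = l w - k := by omega
      have e7 : (List.range' (l w - (k + 1)) (k + 1)).flatMap (fun i => tb.getD (B' w i) []) =
          tb.getD (B' w (l w - k - 1)) [] ++
          (List.range' (l w - k) k).flatMap (fun i => tb.getD (B' w i) []) := by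
        rw [e5, List.range'_succ, e6, List.flatMap_cons]
      rw [e7, e5]
      refine e4.mono ?_
      have b1 := hTb w (l w - k - 1) (by omega)
      have b2 := hFb w (l w - k - 1) (by omega)
      simp only [cst]
      simp only at b1 b2
      simp only [B']
      omega)
  rw [Finset.sum_const, Finset.card_range, smul_eq_mul] at h3
  simp only [Nat.sub_zero, Nat.sub_self] at h3
  have hout : (List.range' 0 (l w)).flatMap (fun i => tb.getD (B' w i) []) =
      (T w).map Computability.Γ'.bit := by
    rw [hf w, List.range_eq_range', List.map_map]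
    have : ∀ L : List ℕ, L.flatMap (fun i => tb.getD (B' w i) []) =
        L.map (Computability.Γ'.bit ∘ fun i => decide (B w i = 1)) := by
      intro L
      induction L with
      | nil => rfl
      | cons c L ih =>
        rw [List.flatMap_cons, ih, List.map_cons]
        by_cases hc : B w c = 1
        · simp [B', tb, hc]
        · simp [B', tb, hc]
    exact this _
  rw [hout] at h3
  have h4 := does_drop (w := w) (n := 0) (s := []) (o := (T w).map Computability.Γ'.bit)
  have h5 := exec_clear [] [] [] [] [] ((T w).map Computability.Γ'.bit) w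
  have h6 := exec_mvo [] [] [] [] [] (T w) []
  have h7 := exec_rest ((T w).reverse ++ []) [] [] [] [] [] []
  have h8 := (h1 []).seq ((h2 []).seq ((h3 []).seq ((h4 []).seq (h5.seq (h6.seq h7)))))
  have hlen : (T w).length = l w := by rw [hf w]; simp
  simp only [List.append_nil, List.reverse_reverse] at h8
  refine ExecLe.mono h8 ?_
  simp only [cost]
  rw [mu_list]
  simp only [List.length_reverse, hlen]
  omega

/-- The loop: apply the word function until the test vanishes. -/
theorem exec_while {T : List Bool → List Bool} (hT : PW T) {h : List Bool → ℕ} (hh : PU h) :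
    ∃ (q : P) (t : List Bool → ℕ), PolyB t ∧ ∀ w N, (∀ i < N, h (T^[i] w) ≠ 0) →
      h (T^[N] w) = 0 →
      ExecLe q (st w [] [] [] [] [] []) (∑ i ∈ range (N + 1), t (T^[i] w))
        (st (T^[N] w) [] [] [] [] [] []) := by
  have hbh := hh.bound
  obtain ⟨q, t, ht, hq⟩ := exec_word hT
  obtain ⟨p, t', ht', hp⟩ := hh
  let body : P := .seq dropP (.seq q p)
  refine ⟨.seq p (.seq (.whl (some .e) isT body) dropP),
    fun w => 2 * t' w + t w + 2 * h w + 2 * h w + 10, ?_, ?_⟩
  · exact (((((PolyB.const 2).mul ht').add ht).add ((PolyB.const 2).mul hbh)).add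
      ((PolyB.const 2).mul hbh)).add (PolyB.const 10)
  · intro w N hN h0
    have h1 := hp w [] [] []
    have h2 := ExecLe.whl (k := some .e) (t := isT) (p := body) N
      (fun i => st (T^[i] w) [] (enc [h (T^[i] w)]) [] [] [] [])
      (fun i => (2 * h (T^[i] w) + 2) + (t (T^[i] w) + t' (T^[i + 1] w))) (by
        intro i hi
        obtain ⟨k, hk⟩ : ∃ k, h (T^[i] w) = k + 1 := ⟨h (T^[i] w) - 1, by have := hN i hi; omega⟩
        simp only [hk]
        rfl) (by
        intro i hi
        have e1 := does_drop (w := T^[i] w) (n := h (T^[i] w)) (s := []) (o := []) []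
        have e2 := hq (T^[i] w)
        have e3 := hp (T (T^[i] w)) [] [] []
        have e4 := e1.seq (e2.seq e3)
        rw [← Function.iterate_succ_apply' T i w] at e4
        exact e4) (by
        simp only [h0]
        rfl)
    have h3 := does_drop (w := T^[N] w) (n := 0) (s := []) (o := []) []
    simp only [h0] at h2
    have h4 := h1.seq (h2.seq h3)
    refine h4.mono ?_
    clear h1 h2 h3 h4 hN h0
    have key : ∑ i ∈ range N, ((2 * h (T^[i] w) + 2) + (t (T^[i] w) + t' (T^[i + 1] w)) + 1) +
        (t' (T^[0] w)) + 10 ≤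
        ∑ i ∈ range (N + 1), (2 * t' (T^[i] w) + t (T^[i] w) + 2 * h (T^[i] w) +
          2 * h (T^[i] w) + 10) := by
      have e1 : ∑ i ∈ range N, ((2 * h (T^[i] w) + 2) + (t (T^[i] w) + t' (T^[i + 1] w)) + 1) =
          ∑ i ∈ range N, (2 * h (T^[i] w) + t (T^[i] w) + 3) +
            ∑ i ∈ range N, t' (T^[i + 1] w) := by
        rw [← Finset.sum_add_distrib]
        exact Finset.sum_congr rfl (fun i _ => by ring)
      have e2 := Finset.sum_range_succ' (fun i => t' (T^[i] w)) N
      have e3 : ∑ i ∈ range N, (2 * h (T^[i] w) + t (T^[i] w) + 3) + 10 ≤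
          ∑ i ∈ range (N + 1), (2 * h (T^[i] w) + t (T^[i] w) + 10) := by
        rw [Finset.sum_range_succ]
        have : ∑ i ∈ range N, (2 * h (T^[i] w) + t (T^[i] w) + 3) ≤
            ∑ i ∈ range N, (2 * h (T^[i] w) + t (T^[i] w) + 10) :=
          Finset.sum_le_sum (fun i _ => by omega)
        omega
      have e4 : ∑ i ∈ range (N + 1), (2 * t' (T^[i] w) + t (T^[i] w) + 2 * h (T^[i] w) +
          2 * h (T^[i] w) + 10) = ∑ i ∈ range (N + 1), (2 * h (T^[i] w) + t (T^[i] w) + 10) +
          (∑ i ∈ range (N + 1), t' (T^[i] w) + ∑ i ∈ range (N + 1), (t' (T^[i] w) +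
            2 * h (T^[i] w))) := by
        rw [← Finset.sum_add_distrib, ← Finset.sum_add_distrib]
        exact Finset.sum_congr rfl (fun i _ => by ring)
      omega
    simp only [Function.iterate_zero, id_eq, Nat.mul_zero, Nat.zero_add] at key ⊢
    omega

end Pool.Agent.Helper68.Una
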