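import Pool.Agent.Helper68.Fpt.Guess

/-!
The constraints with subsets of the classes coded by numbers.
-/

set_option autoImplicit false

namespace Pool.Agent.Helper68.BCP

open Finset

/-- Number of `i < n` with `Q i`. -/
noncomputable def cnt (n : ℕ) (Q : ℕ → Prop) : ℕ :=
  (@Finset.filter ℕ Q (Classical.decPred Q) (range n)).card

theorem cnt_eq (n : ℕ) (Q : ℕ → Prop) [DecidablePred Q] : cnt n Q = ((range n).filter Q).card := by
  unfold cnt
  congr 1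
  ext i
  rw [@mem_filter ℕ Q (Classical.decPred Q), mem_filter]

theorem cnt_congr {n : ℕ} {Q R : ℕ → Prop} (h : ∀ i < n, (Q i ↔ R i)) : cnt n Q = cnt n R := by
  classical
  rw [cnt_eq, cnt_eq]
  congr 1
  exact filter_congr (fun i hi => h i (mem_range.mp hi))

/-- The value of a proposition. -/
noncomputable def tv (Q : Prop) : ℕ := @ite ℕ Q (Classical.propDecidable Q) 1 0

theorem tv_true {Q : Prop} (h : Q) : tv Q = 1 := by unfold tv; rw [if_pos h]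
theorem tv_false {Q : Prop} (h : ¬ Q) : tv Q = 0 := by unfold tv; rw [if_neg h]

/-- The binary digit `s` of `ρ`, for powers up to `B`. -/
def bitP (B ρ s : ℕ) : Prop := ρ / min (2 ^ s) B % 2 = 1

theorem bitP_iff {B ρ s : ℕ} (h : 2 ^ s ≤ B) : bitP B ρ s ↔ ρ.testBit s = true := by
  unfold bitP
  rw [min_eq_left h, Nat.testBit_eq_decide_div_mod_eq, decide_eq_true_eq]

/-- The number with the given binary digits. -/
theorem exists_code (K : ℕ) (Q : ℕ → Prop) : ∃ ρ < 2 ^ K, ∀ s < K, (ρ.testBit s = true ↔ Q s) := by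
  classical
  induction K with
  | zero => exact ⟨0, by simp, fun s hs => absurd hs (by omega)⟩
  | succ K ih =>
    obtain ⟨ρ, h1, h2⟩ := ih
    by_cases hQ : Q K
    · refine ⟨2 ^ K + ρ, by rw [pow_succ]; omega, fun s hs => ?_⟩
      rcases Nat.lt_succ_iff_lt_or_eq.mp hs with h | rfl
      · rw [Nat.testBit_two_pow_add_gt h]
        exact h2 s h
      · rw [Nat.testBit_two_pow_add_eq, Nat.testBit_lt_two_pow h1]
        simpa using hQ
    · refine ⟨ρ, by rw [pow_succ]; omega, fun s hs => ?_⟩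
      rcases Nat.lt_succ_iff_lt_or_eq.mp hs with h | rfl
      · exact h2 s h
      · rw [Nat.testBit_lt_two_pow h1]
        simpa using hQ

section

variable (n c : ℕ) (adj : ℕ → ℕ → Prop) (b : ℕ → ℕ) (K : ℕ) (Sv : ℕ → ℕ) (cl t : ℕ → ℕ) (P : ℕ)

/-- The class `s` is active. -/
def Act (s : ℕ) : Prop := ∃ i < K, cl i = s

/-- The class `s` belongs to the set coded by `ρ`. -/
def RR (ρ s : ℕ) : Prop := Act K cl s ∧ bitP P ρ s

/-- Size of a class. -/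
noncomputable def sg (s : ℕ) : ℕ := cnt K (fun i => cl i = s)

/-- Multiplicity of a budget. -/
noncomputable def ml (v : ℕ) : ℕ := cnt c (fun i => b i = v)

/-- Number of blocked vertices. -/
noncomputable def uuP (ρ ρ' j : ℕ) : ℕ :=
  cnt n (fun v => ¬ InS K Sv v ∧ (v = j ∨ adj j v) ∧
    ∀ s < K, RR K cl P ρ s ∧ bitP P ρ' s → NB adj K Sv cl s v)

/-- Number of the remaining classes. -/
noncomputable def dfP (ρ ρ' : ℕ) : ℕ := cnt K (fun s => RR K cl P ρ s ∧ ¬ bitP P ρ' s)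

/-- The demand of the clique `j` exceeds `l`. -/
def dem (ρ j l : ℕ) : Prop := ∃ ρ' < P, l + dfP K cl P ρ ρ' < uuP n adj K Sv cl P ρ ρ' j

/-- Total demand. -/
noncomputable def CCP (ρ m : ℕ) : ℕ :=
  ∑ l ∈ range n, min m (cnt n (fun j => IsRep n adj K Sv j ∧ dem n adj K Sv cl P ρ j l))

/-- The main constraint. -/
def MainP (L : ℕ → ℕ) (ρ m : ℕ) : Prop :=
  CCP n adj K Sv cl P ρ m + ∑ s ∈ range K, tv (Act K cl s) * min (L s) m ≤
    ∑ i ∈ range c, min (b i) m +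
      ∑ s ∈ range K, tv (Act K cl s ∧ ¬ bitP P ρ s) * min (L s - sg K cl s) m

/-- Violation of the constraints on one entry. -/
def B1P (L : ℕ → ℕ) (u : ℕ) : Prop :=
  L u < sg K cl u ∨ ml c b (L u) < cnt K (fun s' => Act K cl s' ∧ t s' = t u)

/-- Violation of the constraints on two entries. -/
def B2P (L : ℕ → ℕ) (u : ℕ) : Prop :=
  ∃ s < K, Act K cl s ∧ ((t s ≤ t u ∧ t u < t s + K ∧ L u < L s + (t u - t s)) ∨
    (t u ≤ t s ∧ t s < t u + K ∧ L u + (t s - t u) < L s) ∨ (t s + K ≤ t u ∧ L u < L s + K))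

/-- Violation of the main constraints. -/
def B3P (L : ℕ → ℕ) (u : ℕ) : Prop :=
  (∀ s < K, Act K cl s → ¬ B1P c b K cl t L s ∧ ¬ B2P K cl t L s) ∧ ∃ ρ < P, ∃ m < n + 1,
    ¬ MainP n c adj b K Sv cl P L ρ m ∧ ¬ RR K cl P ρ u ∧ L u < m + sg K cl u ∧
      ∀ u' < K, Act K cl u' ∧ ¬ RR K cl P ρ u' ∧ L u' < m + sg K cl u' → L u' ≤ L u

/-- Entries that have to be increased. -/
def BumpP (L : ℕ → ℕ) (u : ℕ) : Prop :=
  Act K cl u ∧ (B1P c b K cl t L u ∨ B2P K cl t L u ∨ B3P n c adj b K Sv cl t P L u)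

/-- All main constraints. -/
def AllMain (L : ℕ → ℕ) : Prop := ∀ ρ < P, ∀ m < n + 1, MainP n c adj b K Sv cl P L ρ m

variable {n c adj b K Sv cl t P}

theorem act_iff {s : ℕ} (hs : s < K) : Act K cl s ↔ s ∈ AA K cl := by
  rw [mem_AA]
  exact ⟨fun h => ⟨hs, h⟩, fun h => h.2⟩

theorem sg_eq : sg K cl = sig K cl := by
  funext s
  unfold sg sig
  exact cnt_eq _ _

theorem ml_eq : ml c b = mlt c b := by
  funext s
  unfold ml mlt
  exact cnt_eq _ _

/-- The set of classes coded by `ρ`. -/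
noncomputable def Rs (K : ℕ) (cl : ℕ → ℕ) (P ρ : ℕ) : Finset ℕ :=
  @Finset.filter ℕ (fun s => bitP P ρ s) (Classical.decPred _) (AA K cl)

theorem mem_Rs {ρ s : ℕ} : s ∈ Rs K cl P ρ ↔ s ∈ AA K cl ∧ bitP P ρ s := by
  unfold Rs
  exact @mem_filter ℕ _ (Classical.decPred _) _ _

theorem Rs_sub {ρ : ℕ} : Rs K cl P ρ ⊆ AA K cl := fun _ hs => (mem_Rs.mp hs).1

theorem mem_Rs' {ρ s : ℕ} (hs : s < K) : s ∈ Rs K cl P ρ ↔ RR K cl P ρ s := by
  rw [mem_Rs]
  unfold RR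
  rw [act_iff hs]

theorem lt_of_mem_AA {s : ℕ} (hs : s ∈ AA K cl) : s < K := ((mem_AA K cl).mp hs).1

theorem exists_Rs (hP : 2 ^ K ≤ P) {R : Finset ℕ} (hR : R ⊆ AA K cl) :
    ∃ ρ < P, Rs K cl P ρ = R := by
  obtain ⟨ρ, h1, h2⟩ := exists_code K (fun s => s ∈ R)
  refine ⟨ρ, by omega, ?_⟩
  ext s
  rw [mem_Rs]
  constructor
  · rintro ⟨h3, h4⟩
    have h5 := lt_of_mem_AA h3
    rw [bitP_iff (le_trans (Nat.pow_le_pow_right (by omega) h5.le) hP)] at h4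
    exact (h2 s h5).mp h4
  · intro h3
    have h5 := lt_of_mem_AA (hR h3)
    refine ⟨hR h3, ?_⟩
    rw [bitP_iff (le_trans (Nat.pow_le_pow_right (by omega) h5.le) hP)]
    exact (h2 s h5).mpr h3

theorem dem_iff (hP : 2 ^ K ≤ P) (hsymm : ∀ u v, adj u v → adj v u)
    (hlt : ∀ u v, adj u v → u < n ∧ v < n) (hclu : Clu n adj K Sv) {ρ j l : ℕ}
    (hj : IsRep n adj K Sv j) :
    dem n adj K Sv cl P ρ j l ↔
      l < ww (VV n K Sv) (rp adj K Sv) (NB adj K Sv cl) (Rs K cl P ρ) j := by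
  classical
  -- the two counts
  have hu : ∀ ρ', uuP n adj K Sv cl P ρ ρ' j = uu (VV n K Sv) (rp adj K Sv) (NB adj K Sv cl)
      ((Rs K cl P ρ).filter (fun s => bitP P ρ' s)) j := by
    intro ρ'
    unfold uuP uu
    rw [cnt_eq]
    congr 1
    ext v
    rw [mem_filter, mem_UU, mem_VV, mem_range]
    constructor
    · rintro ⟨h1, h2, h3, h4⟩
      refine ⟨⟨h1, h2⟩, (rp_eq_iff hsymm hlt hclu hj ((mem_VV n K Sv).mpr ⟨h1, h2⟩)).mpr h3,
        fun s hs => ?_⟩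
      obtain ⟨h5, h6⟩ := mem_filter.mp hs
      have h7 := lt_of_mem_AA (Rs_sub h5)
      exact h4 s h7 ⟨(mem_Rs' h7).mp h5, h6⟩
    · rintro ⟨⟨h1, h2⟩, h3, h4⟩
      refine ⟨h1, h2, (rp_eq_iff hsymm hlt hclu hj ((mem_VV n K Sv).mpr ⟨h1, h2⟩)).mp h3,
        fun s hs h5 => ?_⟩
      exact h4 s (mem_filter.mpr ⟨(mem_Rs' hs).mpr h5.1, h5.2⟩)
  have hd : ∀ ρ', dfP K cl P ρ ρ' =
      (Rs K cl P ρ \ (Rs K cl P ρ).filter (fun s => bitP P ρ' s)).card := by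
    intro ρ'
    unfold dfP
    rw [cnt_eq]
    congr 1
    ext s
    rw [mem_filter, mem_range, mem_sdiff, mem_filter]
    constructor
    · rintro ⟨h1, h2, h3⟩
      exact ⟨(mem_Rs' h1).mpr h2, fun h => h3 h.2⟩
    · rintro ⟨h1, h2⟩
      have h7 := lt_of_mem_AA (Rs_sub h1)
      exact ⟨h7, (mem_Rs' h7).mp h1, fun h => h2 ⟨h1, h⟩⟩
  unfold dem ww
  rw [Finset.lt_sup_iff]
  constructor
  · rintro ⟨ρ', h1, h2⟩
    rw [hu, hd] at h2
    exact ⟨(Rs K cl P ρ).filter (fun s => bitP P ρ' s), mem_powerset.mpr (filter_subset _ _),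
      by omega⟩
  · rintro ⟨R', h1, h2⟩
    have h1 := mem_powerset.mp h1
    obtain ⟨ρ', h3, h4⟩ := exists_Rs (cl := cl) hP (h1.trans Rs_sub)
    refine ⟨ρ', h3, ?_⟩
    have h5 : (Rs K cl P ρ).filter (fun s => bitP P ρ' s) = R' := by
      ext s
      rw [mem_filter]
      constructor
      · rintro ⟨h6, h7⟩
        rw [← h4]
        exact mem_Rs.mpr ⟨Rs_sub h6, h7⟩
      · intro h6
        refine ⟨h1 h6, ?_⟩
        rw [← h4] at h6
        exact (mem_Rs.mp h6).2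
    rw [hu, hd, h5]
    omega

theorem CCP_eq (hP : 2 ^ K ≤ P) (hsymm : ∀ u v, adj u v → adj v u)
    (hlt : ∀ u v, adj u v → u < n ∧ v < n) (hclu : Clu n adj K Sv) (ρ m : ℕ) :
    CCP n adj K Sv cl P ρ m =
      CC n (VV n K Sv) (rp adj K Sv) (NB adj K Sv cl) (Rs K cl P ρ) m := by
  classical
  unfold CCP CC
  refine sum_congr rfl (fun l _ => ?_)
  congr 1
  rw [cnt_eq]
  congr 1
  ext j
  rw [mem_filter, mem_filter, mem_range, image_rp hclu]
  constructor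
  · rintro ⟨_, h2, h3⟩
    exact ⟨h2, (dem_iff hP hsymm hlt hclu h2).mp h3⟩
  · rintro ⟨h2, h3⟩
    exact ⟨h2.1, h2, (dem_iff hP hsymm hlt hclu h2).mpr h3⟩

theorem sum_tv (K : ℕ) (Q : ℕ → Prop) (A : Finset ℕ) (h : ∀ s, s ∈ A ↔ s < K ∧ Q s)
    (f : ℕ → ℕ) : ∑ s ∈ range K, tv (Q s) * f s = ∑ s ∈ A, f s := by
  classical
  have h1 : A = (range K).filter Q := by
    ext s
    rw [h s, mem_filter, mem_range]
  rw [h1, sum_filter]
  refine sum_congr rfl (fun s _ => ?_)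
  by_cases hQ : Q s
  · rw [tv_true hQ, if_pos hQ, one_mul]
  · rw [tv_false hQ, if_neg hQ, zero_mul]

theorem MainP_iff (hP : 2 ^ K ≤ P) (hsymm : ∀ u v, adj u v → adj v u)
    (hlt : ∀ u v, adj u v → u < n ∧ v < n) (hclu : Clu n adj K Sv) (L : ℕ → ℕ) (ρ m : ℕ) :
    MainP n c adj b K Sv cl P L ρ m ↔
      Main n c b (VV n K Sv) (rp adj K Sv) (NB adj K Sv cl) (AA K cl) (sig K cl) L
        (Rs K cl P ρ) m := by
  unfold MainP Main
  rw [CCP_eq hP hsymm hlt hclu, sg_eq,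
    sum_tv K (Act K cl) (AA K cl) (fun s => mem_AA K cl),
    sum_tv K (fun s => Act K cl s ∧ ¬ bitP P ρ s) (AA K cl \ Rs K cl P ρ) (fun s => ?_)]
  rw [mem_sdiff, mem_Rs, mem_AA]
  unfold Act
  constructor
  · rintro ⟨h1, h2⟩
    exact ⟨h1.1, h1.2, fun h3 => h2 ⟨h1, h3⟩⟩
  · rintro ⟨h1, h2, h3⟩
    exact ⟨⟨h1, h2⟩, fun h4 => h3 h4.2⟩

theorem B1P_iff {L : ℕ → ℕ} {u : ℕ} :
    B1P c b K cl t L u ↔ B1 (AA K cl) t (sig K cl) (mlt c b) L u := by
  classical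
  unfold B1P B1
  rw [sg_eq, ml_eq, cnt_eq]
  have : (range K).filter (fun s' => Act K cl s' ∧ t s' = t u) =
      (AA K cl).filter (fun s' => t s' = t u) := by
    ext s
    rw [mem_filter, mem_filter, mem_range, mem_AA]
    unfold Act
    constructor
    · rintro ⟨h1, h2, h3⟩
      exact ⟨⟨h1, h2⟩, h3⟩
    · rintro ⟨⟨h1, h2⟩, h3⟩
      exact ⟨h1, h2, h3⟩
  rw [this]

theorem B2P_iff {L : ℕ → ℕ} {u : ℕ} : B2P K cl t L u ↔ B2 (AA K cl) K t L u := by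
  unfold B2P B2
  constructor
  · rintro ⟨s, h1, h2, h3⟩
    exact ⟨s, (act_iff h1).mp h2, h3⟩
  · rintro ⟨s, h1, h2⟩
    have h3 := lt_of_mem_AA h1
    exact ⟨s, h3, (act_iff h3).mpr h1, h2⟩

theorem B3P_iff (hP : 2 ^ K ≤ P) (hsymm : ∀ u v, adj u v → adj v u)
    (hlt : ∀ u v, adj u v → u < n ∧ v < n) (hclu : Clu n adj K Sv) {L : ℕ → ℕ} {u : ℕ}
    (hu : u < K) :
    B3P n c adj b K Sv cl t P L u ↔
      B3 (AA K cl) K n t (sig K cl) (mlt c b) c b (VV n K Sv) (rp adj K Sv)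
        (NB adj K Sv cl) L u := by
  unfold B3P B3
  refine and_congr ?_ ?_
  · constructor
    · intro h s hs
      rw [← B1P_iff, ← B2P_iff]
      have h3 := lt_of_mem_AA hs
      exact h s h3 ((act_iff h3).mpr hs)
    · intro h s h3 hs
      rw [B1P_iff, B2P_iff]
      exact h s ((act_iff h3).mp hs)
  · have key : ∀ ρ m, (¬ MainP n c adj b K Sv cl P L ρ m ∧ ¬ RR K cl P ρ u ∧
        L u < m + sg K cl u ∧
        ∀ u' < K, Act K cl u' ∧ ¬ RR K cl P ρ u' ∧ L u' < m + sg K cl u' → L u' ≤ L u) ↔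
        (¬ Main n c b (VV n K Sv) (rp adj K Sv) (NB adj K Sv cl) (AA K cl) (sig K cl) L
          (Rs K cl P ρ) m ∧ u ∉ Rs K cl P ρ ∧ L u < m + sig K cl u ∧
          ∀ u' ∈ AA K cl \ Rs K cl P ρ, L u' < m + sig K cl u' → L u' ≤ L u) := by
      intro ρ m
      rw [MainP_iff hP hsymm hlt hclu, mem_Rs' hu, sg_eq]
      refine and_congr Iff.rfl (and_congr Iff.rfl (and_congr Iff.rfl ?_))
      constructor
      · intro h u' hu' h1
        obtain ⟨h2, h3⟩ := mem_sdiff.mp hu'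
        have h4 := lt_of_mem_AA h2
        exact h u' h4 ⟨(act_iff h4).mpr h2, fun h5 => h3 ((mem_Rs' h4).mpr h5), h1⟩
      · rintro h u' h4 ⟨h1, h2, h3⟩
        exact h u' (mem_sdiff.mpr ⟨(act_iff h4).mp h1, fun h5 => h2 ((mem_Rs' h4).mp h5)⟩) h3
    constructor
    · rintro ⟨ρ, h1, m, h2, h3⟩
      exact ⟨Rs K cl P ρ, Rs_sub, m, by omega, (key ρ m).mp h3⟩
    · rintro ⟨R, h1, m, h2, h3⟩
      obtain ⟨ρ, h4, rfl⟩ := exists_Rs hP h1
      exact ⟨ρ, h4, m, by omega, (key ρ m).mpr h3⟩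

theorem BumpP_iff (hP : 2 ^ K ≤ P) (hsymm : ∀ u v, adj u v → adj v u)
    (hlt : ∀ u v, adj u v → u < n ∧ v < n) (hclu : Clu n adj K Sv) {L : ℕ → ℕ} {u : ℕ}
    (hu : u < K) :
    BumpP n c adj b K Sv cl t P L u ↔
      Bump (AA K cl) K n t (sig K cl) (mlt c b) c b (VV n K Sv) (rp adj K Sv)
        (NB adj K Sv cl) L u := by
  unfold BumpP Bump
  rw [act_iff hu, B1P_iff, B2P_iff, B3P_iff hP hsymm hlt hclu hu]

theorem AllMain_iff (hP : 2 ^ K ≤ P) (hsymm : ∀ u v, adj u v → adj v u)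
    (hlt : ∀ u v, adj u v → u < n ∧ v < n) (hclu : Clu n adj K Sv) {L : ℕ → ℕ} :
    AllMain n c adj b K Sv cl P L ↔ ∀ R ⊆ AA K cl, ∀ m ≤ n,
      Main n c b (VV n K Sv) (rp adj K Sv) (NB adj K Sv cl) (AA K cl) (sig K cl) L R m := by
  unfold AllMain
  constructor
  · intro h R hR m hm
    obtain ⟨ρ, h4, rfl⟩ := exists_Rs hP hR
    exact (MainP_iff hP hsymm hlt hclu L ρ m).mp (h ρ h4 m (by omega))
  · intro h ρ _ m hm
    exact (MainP_iff hP hsymm hlt hclu L ρ m).mpr (h _ Rs_sub m (by omega))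

/-- Entries that have to be increased are smaller than those of solutions. -/
theorem bumpP_lt (hP : 2 ^ K ≤ P) (hsymm : ∀ u v, adj u v → adj v u)
    (hlt : ∀ u v, adj u v → u < n ∧ v < n) (hclu : Clu n adj K Sv) {L x : ℕ → ℕ} {u : ℕ}
    (hu : u < K) (h : BumpP n c adj b K Sv cl t P L u) (hx : GSol n c adj b K Sv cl t x)
    (hL : ∀ s < K, Act K cl s → L s ≤ x s) : L u < x u := by
  refine bump_lt ?_ ?_ ((BumpP_iff hP hsymm hlt hclu hu).mp h) hx ?_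
  · intro s hs
    exact mem_range.mpr (lt_of_mem_AA hs)
  · intro s _
    unfold sig
    exact (card_filter_le _ _).trans (card_range K).le
  · intro s hs
    have h3 := lt_of_mem_AA hs
    exact hL s h3 ((act_iff h3).mpr hs)

theorem noBump_sol (hP : 2 ^ K ≤ P) (hsymm : ∀ u v, adj u v → adj v u)
    (hlt : ∀ u v, adj u v → u < n ∧ v < n) (hclu : Clu n adj K Sv) {L : ℕ → ℕ}
    (h : ∀ u < K, ¬ BumpP n c adj b K Sv cl t P L u) (hM : AllMain n c adj b K Sv cl P L) :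
    GSol n c adj b K Sv cl t L := by
  refine sol_of_no_bump (fun u hu => ?_) ((AllMain_iff hP hsymm hlt hclu).mp hM)
  have h3 := lt_of_mem_AA hu.1
  exact h u h3 ((BumpP_iff hP hsymm hlt hclu h3).mpr hu)

theorem noBump_noSol (hP : 2 ^ K ≤ P) (hsymm : ∀ u v, adj u v → adj v u)
    (hlt : ∀ u v, adj u v → u < n ∧ v < n) (hclu : Clu n adj K Sv) {L : ℕ → ℕ}
    (h : ∀ u < K, ¬ BumpP n c adj b K Sv cl t P L u) (hM : ¬ AllMain n c adj b K Sv cl P L)
    (x : ℕ → ℕ) (hL : ∀ s < K, Act K cl s → L s ≤ x s) : ¬ GSol n c adj b K Sv cl t x := by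
  refine sol_or (L := L) (fun u hu => ?_) ?_ x ?_
  · have h3 := lt_of_mem_AA hu.1
    exact h u h3 ((BumpP_iff hP hsymm hlt hclu h3).mpr hu)
  · rw [AllMain_iff hP hsymm hlt hclu] at hM
    push Not at hM
    obtain ⟨R, h1, m, h2, h3⟩ := hM
    exact ⟨R, h1, m, h2, h3⟩
  · intro s hs
    have h3 := lt_of_mem_AA hs
    exact hL s h3 ((act_iff h3).mpr hs)

/-- Solutions have entries among the budgets. -/
theorem sol_le (hb : ∀ i < c, b i ≤ n) {x : ℕ → ℕ} (hx : GSol n c adj b K Sv cl t x) {s : ℕ}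
    (hs : s < K) (ha : Act K cl s) : x s ≤ n := by
  have h1 := (hx.1 s ((act_iff hs).mp ha)).2
  have h2 : 0 < ((AA K cl).filter (fun s' => t s' = t s)).card :=
    card_pos.mpr ⟨s, mem_filter.mpr ⟨(act_iff hs).mp ha, rfl⟩⟩
  have h3 : 0 < mlt c b (x s) := by omega
  unfold mlt at h3
  obtain ⟨i, hi⟩ := card_pos.mp h3
  obtain ⟨h4, h5⟩ := mem_filter.mp hi
  rw [← h5]
  exact hb i (mem_range.mp h4)

end

end Pool.Agent.Helper68.BCP
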