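import Pool.Agent.Helper68.Fpt.Code
import Pool.Agent.Helper68.Fpt.Defs

/-!
Reading an instance from the words of the algorithm.
-/

set_option autoImplicit false

namespace Pool.Agent.Helper68.BCP

open Finset Una SP Calc

/-- Adjacency in terms of natural numbers. -/
def adjN (I : Inst) (u v : ℕ) : Prop := ∃ (hu : u < I.n) (hv : v < I.n), I.G.Adj ⟨u, hu⟩ ⟨v, hv⟩

/-- Budgets in terms of natural numbers, truncated at the number of vertices. -/
def bN (I : Inst) (i : ℕ) : ℕ := if h : i < I.c then min (I.b ⟨i, h⟩) I.n else 0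

theorem adjN_symm (I : Inst) (u v : ℕ) (h : adjN I u v) : adjN I v u := by
  obtain ⟨hu, hv, h⟩ := h
  exact ⟨hv, hu, h.symm⟩

theorem adjN_irrefl (I : Inst) (u : ℕ) : ¬ adjN I u u := by
  rintro ⟨hu, hv, h⟩
  exact I.G.loopless.irrefl _ h

theorem adjN_lt (I : Inst) (u v : ℕ) (h : adjN I u v) : u < I.n ∧ v < I.n := by
  obtain ⟨hu, hv, _⟩ := h
  exact ⟨hu, hv⟩

theorem bN_le (I : Inst) (i : ℕ) : bN I i ≤ I.n := by
  unfold bN
  split_ifs
  · exact min_le_right _ _
  · exact Nat.zero_le _

theorem yes_iff (I : Inst) : I.Yes ↔ YesN I.n I.c (adjN I) (bN I) := by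
  classical
  constructor
  · rintro ⟨φ, h1, h2⟩
    refine ⟨fun v => if h : v < I.n then (φ ⟨v, h⟩ : ℕ) else 0, ?_, ?_, ?_⟩
    · intro v hv
      simp only [dif_pos hv]
      exact (φ ⟨v, hv⟩).2
    · rintro u hu v hv ⟨hu', hv', h⟩
      simp only [dif_pos hu, dif_pos hv]
      intro h3
      exact h1 _ _ h (Fin.ext h3)
    · intro i hi
      have h3 := h2 ⟨i, hi⟩
      have h4 : ((range I.n).filter (fun v => (if h : v < I.n then (φ ⟨v, h⟩ : ℕ) else 0) = i)).card =
          (univ.filter (fun v => φ v = ⟨i, hi⟩)).card := by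
        symm
        refine card_bij (fun v _ => (v : ℕ)) ?_ ?_ ?_
        · intro v hv
          have h5 := (mem_filter.mp hv).2
          refine mem_filter.mpr ⟨mem_range.mpr v.2, ?_⟩
          rw [dif_pos v.2]
          exact congrArg Fin.val h5
        · intro a _ b _ h
          exact Fin.ext h
        · intro v hv
          obtain ⟨h5, h6⟩ := mem_filter.mp hv
          have h5 := mem_range.mp h5
          rw [dif_pos h5] at h6
          exact ⟨⟨v, h5⟩, mem_filter.mpr ⟨mem_univ _, Fin.ext h6⟩, rfl⟩
      rw [h4]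
      unfold bN
      rw [dif_pos hi]
      refine le_min h3 ((card_filter_le _ _).trans ?_)
      rw [card_univ, Fintype.card_fin]
  · rintro ⟨φ, h1, h2, h3⟩
    refine ⟨fun v => ⟨φ v, h1 v v.2⟩, ?_, ?_⟩
    · intro u v h h4
      exact h2 u u.2 v v.2 ⟨u.2, v.2, h⟩ (congrArg Fin.val h4)
    · intro i
      have h4 := h3 i i.2
      unfold bN at h4
      rw [dif_pos i.2] at h4
      refine le_trans ?_ (h4.trans (min_le_left _ _))
      refine card_le_card_of_injOn (fun v => (v : ℕ)) ?_ ?_
      · intro v hv
        have h5 := (mem_filter.mp (mem_coe.mp hv)).2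
        exact mem_coe.mpr (mem_filter.mpr ⟨mem_range.mpr v.2, congrArg Fin.val h5⟩)
      · intro a _ b _ h
        exact Fin.ext h

theorem flatMap_block (n m : ℕ) (F : ℕ → ℕ → Bool) :
    (List.range n).flatMap (fun u => (List.range m).map (F u)) =
      (List.range (n * m)).map (fun p => F (p / m) (p % m)) := by
  rcases Nat.eq_zero_or_pos m with rfl | hm
  · simp
  induction n with
  | zero => simp
  | succ n ih =>
    rw [List.range_succ, List.flatMap_append, ih, Nat.add_mul, Nat.one_mul, List.range_add,
      List.map_append, List.map_map]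
    congr 1
    simp only [List.flatMap_cons, List.flatMap_nil, List.append_nil]
    refine List.map_congr_left (fun v hv => ?_)
    have hv : v < m := List.mem_range.mp hv
    simp only [Function.comp]
    rw [Nat.add_comm (n * m) v, Nat.add_mul_div_right _ _ hm, Nat.div_eq_of_lt hv, Nat.zero_add,
      Nat.add_mul_mod_self_right, Nat.mod_eq_of_lt hv]

theorem finRange_block (n : ℕ) (F : ℕ → List Bool) :
    (List.finRange n).flatMap (fun v : Fin n => F v) = (List.range n).flatMap F := by
  rw [← List.map_coe_finRange_eq_range, List.flatMap_map]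

theorem bitw_map (n : ℕ) (F : ℕ → Bool) (l : List Bool) (p : ℕ) (hp : p < n) :
    bitw ((List.range n).map F ++ l) p = 1 ↔ F p = true := by
  rw [bitw_one, List.getElem?_append_left (by simpa using hp)]
  simp [hp]

open Classical in
/-- The body of the code of an instance. -/
noncomputable def body1 (I : Inst) : List Bool :=
  (List.range (I.n * I.n)).map (fun p => decide (adjN I (p / I.n) (p % I.n)))

/-- The body of the code of an instance. -/
def body2 (I : Inst) : List Bool :=
  (List.range (I.c * I.width)).map (fun p =>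
    (if h : p / I.width < I.c then I.b ⟨p / I.width, h⟩ else 0).testBit (p % I.width))

theorem enc_inst (I : Inst) : I.enc = enc [I.n, I.c, I.width] ++ (body1 I ++ body2 I) := by
  classical
  have h1 : (List.finRange I.n).flatMap (fun u => (List.finRange I.n).map
      (fun v => decide (I.G.Adj u v))) = body1 I := by
    have h2 : ∀ u : Fin I.n, (List.finRange I.n).map (fun v => decide (I.G.Adj u v)) =
        (List.range I.n).map (fun v => decide (adjN I u v)) := by
      intro u
      rw [← List.map_coe_finRange_eq_range, List.map_map]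
      refine List.map_congr_left (fun v _ => ?_)
      simp only [Function.comp]
      congr 1
      apply propext
      constructor
      · intro h
        exact ⟨u.2, v.2, h⟩
      · rintro ⟨_, _, h⟩
        exact h
    rw [List.flatMap_congr (fun u _ => h2 u),
      finRange_block I.n (fun u => (List.range I.n).map (fun v => decide (adjN I u v))),
      flatMap_block]
    rfl
  have h3 : (List.finRange I.c).flatMap (fun i => (List.range I.width).map
      (fun j => (I.b i).testBit j)) = body2 I := by
    have h4 : ∀ i : Fin I.c, (List.range I.width).map (fun j => (I.b i).testBit j) =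
        (List.range I.width).map (fun j =>
          (if h : (i : ℕ) < I.c then I.b ⟨i, h⟩ else 0).testBit j) := by
      intro i
      rw [dif_pos i.2]
    rw [List.flatMap_congr (fun i _ => h4 i),
      finRange_block I.c (fun i => (List.range I.width).map (fun j =>
          (if h : (i : ℕ) < I.c then I.b ⟨i, h⟩ else 0).testBit j)),
      flatMap_block]
    rfl
  unfold Inst.enc
  rw [h1, h3]
  simp [enc, unary]

theorem sum_bits (b β : ℕ) : ∑ j ∈ range β, tv (b.testBit j = true) * 2 ^ j = b % 2 ^ β := by
  induction β with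
  | zero => simp [Nat.mod_one]
  | succ β ih =>
    rw [sum_range_succ, ih, Nat.mod_pow_succ]
    congr 1
    rw [Nat.testBit_eq_decide_div_mod_eq]
    rcases Nat.mod_two_eq_zero_or_one (b / 2 ^ β) with h | h
    · rw [h, tv_false (by simp)]
      simp
    · rw [h, tv_true (by simp)]
      ring

theorem sum_cap (N β : ℕ) (a x : ℕ → ℕ) (ha : ∀ j, a j ≤ 1) :
    min (∑ j ∈ range β, a j * min (x j) N) N = min (∑ j ∈ range β, a j * x j) N := by
  induction β with
  | zero => simp
  | succ β ih =>
    rw [sum_range_succ, sum_range_succ]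
    have h := ha β
    have h2 : a β = 0 ∨ a β = 1 := by omega
    rcases h2 with h2 | h2
    · rw [h2, Nat.zero_mul, Nat.zero_mul, Nat.add_zero, Nat.add_zero, ih]
    · rw [h2, Nat.one_mul, Nat.one_mul]
      omega

theorem tv_le (Q : Prop) : tv Q ≤ 1 := by
  by_cases h : Q
  · rw [tv_true h]
  · rw [tv_false h]; omega

/-- Words of the algorithm. -/
def Wd (I : Inst) (w : List Bool) : Prop :=
  ∃ l : List ℕ, w = enc l ++ I.enc ∧ l.length = 4 + 2 * kW w

variable {I : Inst} {w : List Bool}

theorem Wd.form (h : Wd I w) : ∃ l : List ℕ, l.length = 7 + 2 * kW w ∧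
    w = enc l ++ (body1 I ++ body2 I) ∧ l.getD (4 + 2 * kW w) 0 = I.n ∧
    l.getD (5 + 2 * kW w) 0 = I.c ∧ l.getD (6 + 2 * kW w) 0 = I.width := by
  obtain ⟨l, h1, h2⟩ := h
  refine ⟨l ++ [I.n, I.c, I.width], by simp [h2]; omega, ?_, ?_, ?_, ?_⟩
  · rw [enc_append, List.append_assoc, ← enc_inst]
    exact h1
  · rw [← h2, List.getD_append_right _ _ _ _ (by omega)]
    simp
  · have : 5 + 2 * kW w = l.length + 1 := by omega
    rw [this, List.getD_append_right _ _ _ _ (by omega)]
    simp
  · have : 6 + 2 * kW w = l.length + 2 := by omega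
    rw [this, List.getD_append_right _ _ _ _ (by omega)]
    simp

theorem Wd.n (h : Wd I w) : nW w = I.n := by
  obtain ⟨l, h1, h2, h3, h4, h5⟩ := h.form
  unfold nW
  rw [← h3]
  set k := kW w
  rw [h2, num_enc l _ _ (by omega)]

theorem Wd.c (h : Wd I w) : cW w = I.c := by
  obtain ⟨l, h1, h2, h3, h4, h5⟩ := h.form
  unfold cW
  rw [← h4]
  set k := kW w
  rw [h2, num_enc l _ _ (by omega)]

theorem Wd.d (h : Wd I w) : dW w = I.width := by
  obtain ⟨l, h1, h2, h3, h4, h5⟩ := h.form
  unfold dW
  rw [← h5]
  set k := kW w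
  rw [h2, num_enc l _ _ (by omega)]

theorem Wd.bit (h : Wd I w) (p : ℕ) : bitw w (oW w + p) = bitw (body1 I ++ body2 I) p := by
  obtain ⟨l, h1, h2, h3, h4, h5⟩ := h.form
  have h6 : oW w = (enc l).length := by
    unfold oW
    rw [← h1]
    conv_lhs => rw [h2]
    rw [offs_enc]
  rw [h6]
  conv_lhs => rw [h2]
  rw [bitw_append]

theorem Wd.adj (h : Wd I w) : adjW w = adjN I := by
  classical
  funext u v
  apply propext
  unfold adjW
  rw [h.n, h.bit]
  constructor
  · rintro ⟨hu, hv, h1⟩
    have hlt : u * I.n + v < I.n * I.n := by nlinarith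
    unfold body1 at h1
    rw [bitw_map _ _ _ _ hlt, decide_eq_true_eq] at h1
    have h2 : (u * I.n + v) / I.n = u := by
      rw [Nat.add_comm, Nat.add_mul_div_right _ _ (by omega), Nat.div_eq_of_lt hv, Nat.zero_add]
    have h3 : (u * I.n + v) % I.n = v := by
      rw [Nat.add_comm, Nat.add_mul_mod_self_right, Nat.mod_eq_of_lt hv]
    rwa [h2, h3] at h1
  · intro h1
    obtain ⟨hu, hv⟩ := adjN_lt I u v h1
    refine ⟨hu, hv, ?_⟩
    have hlt : u * I.n + v < I.n * I.n := by nlinarith
    unfold body1
    rw [bitw_map _ _ _ _ hlt, decide_eq_true_eq]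
    have h2 : (u * I.n + v) / I.n = u := by
      rw [Nat.add_comm, Nat.add_mul_div_right _ _ (by omega), Nat.div_eq_of_lt hv, Nat.zero_add]
    have h3 : (u * I.n + v) % I.n = v := by
      rw [Nat.add_comm, Nat.add_mul_mod_self_right, Nat.mod_eq_of_lt hv]
    rwa [h2, h3]

theorem length_body1 (I : Inst) : (body1 I).length = I.n * I.n := by
  unfold body1
  simp

theorem size_le_width (I : Inst) (i : Fin I.c) : (I.b i).size ≤ I.width :=
  Finset.le_sup (f := fun i => (I.b i).size) (mem_univ i)

theorem Wd.b (h : Wd I w) : bW w = bN I := by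
  classical
  funext i
  unfold bW bN
  rw [h.c, h.n, h.d]
  by_cases hi : i < I.c
  · rw [tv_true hi, dif_pos hi, Nat.one_mul, sum_cap _ _ _ _ (fun _ => tv_le _)]
    congr 1
    have h1 : ∑ j ∈ range I.width, tv (bitw w (oW w + (I.n * I.n + (i * I.width + j))) = 1) * 2 ^ j =
        ∑ j ∈ range I.width, tv ((I.b ⟨i, hi⟩).testBit j = true) * 2 ^ j := by
      refine sum_congr rfl (fun j hj => ?_)
      have hj := mem_range.mp hj
      congr 2
      apply propext
      rw [h.bit, ← length_body1, bitw_append]
      have hlt : i * I.width + j < I.c * I.width := by nlinarith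
      have h4 := bitw_map (I.c * I.width) (fun p =>
        (if h : p / I.width < I.c then I.b ⟨p / I.width, h⟩ else 0).testBit (p % I.width)) [] _ hlt
      rw [List.append_nil] at h4
      have h2 : (i * I.width + j) / I.width = i := by
        rw [Nat.add_comm, Nat.add_mul_div_right _ _ (by omega), Nat.div_eq_of_lt hj, Nat.zero_add]
      have h3 : (i * I.width + j) % I.width = j := by
        rw [Nat.add_comm, Nat.add_mul_mod_self_right, Nat.mod_eq_of_lt hj]
      refine h4.trans ?_
      simp only [h3]
      have h5 : (if h : (i * I.width + j) / I.width < I.c then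
          I.b ⟨(i * I.width + j) / I.width, h⟩ else 0) = I.b ⟨i, hi⟩ := by
        rw [dif_pos (by rw [h2]; exact hi)]
        congr 1
        exact Fin.ext h2
      rw [h5]
    rw [h1, sum_bits, Nat.mod_eq_of_lt]
    exact Nat.size_le.mp (size_le_width I ⟨i, hi⟩)
  · rw [tv_false hi, dif_neg hi, Nat.zero_mul]

theorem Wd.drop (h : Wd I w) : w.drop (hdW w) = I.enc := by
  obtain ⟨l, h1, h2⟩ := h
  have h3 : hdW w = (enc l).length := by
    unfold hdW
    rw [← h2]
    conv_lhs => rw [h1]
    rw [offs_enc]
  rw [h3]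
  conv_lhs => rw [h1]
  rw [List.drop_left]

end Pool.Agent.Helper68.BCP
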