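import Pool.Agent.Helper68.Fpt.Mach

/-!
Turing machines for loops over word functions.
-/

set_option autoImplicit false

namespace Pool.Agent.Helper68.Una

open SP Calc Finset Turing

/-- If a program transforms the initial stacks to the final stacks then the machine of the program
computes the corresponding output. -/
theorem outputs_of_exec {K : Type} [DecidableEq K] {Γ : K → Type} [Fintype K] (k₀ k₁ : K)
    [Fintype (Γ k₀)] (p : Prog Γ) (l : List (Γ k₀)) (l' : List (Γ k₁)) (n m : ℕ) (hn : n < m)
    (he : Exec p (Function.update (fun _ => []) k₀ l) n (Function.update (fun _ => []) k₁ l')) :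
    Nonempty (TM2OutputsInTime (machine k₀ k₁ p) l (some l') m) := by
  have hs := sim (machine k₀ k₁ p).m he some none (fun l => rfl) false
  obtain ⟨v', hs⟩ := hs
  refine ⟨⟨⟨n + 1, ?_⟩, hn⟩⟩
  have e1 : initList (machine k₀ k₁ p) l =
      (⟨some (some (entry p)), false, Function.update (fun _ => []) k₀ l⟩ :
        TM2.Cfg Γ (Option (Lbl p)) Bool) := by
    unfold initList
    congr 1
    exact dite_update _ Γ k₀ l
  have e2 : haltList (machine k₀ k₁ p) l' =
      (⟨none, false, Function.update (fun _ => []) k₁ l'⟩ :
        TM2.Cfg Γ (Option (Lbl p)) Bool) := by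
    unfold haltList
    congr 1
    exact dite_update _ Γ k₁ l'
  have hs2 := hs.trans (Steps.one (m := (machine k₀ k₁ p).m) (l := (none : Option (Lbl p)))
    (v := v') (S := Function.update (fun _ => []) k₁ l')
    (c' := ⟨none, false, Function.update (fun _ => []) k₁ l'⟩) (by
      simp [machine, TM2.stepAux]))
  unfold Steps at hs2
  change (flip bind (TM2.step (machine k₀ k₁ p).m))^[n + 1]
    (some (initList (machine k₀ k₁ p) l)) = some (haltList (machine k₀ k₁ p) l')
  rw [e1, e2]
  exact hs2

/-- Output of the final bit. -/
def outP : P := .seq clearP (.ite (some .e) isT (.seq dropP (.push (some .a) true))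
  (.seq dropP (.push (some .a) false)))

/-- Machines for loops over word functions. -/
theorem machine_while {T0 T : List Bool → List Bool} (h0 : PW T0) (hT : PW T)
    {h out : List Bool → ℕ} (hh : PU h) (hout : PU out) :
    ∃ (tm : FinTM2) (ein : tm.Γ tm.k₀ ≃ Bool) (eout : tm.Γ tm.k₁ ≃ Bool) (d : ℕ),
      (∀ i, Finite (tm.Γ i)) ∧ ∀ (w : List Bool) (N : ℕ),
        (∀ i < N, h (T^[i] (T0 w)) ≠ 0) → h (T^[N] (T0 w)) = 0 →
        Nonempty (TM2OutputsInTime tm (w.map ein.symm)
          (some ([decide (out (T^[N] (T0 w)) ≠ 0)].map eout.symm))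
          ((w.length + 2) ^ d + (∑ i ∈ range (N + 1), ((T^[i] (T0 w)).length + 2) ^ d + 1))) := by
  classical
  obtain ⟨q0, t0, ht0, hq0⟩ := exec_word h0
  obtain ⟨q, t, ht, hq⟩ := exec_while hT hh
  have hbo := hout.bound
  obtain ⟨p, t', ht', hp⟩ := hout
  let prog : P := .seq q0 (.seq q (.seq p outP))
  have hc1 : PolyB (fun w => t w + (t' w + (2 * mu w + 1 + (2 * out w + 6)))) :=
    ht.add (ht'.add ((((PolyB.const 2).mul PolyB.size).add (PolyB.const 1)).add
      (((PolyB.const 2).mul hbo).add (PolyB.const 6))))
  obtain ⟨d0, hd0⟩ := ht0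
  obtain ⟨d1, hd1⟩ := hc1
  refine ⟨machine (some B6.inp) (some B6.a) prog, Equiv.refl _, Equiv.refl _, max d0 d1, ?_, ?_⟩
  · intro i
    change Finite (Γ i)
    rcases i with _ | i
    · exact (inferInstance : Finite Computability.Γ')
    · exact (inferInstance : Finite Bool)
  · intro w N hN h0
    have e1 := hq0 w
    have e2 := hq (T0 w) N hN h0
    have e3 := hp (T^[N] (T0 w)) [] [] []
    set W := T^[N] (T0 w) with hW
    have e4 := exec_clear [] (enc [out W]) [] [] [] [] W
    have e5 : ExecLe (.ite (some .e) isT (.seq dropP (.push (some .a) true))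
        (.seq dropP (.push (some .a) false))) (st [] [] (enc [out W]) [] [] [] [])
        (2 * out W + 4) (st [] [] [] [] [decide (out W ≠ 0)] [] []) := by
      have f1 := does_drop (w := []) (n := out W) (s := []) (o := []) []
      rcases Nat.eq_zero_or_pos (out W) with hz | hz
      · have f2 := f1.seq (ExecLe.push (some .a) false (st [] [] (enc []) [] [] [] []))
        rw [upd_a, st_a] at f2
        have f3 := ExecLe.ite_false (k := some .e) (t := isT)
          (p := .seq dropP (.push (some .a) true)) (by rw [hz]; rfl) f2
        rw [hz] at f3 ⊢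
        exact f3.mono (by omega)
      · have f2 := f1.seq (ExecLe.push (some .a) true (st [] [] (enc []) [] [] [] []))
        rw [upd_a, st_a] at f2
        have f3 := ExecLe.ite_true (k := some .e) (t := isT)
          (q := .seq dropP (.push (some .a) false)) (by
            obtain ⟨k, hk⟩ : ∃ k, out W = k + 1 := ⟨out W - 1, by omega⟩
            rw [hk]; rfl) f2
        have hd : decide (out W ≠ 0) = true := by
          rw [decide_eq_true_eq]; omega
        rw [hd]
        exact f3.mono (by omega)
    have e6 := e1.seq (e2.seq (e3.seq (e4.seq e5)))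
    obtain ⟨n, hn, hx⟩ := e6
    refine outputs_of_exec (K := Option B6) (Γ := Γ) (some B6.inp) (some B6.a) prog _ _ n _ ?_ ?_
    · refine lt_of_le_of_lt hn ?_
      have g0 : t0 w ≤ (w.length + 2) ^ max d0 d1 := by
        refine (hd0 w).trans ?_
        rw [mu_list]
        exact Nat.pow_le_pow_right (by omega) (le_max_left _ _)
      have g1 : ∀ v : List Bool, t v + (t' v + (2 * mu v + 1 + (2 * out v + 6))) ≤
          (v.length + 2) ^ max d0 d1 := by
        intro v
        refine (hd1 v).trans ?_
        rw [mu_list]
        exact Nat.pow_le_pow_right (by omega) (le_max_right _ _)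
      have g2 : ∑ i ∈ range (N + 1), ((T^[i] (T0 w)).length + 2) ^ max d0 d1 ≥
          ∑ i ∈ range (N + 1), t (T^[i] (T0 w)) + (t' W + (2 * mu W + 1 + (2 * out W + 6))) := by
        have k1 : ∑ i ∈ range N, t (T^[i] (T0 w)) + (t W + (t' W + (2 * mu W + 1 +
            (2 * out W + 6)))) ≤ ∑ i ∈ range (N + 1), ((T^[i] (T0 w)).length + 2) ^ max d0 d1 := by
          rw [Finset.sum_range_succ]
          refine Nat.add_le_add (Finset.sum_le_sum (fun i _ => ?_)) (g1 W)
          exact le_trans (Nat.le_add_right _ _) (g1 _)
        have k3 : ∑ i ∈ range (N + 1), t (T^[i] (T0 w)) = ∑ i ∈ range N, t (T^[i] (T0 w)) + t W := by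
          rw [Finset.sum_range_succ]
        omega
      have g3 : W.length ≤ mu W := by rw [mu_list]; omega
      omega
    · have a1 : (Function.update (fun _ => []) (some B6.inp) (w.map (Equiv.refl Bool).symm) : St) =
          st w [] [] [] [] [] [] := by
        have : w.map (Equiv.refl Bool).symm = w := by simp
        rw [this]
        funext k; rcases k with _ | k
        · rfl
        · cases k <;> rfl
      have a2 : (Function.update (fun _ => []) (some B6.a)
          ([decide (out W ≠ 0)].map (Equiv.refl Bool).symm) : St) =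
          st [] [] [] [] [decide (out W ≠ 0)] [] [] := by
        have : [decide (out W ≠ 0)].map (Equiv.refl Bool).symm = [decide (out W ≠ 0)] := by simp
        rw [this]
        funext k; rcases k with _ | k
        · rfl
        · cases k <;> rfl
      refine cast ?_ hx
      congr 1
      · exact a1.symm
      · exact a2.symm

end Pool.Agent.Helper68.Una
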