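import Pool.Agent.Helper68.Fpt.Read

/-!
Invariants of the algorithm.
-/

set_option autoImplicit false

namespace Pool.Agent.Helper68.BCP

open Finset Una SP Calc

/-- A loop whose potential increases ends. -/
theorem loop_ends {X : Type} (T : X → X) (Inv halt : X → Prop) (Ψ : X → ℕ) (B : ℕ)
    (hstep : ∀ x, Inv x → ¬ halt x → Inv (T x) ∧ (halt (T x) ∨ Ψ x < Ψ (T x)))
    (hB : ∀ x, Inv x → ¬ halt x → Ψ x ≤ B) (x0 : X) (h0 : Inv x0) :
    ∃ N ≤ B + 1, (∀ i < N, ¬ halt (T^[i] x0)) ∧ halt (T^[N] x0) ∧ ∀ i ≤ N, Inv (T^[i] x0) := by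
  have key : ∀ k x, Inv x → ¬ halt x → B - Ψ x ≤ k → ∃ N ≤ k + 1, (∀ i < N, ¬ halt (T^[i] x)) ∧
      halt (T^[N] x) ∧ ∀ i ≤ N, Inv (T^[i] x) := by
    intro k
    induction k with
    | zero =>
      intro x hx hnx hk
      obtain ⟨h1, h2⟩ := hstep x hx hnx
      have h3 : halt (T x) := by
        by_contra h4
        have h5 := h2.resolve_left h4
        have h6 := hB x hx hnx
        have h7 := hB (T x) h1 h4
        omega
      refine ⟨1, le_rfl, ?_, h3, ?_⟩
      · intro i hi
        have : i = 0 := by omega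
        subst this
        exact hnx
      · intro i hi
        rcases Nat.le_one_iff_eq_zero_or_eq_one.mp hi with rfl | rfl
        · exact hx
        · exact h1
    | succ k ih =>
      intro x hx hnx hk
      obtain ⟨h1, h2⟩ := hstep x hx hnx
      by_cases h3 : halt (T x)
      · refine ⟨1, by omega, ?_, h3, ?_⟩
        · intro i hi
          have : i = 0 := by omega
          subst this
          exact hnx
        · intro i hi
          rcases Nat.le_one_iff_eq_zero_or_eq_one.mp hi with rfl | rfl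
          · exact hx
          · exact h1
      · have h5 := h2.resolve_left h3
        have h7 := hB (T x) h1 h3
        obtain ⟨N, hN, a1, a2, a3⟩ := ih (T x) h1 h3 (by omega)
        refine ⟨N + 1, by omega, ?_, a2, ?_⟩
        · intro i hi
          rcases i with _ | i
          · exact hnx
          · exact a1 i (by omega)
        · intro i hi
          rcases i with _ | i
          · exact hx
          · exact a3 i (by omega)
  by_cases h : halt x0
  · exact ⟨0, by omega, fun i hi => by omega, h, fun i hi => by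
      have : i = 0 := by omega
      subst this
      exact h0⟩
  · obtain ⟨N, hN, a1, a2, a3⟩ := key (B - Ψ x0) x0 h0 h le_rfl
    exact ⟨N, by omega, a1, a2, a3⟩

/-- The number with given digits. -/
def cod (d : ℕ) : ℕ → (ℕ → ℕ) → ℕ
  | 0, _ => 0
  | c + 1, a => a 0 + d * cod d c (fun e => a (e + 1))

theorem cod_lt (d c : ℕ) : ∀ (a : ℕ → ℕ), (∀ e < c, a e < d) → cod d c a < d ^ c := by
  induction c with
  | zero => intro a _; simp [cod]
  | succ c ih =>
    intro a ha
    have h1 := ih (fun e => a (e + 1)) (fun e he => ha (e + 1) (by omega))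
    have h2 := ha 0 (by omega)
    rw [cod, pow_succ, Nat.mul_comm (d ^ c) d]
    have h3 : d * (cod d c (fun e => a (e + 1)) + 1) ≤ d * d ^ c := Nat.mul_le_mul_left d h1
    rw [Nat.mul_add, Nat.mul_one] at h3
    omega

theorem dig_cod (d c : ℕ) : ∀ (a : ℕ → ℕ), (∀ e < c, a e < d) → ∀ e < c,
    cod d c a / d ^ e % d = a e := by
  induction c with
  | zero => intro a _ e he; omega
  | succ c ih =>
    intro a ha e he
    have h0 := ha 0 (by omega)
    rcases e with _ | e
    · rw [pow_zero, Nat.div_one, cod, Nat.add_mul_mod_self_left, Nat.mod_eq_of_lt h0]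
    · have h1 := ih (fun e => a (e + 1)) (fun e he => ha (e + 1) (by omega)) e (by omega)
      rw [← h1, cod, pow_succ, Nat.mul_comm (d ^ e) d, ← Nat.div_div_eq_div_mul,
        Nat.add_mul_div_left _ _ (by omega), Nat.div_eq_of_lt h0, Nat.zero_add]

/-- Every partition and order type is coded by a guess. -/
theorem exists_guess (K : ℕ) (cl t : ℕ → ℕ) (hcl : ∀ i < K, cl i < K) (ht : ∀ i < K, t i ≤ K * K) :
    ∃ g < 2 ^ (4 * (K * K)), ∀ i < K, clG K (2 ^ (4 * (K * K))) g i = cl i ∧
      tG K (2 ^ (4 * (K * K))) g i = t i := by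
  have hdig : ∀ i < K, cl i * (K * K + 1) + t i < 2 ^ (4 * K) := by
    intro i hi
    have h1 := hcl i hi
    have h2 := ht i hi
    have h3 : K < 2 ^ K := Nat.lt_two_pow_self
    have h4 : 2 ^ (4 * K) = 2 ^ K * 2 ^ K * (2 ^ K * 2 ^ K) := by
      rw [← pow_add, ← pow_add]
      congr 1
      omega
    have h5 : cl i * (K * K + 1) + t i < K * (K * K + 1) := by nlinarith
    have h6 : K * (K * K + 1) ≤ 2 ^ K * 2 ^ K * (2 ^ K * 2 ^ K) := by
      have h7 : K * K + 1 ≤ 2 ^ K * 2 ^ K := by nlinarith
      have h8 : K ≤ 2 ^ K * 2 ^ K := by nlinarith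
      exact Nat.mul_le_mul h8 h7
    rw [h4]
    omega
  refine ⟨cod (2 ^ (4 * K)) K (fun i => cl i * (K * K + 1) + t i), ?_, ?_⟩
  · have := cod_lt (2 ^ (4 * K)) K _ hdig
    rwa [← pow_mul, Nat.mul_assoc] at this
  · intro i hi
    have h1 : dig K (2 ^ (4 * (K * K)))
        (cod (2 ^ (4 * K)) K (fun i => cl i * (K * K + 1) + t i)) i =
        cl i * (K * K + 1) + t i := by
      unfold dig
      have e1 : 4 * K * i ≤ 4 * (K * K) := by nlinarith
      have e2 : 4 * K ≤ 4 * (K * K) := by nlinarith
      rw [min_eq_left (Nat.pow_le_pow_right (by omega) e1),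
        min_eq_left (Nat.pow_le_pow_right (by omega) e2), pow_mul 2 (4 * K) i]
      exact dig_cod (2 ^ (4 * K)) K _ hdig i hi
    unfold clG tG
    rw [h1]
    have h2 := ht i hi
    constructor
    · rw [Nat.add_comm, Nat.add_mul_div_right _ _ (by omega), Nat.div_eq_of_lt (by omega),
        Nat.zero_add]
    · rw [Nat.add_comm, Nat.add_mul_mod_self_right, Nat.mod_eq_of_lt (by omega)]

section congr

variable {n c : ℕ} {adj : ℕ → ℕ → Prop} {b : ℕ → ℕ} {K : ℕ} {Sv : ℕ → ℕ} {cl cl' t t' : ℕ → ℕ}

theorem Valid_congr (h : ∀ i < K, cl i = cl' i) (hv : Valid adj K Sv cl) : Valid adj K Sv cl' := by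
  refine ⟨fun i hi => by rw [← h i hi]; exact hv.1 i hi, fun i hi j hj hij => ?_⟩
  rw [← h i hi, ← h j hj] at hij
  exact hv.2 i hi j hj hij

theorem GSol_congr (h : ∀ i < K, cl i = cl' i) (ht : ∀ i < K, t i = t' i) {x : ℕ → ℕ}
    (hx : GSol n c adj b K Sv cl t x) : GSol n c adj b K Sv cl' t' x := by
  have e1 : AA K cl = AA K cl' := by
    ext s
    rw [mem_AA, mem_AA]
    constructor
    · rintro ⟨h1, i, h2, h3⟩
      exact ⟨h1, i, h2, by rw [← h i h2]; exact h3⟩
    · rintro ⟨h1, i, h2, h3⟩
      exact ⟨h1, i, h2, by rw [h i h2]; exact h3⟩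
  have e2 : sig K cl = sig K cl' := by
    funext s
    unfold sig
    congr 1
    refine filter_congr (fun i hi => ?_)
    rw [h i (mem_range.mp hi)]
  have e3 : NB adj K Sv cl = NB adj K Sv cl' := by
    funext s v
    apply propext
    unfold NB
    constructor
    · rintro ⟨i, h1, h2, h3⟩
      exact ⟨i, h1, by rw [← h i h1]; exact h2, h3⟩
    · rintro ⟨i, h1, h2, h3⟩
      exact ⟨i, h1, by rw [h i h1]; exact h2, h3⟩
  unfold GSol at *
  rw [← e1, ← e2, ← e3]
  have hA : ∀ s ∈ AA K cl, t s = t' s := fun s hs => ht s (lt_of_mem_AA hs)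
  obtain ⟨h1, h2, h3⟩ := hx
  refine ⟨fun s hs => ?_, fun s hs s' hs' => ?_, h3⟩
  · have h4 := h1 s hs
    have h5 : (AA K cl).filter (fun s' => t' s' = t' s) =
        (AA K cl).filter (fun s' => t s' = t s) := by
      refine filter_congr (fun s' hs' => ?_)
      rw [hA s hs, hA s' hs']
    rw [h5]
    exact h4
  · rw [← hA s hs, ← hA s' hs']
    exact h2 s hs s' hs'

end congr

/-- There is no solution for the guess `g`. -/
def NoSol (I : Inst) (K P : ℕ) (S : ℕ → ℕ) (g : ℕ) : Prop :=
  Valid (adjN I) K S (clG K P g) →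
    ∀ x, ¬ GSol I.n I.c (adjN I) (bN I) K S (clG K P g) (tG K P g) x

/-- If there is no solution for any guess then the answer is no. -/
theorem no_of_noSol (I : Inst) (K : ℕ) (S : ℕ → ℕ) (hinj : ∀ i < K, ∀ j < K, S i = S j → i = j)
    (hSn : ∀ i < K, S i < I.n) (hclu : Clu I.n (adjN I) K S)
    (h : ∀ g < 2 ^ (4 * (K * K)), NoSol I K (2 ^ (4 * (K * K))) S g) : ¬ I.Yes := by
  intro hy
  rw [yes_iff] at hy
  obtain ⟨cl, t, h1, h2, x, h3⟩ := sol_of_yes hinj hSn (adjN_symm I) (adjN_lt I) hclu hy
  obtain ⟨g, hg, h4⟩ := exists_guess K cl t h1.1 (fun i _ => h2 i)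
  exact h g hg (Valid_congr (fun i hi => ((h4 i hi).1).symm) h1) x
    (GSol_congr (fun i hi => ((h4 i hi).1).symm) (fun i hi => ((h4 i hi).2).symm) h3)

variable {I : Inst} {w : List Bool}

theorem step_form (h : Wd I w) :
    stepW w = enc ((List.range (4 + 2 * nK w)).map (nR w)) ++ I.enc := by
  unfold stepW
  rw [h.drop]

theorem step_num (h : Wd I w) (j : ℕ) (hj : j < 4 + 2 * nK w) : num (stepW w) j = nR w j := by
  rw [step_form h, num_enc _ _ _ (by simpa using hj)]
  simp [hj]

theorem step_ph (h : Wd I w) : phW (stepW w) = nPh w := by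
  unfold phW
  rw [step_num h 0 (by omega)]
  rfl

theorem step_k (h : Wd I w) : kW (stepW w) = nK w := by
  unfold kW
  rw [step_num h 1 (by omega)]
  rfl

theorem step_p (h : Wd I w) : pW (stepW w) = nP w := by
  unfold pW
  rw [step_num h 2 (by omega)]
  rfl

theorem step_g (h : Wd I w) : gW (stepW w) = nG w := by
  unfold gW
  rw [step_num h 3 (by omega)]
  rfl

theorem step_S (h : Wd I w) (i : ℕ) : SvW (stepW w) i = if i < nK w then nS w i else 0 := by
  unfold SvW
  rw [step_k h]
  split_ifs with hi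
  · rw [step_num h _ (by omega)]
    unfold nR
    rw [if_neg (by omega), if_neg (by omega), if_neg (by omega), if_neg (by omega),
      if_pos (by omega)]
    congr 1
    omega
  · rfl

theorem step_L (h : Wd I w) (i : ℕ) : LvW (stepW w) i = if i < nK w then nL w i else 0 := by
  unfold LvW
  rw [step_k h]
  split_ifs with hi
  · rw [step_num h _ (by omega)]
    unfold nR
    rw [if_neg (by omega), if_neg (by omega), if_neg (by omega), if_neg (by omega),
      if_neg (by omega)]
    congr 1
    omega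
  · rfl

theorem step_Wd (h : Wd I w) : Wd I (stepW w) := by
  refine ⟨_, step_form h, ?_⟩
  rw [step_k h]
  simp

/-- The modulator consists of triples that are induced paths. -/
def Trip (I : Inst) (K : ℕ) (S : ℕ → ℕ) : Prop :=
  (∀ i < K, S i < I.n) ∧ (∀ i < K, ∀ j < K, S i = S j → i = j) ∧
    ∃ j, K = 3 * j ∧ ∀ t < j, adjN I (S (3 * t)) (S (3 * t + 1)) ∧
      adjN I (S (3 * t + 1)) (S (3 * t + 2)) ∧ S (3 * t) ≠ S (3 * t + 2) ∧
      ¬ adjN I (S (3 * t)) (S (3 * t + 2))

theorem cvd_spec {n : ℕ} (G : SimpleGraph (Fin n)) :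
    ∃ S : Finset (Fin n), S.card = cvd G ∧ IsCluster (G.induce {v | v ∉ S}) := by
  have h : cvd G ∈ {k | ∃ S : Finset (Fin n), S.card = k ∧ IsCluster (G.induce {v | v ∉ S})} := by
    refine Nat.sInf_mem ⟨n, univ, by simp, ?_⟩
    rintro ⟨u, hu⟩ _ _ _
    exact absurd (mem_univ u) hu
  exact h

theorem Trip.le_cvd {K : ℕ} {S : ℕ → ℕ} (h : Trip I K S) : K ≤ 3 * cvd I.G := by
  classical
  obtain ⟨h1, h2, j, hj, h3⟩ := h
  obtain ⟨M, hM1, hM2⟩ := cvd_spec I.G
  have key : ∀ t < j, ∃ i, i / 3 = t ∧ ∃ h : S i < I.n, (⟨S i, h⟩ : Fin I.n) ∈ M := by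
    intro t ht
    obtain ⟨⟨a1, a2, a3⟩, ⟨b1, b2, b3⟩, hne, hnot⟩ := h3 t ht
    by_contra hcon
    push Not at hcon
    have c1 := hcon (3 * t) (by omega) a1
    have c2 := hcon (3 * t + 1) (by omega) a2
    have c3 := hcon (3 * t + 2) (by omega) b2
    have hadj1 : (I.G.induce {v | v ∉ M}).Adj ⟨⟨S (3 * t), a1⟩, c1⟩ ⟨⟨S (3 * t + 1), a2⟩, c2⟩ := a3
    have hadj2 : (I.G.induce {v | v ∉ M}).Adj ⟨⟨S (3 * t + 1), a2⟩, c2⟩
      ⟨⟨S (3 * t + 2), b2⟩, c3⟩ := b3
    have hreach := hadj1.reachable.trans hadj2.reachable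
    have h5 := hM2 _ _ hreach (fun h => hne (by
      have := congrArg (fun x => ((x : {v | v ∉ M}) : Fin I.n).val) h
      exact this))
    exact hnot ⟨a1, b2, h5⟩
  choose! f hf1 hf2 hf3 using key
  have hle : (range j).card ≤ (M.image (fun v : Fin I.n => (v : ℕ))).card := by
    refine card_le_card_of_injOn (fun t => S (f t)) ?_ ?_
    · intro t ht
      have ht := mem_range.mp (mem_coe.mp ht)
      exact mem_coe.mpr (mem_image.mpr ⟨_, hf3 t ht, rfl⟩)
    · intro t ht t' ht' heq
      have ht := mem_range.mp (mem_coe.mp ht)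
      have ht' := mem_range.mp (mem_coe.mp ht')
      have e1 := hf1 t ht
      have e2 := hf1 t' ht'
      have e3 := h2 (f t) (by omega) (f t') (by omega) heq
      omega
  rw [card_range] at hle
  have := card_image_le (s := M) (f := fun v : Fin I.n => (v : ℕ))
  omega

/-- The common part of the invariants. -/
structure Base (I : Inst) (w : List Bool) : Prop where
  wd : Wd I w
  p : pW w = 2 ^ (4 * (kW w * kW w))
  ph : phW w ≤ 3
  g : gW w < pW w
  L : ∀ i, LvW w i ≤ I.n
  trip : Trip I (kW w) (SvW w)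

/-- The invariant of the first phase. -/
def Inv0 (I : Inst) (w : List Bool) : Prop := Base I w ∧ phW w = 0

/-- The invariant of the second phase. -/
structure Inv1 (I : Inst) (w : List Bool) : Prop where
  base : Base I w
  ph : phW w = 1
  clu : Clu I.n (adjN I) (kW w) (SvW w)
  old : ∀ g < gW w, NoSol I (kW w) (pW w) (SvW w) g
  cur : ∀ x, GSol I.n I.c (adjN I) (bN I) (kW w) (SvW w) (clW w) (tW w) x →
    ∀ s < kW w, Act (kW w) (clW w) s → LvW w s ≤ x s

/-- The invariant of the halting states. -/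
def Inv2 (I : Inst) (w : List Bool) : Prop :=
  Base I w ∧ ((phW w = 2 ∧ I.Yes) ∨ (phW w = 3 ∧ ¬ I.Yes))

theorem two_pow_le (K : ℕ) : 2 ^ K ≤ 2 ^ (4 * (K * K)) := by
  refine Nat.pow_le_pow_right (by omega) ?_
  rcases Nat.eq_zero_or_pos K with rfl | h
  · simp
  · nlinarith

theorem P3_found (h : Wd I w) (hf : found w) :
    P3 (adjN I) (kW w) (SvW w) (qW w / (nW w * nW w)) (qW w / nW w % nW w) (qW w % nW w) := by
  unfold found qW at hf
  rw [lst_iff] at hf
  have := (lst_spec hf).1
  rw [h.adj] at this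
  unfold qW
  rw [h.adj]
  exact this

theorem clu_of_not_found (h : Wd I w) (hf : ¬ found w) : Clu I.n (adjN I) (kW w) (SvW w) := by
  intro u hu huS v hv hvS x hx hxS huv hvx hux
  by_contra hnot
  apply hf
  unfold found qW
  rw [lst_iff, h.n, h.adj]
  have h1 : (u * I.n + v) * I.n + x < I.n * I.n * I.n := by
    have h2 : u * I.n + v < I.n * I.n := by nlinarith
    nlinarith
  refine ⟨_, h1, ?_⟩
  have e1 : ((u * I.n + v) * I.n + x) / I.n = u * I.n + v := by
    rw [Nat.add_comm, Nat.add_mul_div_right _ _ (by omega), Nat.div_eq_of_lt hx, Nat.zero_add]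
  have e2 : ((u * I.n + v) * I.n + x) % I.n = x := by
    rw [Nat.add_comm, Nat.add_mul_mod_self_right, Nat.mod_eq_of_lt hx]
  have e3 : (u * I.n + v) / I.n = u := by
    rw [Nat.add_comm, Nat.add_mul_div_right _ _ (by omega), Nat.div_eq_of_lt hv, Nat.zero_add]
  have e4 : (u * I.n + v) % I.n = v := by
    rw [Nat.add_comm, Nat.add_mul_mod_self_right, Nat.mod_eq_of_lt hv]
  rw [← Nat.div_div_eq_div_mul, e1, e2, e3, e4]
  exact ⟨huS, hvS, hxS, huv, hvx, hux, hnot⟩

theorem nK_found (h0 : phW w = 0) (hf : found w) : nK w = kW w + 3 := by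
  classical
  unfold nK
  rw [if_pos ⟨h0, hf⟩]

theorem nK_same (h : ¬ (phW w = 0 ∧ found w)) : nK w = kW w := by
  classical
  unfold nK
  rw [if_neg h]

theorem nP_same (h : ¬ (phW w = 0 ∧ found w)) : nP w = pW w := by
  classical
  unfold nP
  rw [if_neg h]

theorem step_S_same (hw : Wd I w) (h : ¬ (phW w = 0 ∧ found w)) : SvW (stepW w) = SvW w := by
  funext i
  rw [step_S hw, nK_same h]
  split_ifs with hi
  · unfold nS
    rw [if_pos hi]
  · unfold SvW
    rw [if_neg hi]

theorem step0_found (h : Inv0 I w) (hf : found w) : Inv0 I (stepW w) ∧ kW (stepW w) = kW w + 3 := by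
  classical
  obtain ⟨hb, h0⟩ := h
  have hw := hb.wd
  have hK := nK_found h0 hf
  obtain ⟨q1, q2, q3, q4, q5, q6, q7⟩ := P3_found hw hf
  have hS1 : ∀ i < kW w, SvW (stepW w) i = SvW w i := by
    intro i hi
    rw [step_S hw, if_pos (by omega)]
    unfold nS
    rw [if_pos hi]
  have hS2 : SvW (stepW w) (kW w) = qW w / (nW w * nW w) := by
    rw [step_S hw, if_pos (by omega)]
    unfold nS
    rw [if_neg (by omega), if_pos rfl]
  have hS3 : SvW (stepW w) (kW w + 1) = qW w / nW w % nW w := by
    rw [step_S hw, if_pos (by omega)]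
    unfold nS
    rw [if_neg (by omega), if_neg (by omega), if_pos rfl]
  have hS4 : SvW (stepW w) (kW w + 2) = qW w % nW w := by
    rw [step_S hw, if_pos (by omega)]
    unfold nS
    rw [if_neg (by omega), if_neg (by omega), if_neg (by omega)]
  have hP : nP w = 2 ^ (4 * (nK w * nK w)) := by
    unfold nP
    rw [if_pos ⟨h0, hf⟩, hb.p, min_eq_left]
    rw [← pow_mul, ← pow_add]
    refine Nat.pow_le_pow_right (by omega) ?_
    rw [hK]
    rcases Nat.eq_zero_or_pos (kW w) with h1 | h1
    · rw [h1]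
    · nlinarith
  have hPh : nPh w = 0 := by
    unfold nPh
    rw [if_pos h0, if_pos hf]
  have hG : nG w = 0 := by
    unfold nG
    rw [if_pos h0]
  obtain ⟨t1, t2, j, t3, t4⟩ := hb.trip
  have hnotS : ∀ v, ¬ InS (kW w) (SvW w) v → ∀ i < kW w, SvW w i ≠ v :=
    fun v hv i hi h => hv ⟨i, hi, h⟩
  refine ⟨⟨⟨step_Wd hw, ?_, ?_, ?_, ?_, ?_⟩, ?_⟩, ?_⟩
  · rw [step_p hw, step_k hw, hP]
  · rw [step_ph hw, hPh]; omega
  · rw [step_g hw, step_p hw, hG, hP]
    exact Nat.pow_pos (by omega)
  · intro i
    rw [step_L hw]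
    split_ifs
    · unfold nL
      rw [if_pos h0]
      exact Nat.zero_le _
    · exact Nat.zero_le _
  · rw [step_k hw, hK]
    refine ⟨?_, ?_, j + 1, by omega, ?_⟩
    · intro i hi
      rcases lt_or_ge i (kW w) with h1 | h1
      · rw [hS1 i h1]
        exact t1 i h1
      · have h2 : i = kW w ∨ i = kW w + 1 ∨ i = kW w + 2 := by omega
        rcases h2 with rfl | rfl | rfl
        · rw [hS2]; exact (adjN_lt I _ _ q4).1
        · rw [hS3]; exact (adjN_lt I _ _ q4).2
        · rw [hS4]; exact (adjN_lt I _ _ q5).2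
    · have hne1 : qW w / (nW w * nW w) ≠ qW w / nW w % nW w := by
        intro h
        rw [h] at q4
        exact adjN_irrefl I _ q4
      have hne2 : qW w / nW w % nW w ≠ qW w % nW w := by
        intro h
        rw [h] at q5
        exact adjN_irrefl I _ q5
      have main : ∀ i i', i < i' → i' < kW w + 3 → SvW (stepW w) i ≠ SvW (stepW w) i' := by
        intro i i' hii hi'
        rcases lt_or_ge i' (kW w) with h1 | h1
        · rw [hS1 i (by omega), hS1 i' h1]
          intro h
          have := t2 i (by omega) i' h1 h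
          omega
        · have h2 : i' = kW w ∨ i' = kW w + 1 ∨ i' = kW w + 2 := by omega
          rcases lt_or_ge i (kW w) with h3 | h3
          · rw [hS1 i h3]
            rcases h2 with rfl | rfl | rfl
            · rw [hS2]; exact hnotS _ q1 i h3
            · rw [hS3]; exact hnotS _ q2 i h3
            · rw [hS4]; exact hnotS _ q3 i h3
          · have h4 : (i = kW w ∧ i' = kW w + 1) ∨ (i = kW w ∧ i' = kW w + 2) ∨
              (i = kW w + 1 ∧ i' = kW w + 2) := by omega
            rcases h4 with ⟨rfl, rfl⟩ | ⟨rfl, rfl⟩ | ⟨rfl, rfl⟩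
            · rw [hS2, hS3]; exact hne1
            · rw [hS2, hS4]; exact q6
            · rw [hS3, hS4]; exact hne2
      intro i hi i' hi' h
      rcases lt_trichotomy i i' with h1 | h1 | h1
      · exact absurd h (main i i' h1 hi')
      · exact h1
      · exact absurd h.symm (main i' i h1 hi)
    · intro t ht
      rcases Nat.lt_succ_iff_lt_or_eq.mp ht with h1 | rfl
      · rw [hS1 (3 * t) (by omega), hS1 (3 * t + 1) (by omega), hS1 (3 * t + 2) (by omega)]
        exact t4 t h1
      · rw [← t3, hS2, hS3, hS4]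
        exact ⟨q4, q5, q6, q7⟩
  · rw [step_ph hw, hPh]
  · rw [step_k hw, hK]

theorem step0_last (h : Inv0 I w) (hf : ¬ found w) : Inv1 I (stepW w) ∧ gW (stepW w) = 0 := by
  classical
  obtain ⟨hb, h0⟩ := h
  have hw := hb.wd
  have hnf : ¬ (phW w = 0 ∧ found w) := fun h => hf h.2
  have hK := nK_same hnf
  have hPh : nPh w = 1 := by
    unfold nPh
    rw [if_pos h0, if_neg hf]
  have hG : nG w = 0 := by
    unfold nG
    rw [if_pos h0]
  have hL : ∀ i, LvW (stepW w) i = 0 := by
    intro i
    rw [step_L hw]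
    split_ifs
    · unfold nL
      rw [if_pos h0]
    · rfl
  have hSs := step_S_same hw hnf
  refine ⟨⟨⟨step_Wd hw, ?_, ?_, ?_, ?_, ?_⟩, ?_, ?_, ?_, ?_⟩, ?_⟩
  · rw [step_p hw, step_k hw, nP_same hnf, hK, hb.p]
  · rw [step_ph hw, hPh]; omega
  · rw [step_g hw, step_p hw, hG, nP_same hnf, hb.p]
    exact Nat.pow_pos (by omega)
  · intro i
    rw [hL]
    exact Nat.zero_le _
  · rw [step_k hw, hK, hSs]
    exact hb.trip
  · rw [step_ph hw, hPh]
  · rw [step_k hw, hK, hSs]
    exact clu_of_not_found hw hf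
  · intro g hg
    rw [step_g hw, hG] at hg
    omega
  · intro x _ s _ _
    rw [hL]
    exact Nat.zero_le _
  · rw [step_g hw, hG]

/-- The potential of the second phase. -/
noncomputable def Phi (I : Inst) (w : List Bool) : ℕ :=
  gW w * (kW w * I.n + 1) + ∑ i ∈ range (kW w), LvW w i

theorem phi_lt (h : Base I w) : Phi I w < pW w * (kW w * I.n + 1) := by
  unfold Phi
  have h1 : ∑ i ∈ range (kW w), LvW w i ≤ kW w * I.n := by
    calc ∑ i ∈ range (kW w), LvW w i ≤ ∑ i ∈ range (kW w), I.n := sum_le_sum (fun i _ => h.L i)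
      _ = kW w * I.n := by rw [sum_const, card_range, smul_eq_mul]
  have h2 : (gW w + 1) * (kW w * I.n + 1) ≤ pW w * (kW w * I.n + 1) :=
    Nat.mul_le_mul_right _ h.g
  have h3 : (gW w + 1) * (kW w * I.n + 1) = gW w * (kW w * I.n + 1) + (kW w * I.n + 1) := by ring
  omega

theorem step1 (h : Inv1 I w) :
    (Inv1 I (stepW w) ∧ kW (stepW w) = kW w ∧ Phi I w < Phi I (stepW w)) ∨ Inv2 I (stepW w) := by
  classical
  obtain ⟨hb, h1, hclu, hold, hcur⟩ := h
  have hw := hb.wd
  have hnf : ¬ (phW w = 0 ∧ found w) := fun h => by omega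
  have hK := nK_same hnf
  have hP := nP_same hnf
  have hSs := step_S_same hw hnf
  have hph0 : ¬ phW w = 0 := by omega
  have h2K : 2 ^ kW w ≤ pW w := by rw [hb.p]; exact two_pow_le _
  have hk' : kW (stepW w) = kW w := by rw [step_k hw, hK]
  have hp' : pW (stepW w) = pW w := by rw [step_p hw, hP]
  have hu_spec : uW w < kW w → BumpP I.n I.c (adjN I) (bN I) (kW w) (SvW w) (clW w) (tW w) (pW w)
      (LvW w) (uW w) := by
    intro hu
    have hu' := hu
    unfold uW at hu'
    rw [lst_iff] at hu'
    have := (lst_spec hu').1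
    rw [hw.n, hw.c, hw.adj, hw.b] at this
    unfold uW
    rw [hw.n, hw.c, hw.adj, hw.b]
    exact this
  have hu_none : ¬ uW w < kW w → ∀ u < kW w, ¬ BumpP I.n I.c (adjN I) (bN I) (kW w) (SvW w) (clW w)
      (tW w) (pW w) (LvW w) u := by
    intro hu u hu1 hu2
    apply hu
    unfold uW
    rw [lst_iff, hw.n, hw.c, hw.adj, hw.b]
    exact ⟨u, hu1, hu2⟩
  by_cases hB : isB w
  · -- an entry is increased
    left
    obtain ⟨b1, b2, b3⟩ := hB
    have hB : isB w := ⟨b1, b2, b3⟩
    have hPh : nPh w = 1 := by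
      unfold nPh
      rw [if_neg hph0, if_pos hB]
    have hG : nG w = gW w := by
      unfold nG
      rw [if_neg hph0, if_pos hB]
    have hL : ∀ i, LvW (stepW w) i = if i = uW w then LvW w i + 1 else LvW w i := by
      intro i
      rw [step_L hw, hK]
      split_ifs with c1 c2 c2
      · unfold nL
        rw [if_neg hph0, if_pos hB, if_pos c2]
      · unfold nL
        rw [if_neg hph0, if_pos hB, if_neg c2]
      · omega
      · unfold LvW
        rw [if_neg c1]
    have hg' : gW (stepW w) = gW w := by rw [step_g hw, hG]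
    have hcl : clW (stepW w) = clW w := by unfold clW; rw [hk', hp', hg']
    have ht : tW (stepW w) = tW w := by unfold tW; rw [hk', hp', hg']
    rw [hw.n] at b3
    have hb2 := hu_spec b2
    refine ⟨⟨⟨step_Wd hw, ?_, ?_, ?_, ?_, ?_⟩, ?_, ?_, ?_, ?_⟩, hk', ?_⟩
    · rw [hp', hk', hb.p]
    · rw [step_ph hw, hPh]; omega
    · rw [hg', hp']; exact hb.g
    · intro i
      rw [hL]
      split_ifs with c1
      · rw [c1]; omega
      · exact hb.L i
    · rw [hk', hSs]
      exact hb.trip
    · rw [step_ph hw, hPh]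
    · rw [hk', hSs]
      exact hclu
    · rw [hg', hk', hp', hSs]
      exact hold
    · rw [hk', hSs, hcl, ht]
      intro x hx s hs ha
      rw [hL]
      split_ifs with c1
      · have := bumpP_lt h2K (adjN_symm I) (adjN_lt I) hclu b2 hb2 hx
          (fun s hs ha => hcur x hx s hs ha)
        rw [c1]
        omega
      · exact hcur x hx s hs ha
    · unfold Phi
      rw [hg', hk']
      have : ∑ i ∈ range (kW w), LvW w i < ∑ i ∈ range (kW w), LvW (stepW w) i := by
        refine sum_lt_sum (fun i _ => ?_) ⟨uW w, mem_range.mpr b2, ?_⟩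
        · rw [hL]
          split_ifs <;> omega
        · rw [hL, if_pos rfl]
          omega
      omega
  · by_cases hA : isA w
    · -- accept
      right
      obtain ⟨a1, a2, a3⟩ := hA
      have hA : isA w := ⟨a1, a2, a3⟩
      have hPh : nPh w = 2 := by
        unfold nPh
        rw [if_neg hph0, if_neg hB, if_pos hA]
      have hG : nG w = gW w := by
        unfold nG
        rw [if_neg hph0, if_neg hB, if_pos hA]
      have hL : ∀ i, LvW (stepW w) i = LvW w i := by
        intro i
        rw [step_L hw, hK]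
        split_ifs with c1
        · unfold nL
          rw [if_neg hph0, if_neg hB, if_pos hA]
        · unfold LvW
          rw [if_neg c1]
      have hg' : gW (stepW w) = gW w := by rw [step_g hw, hG]
      refine ⟨⟨step_Wd hw, ?_, ?_, ?_, ?_, ?_⟩, Or.inl ⟨?_, ?_⟩⟩
      · rw [hp', hk', hb.p]
      · rw [step_ph hw, hPh]; omega
      · rw [hg', hp']; exact hb.g
      · intro i
        rw [hL]
        exact hb.L i
      · rw [hk', hSs]
        exact hb.trip
      · rw [step_ph hw, hPh]
      · rw [yes_iff]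
        rw [hw.n, hw.c, hw.adj, hw.b] at a3
        rw [hw.adj] at a1
        have hs := noBump_sol (t := tW w) h2K (adjN_symm I) (adjN_lt I) hclu (hu_none a2) a3
        exact yes_of_sol (adjN_symm I) (adjN_irrefl I) (adjN_lt I) hb.trip.2.1 hclu a1 hs
    · -- no solution for this guess
      have hno : NoSol I (kW w) (pW w) (SvW w) (gW w) := by
        intro hv x hx
        change Valid (adjN I) (kW w) (SvW w) (clW w) at hv
        change GSol I.n I.c (adjN I) (bN I) (kW w) (SvW w) (clW w) (tW w) x at hx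
        by_cases hu : uW w < kW w
        · have hb2 := hu_spec hu
          have h3 := bumpP_lt h2K (adjN_symm I) (adjN_lt I) hclu hu hb2 hx
            (fun s hs ha => hcur x hx s hs ha)
          have h4 := sol_le (fun i _ => bN_le I i) hx hu hb2.1
          apply hB
          refine ⟨by rw [hw.adj]; exact hv, hu, ?_⟩
          rw [hw.n]
          omega
        · refine noBump_noSol h2K (adjN_symm I) (adjN_lt I) hclu (hu_none hu) ?_ x
            (fun s hs ha => hcur x hx s hs ha) hx
          intro hM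
          apply hA
          refine ⟨by rw [hw.adj]; exact hv, hu, ?_⟩
          rw [hw.n, hw.c, hw.adj, hw.b]
          exact hM
      have hall : ∀ g < gW w + 1, NoSol I (kW w) (pW w) (SvW w) g := by
        intro g hg
        rcases Nat.lt_succ_iff_lt_or_eq.mp hg with h3 | rfl
        · exact hold g h3
        · exact hno
      have hL : ∀ i, LvW (stepW w) i = 0 := by
        intro i
        rw [step_L hw]
        split_ifs
        · unfold nL
          rw [if_neg hph0, if_neg hB, if_neg hA]
        · rfl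
      by_cases hN : isN w
      · left
        have hPh : nPh w = 1 := by
          unfold nPh
          rw [if_neg hph0, if_neg hB, if_neg hA, if_pos hN]
        have hG : nG w = gW w + 1 := by
          unfold nG
          rw [if_neg hph0, if_neg hB, if_neg hA, if_pos hN]
        have hg' : gW (stepW w) = gW w + 1 := by rw [step_g hw, hG]
        refine ⟨⟨⟨step_Wd hw, ?_, ?_, ?_, ?_, ?_⟩, ?_, ?_, ?_, ?_⟩, hk', ?_⟩
        · rw [hp', hk', hb.p]
        · rw [step_ph hw, hPh]; omega
        · rw [hg', hp']; exact hN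
        · intro i
          rw [hL]
          exact Nat.zero_le _
        · rw [hk', hSs]
          exact hb.trip
        · rw [step_ph hw, hPh]
        · rw [hk', hSs]
          exact hclu
        · rw [hg', hk', hp', hSs]
          exact hall
        · intro x _ s _ _
          rw [hL]
          exact Nat.zero_le _
        · unfold Phi
          rw [hg', hk']
          have h3 : ∑ i ∈ range (kW w), LvW w i ≤ kW w * I.n := by
            calc ∑ i ∈ range (kW w), LvW w i ≤ ∑ i ∈ range (kW w), I.n :=
                  sum_le_sum (fun i _ => hb.L i)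
              _ = kW w * I.n := by rw [sum_const, card_range, smul_eq_mul]
          have h4 : (gW w + 1) * (kW w * I.n + 1) = gW w * (kW w * I.n + 1) +
            (kW w * I.n + 1) := by ring
          omega
      · right
        have hPh : nPh w = 3 := by
          unfold nPh
          rw [if_neg hph0, if_neg hB, if_neg hA, if_neg hN]
        have hG : nG w = gW w := by
          unfold nG
          rw [if_neg hph0, if_neg hB, if_neg hA, if_neg hN]
        have hg' : gW (stepW w) = gW w := by rw [step_g hw, hG]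
        refine ⟨⟨step_Wd hw, ?_, ?_, ?_, ?_, ?_⟩, Or.inr ⟨?_, ?_⟩⟩
        · rw [hp', hk', hb.p]
        · rw [step_ph hw, hPh]
        · rw [hg', hp']; exact hb.g
        · intro i
          rw [hL]
          exact Nat.zero_le _
        · rw [hk', hSs]
          exact hb.trip
        · rw [step_ph hw, hPh]
        · refine no_of_noSol I (kW w) (SvW w) hb.trip.2.1 hb.trip.1 hclu (fun g hg => ?_)
          rw [← hb.p] at hg ⊢
          refine hall g ?_
          unfold isN at hN
          omega

/-- All invariants. -/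
def Inv (I : Inst) (w : List Bool) : Prop := Inv0 I w ∨ Inv1 I w ∨ Inv2 I w

theorem Inv.base (h : Inv I w) : Base I w := by
  rcases h with h | h | h
  · exact h.1
  · exact h.base
  · exact h.1

/-- The halting test. -/
noncomputable def hlt (w : List Bool) : ℕ := 2 - phW w

/-- The potential. -/
noncomputable def Psi (I : Inst) (w : List Bool) : ℕ :=
  if phW w = 0 then kW w else 3 * cvd I.G + 1 + Phi I w

theorem inv_step (h : Inv I w) (hh : ¬ hlt w = 0) :
    Inv I (stepW w) ∧ (hlt (stepW w) = 0 ∨ Psi I w < Psi I (stepW w)) := by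
  unfold hlt at hh
  rcases h with h | h | h
  · by_cases hf : found w
    · obtain ⟨h1, h2⟩ := step0_found h hf
      refine ⟨Or.inl h1, Or.inr ?_⟩
      unfold Psi
      rw [if_pos h.2, if_pos h1.2]
      omega
    · obtain ⟨h1, h2⟩ := step0_last h hf
      refine ⟨Or.inr (Or.inl h1), Or.inr ?_⟩
      unfold Psi
      rw [if_pos h.2, if_neg (by rw [h1.ph]; omega)]
      have := h.1.trip.le_cvd
      omega
  · rcases step1 h with ⟨h1, h2, h3⟩ | h1
    · refine ⟨Or.inr (Or.inl h1), Or.inr ?_⟩
      unfold Psi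
      rw [if_neg (by rw [h.ph]; omega), if_neg (by rw [h1.ph]; omega)]
      omega
    · refine ⟨Or.inr (Or.inr h1), Or.inl ?_⟩
      unfold hlt
      rcases h1.2 with h2 | h2
      · omega
      · omega
  · exfalso
    rcases h.2 with h2 | h2
    · omega
    · omega

end Pool.Agent.Helper68.BCP
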