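import Pool.Agent.Helper68.Fpt.Run
import Pool.Agent.Helper68.Fpt.Par

/-!
Reading and writing lists of numbers in words.
-/

set_option autoImplicit false

namespace Pool.Agent.Helper68.Una

open SP Calc Finset BCP

variable {α : Type} [Ctx α]

theorem pu_cnt {n : α → ℕ} {Q : α → ℕ → Prop} (hn : PU n)
    (hQ : Una.PP (fun p : α × ℕ => Q p.1 p.2)) : PU (fun a => cnt (n a) (Q a)) := by
  classical
  exact (PU.count hn hQ).congr (fun a => (cnt_eq _ _).symm)

theorem pu_tv {Q : α → Prop} (hQ : Una.PP Q) : PU (fun a => tv (Q a)) := by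
  classical
  refine (PU.ind hQ).congr (fun a => ?_)
  by_cases h : Q a
  · rw [if_pos h, tv_true h]
  · rw [if_neg h, tv_false h]

/-- Bounded search. -/
noncomputable def lst (n : ℕ) (Q : ℕ → Prop) : ℕ := @mu0 n Q (Classical.decPred Q)

theorem pu_lst {n : α → ℕ} {Q : α → ℕ → Prop} (hn : PU n)
    (hQ : Una.PP (fun p : α × ℕ => Q p.1 p.2)) : PU (fun a => lst (n a) (Q a)) :=
  @PU.mu0 α _ n Q (fun a => Classical.decPred (Q a)) hn hQ

theorem lst_spec {n : ℕ} {Q : ℕ → Prop} (h : ∃ i < n, Q i) : Q (lst n Q) ∧ lst n Q < n :=
  @mu0_spec n Q (Classical.decPred Q) h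

theorem mu0_none (n : ℕ) (Q : ℕ → Prop) [DecidablePred Q] (h : ∀ i < n, ¬ Q i) : mu0 n Q = n := by
  unfold mu0
  have : (range n).filter (fun i => ∀ k < i + 1, ¬ Q k) = range n := by
    rw [filter_eq_self]
    intro i hi k hk
    exact h k (by have := mem_range.mp hi; omega)
  rw [this, card_range]

theorem lst_none {n : ℕ} {Q : ℕ → Prop} (h : ∀ i < n, ¬ Q i) : lst n Q = n :=
  @mu0_none n Q (Classical.decPred Q) h

theorem lst_iff {n : ℕ} {Q : ℕ → Prop} : lst n Q < n ↔ ∃ i < n, Q i := by
  constructor
  · intro h
    by_contra h2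
    push Not at h2
    rw [lst_none h2] at h
    omega
  · intro h
    exact (lst_spec h).2

/-- Bounded powers. -/
theorem pu_powcap {e B : α → ℕ} (he : PU e) (hB : PU B) : PU (fun a => min (2 ^ e a) (B a)) := by
  have hmin : ∀ {β : Type} [Ctx β] {f g : β → ℕ}, PU f → PU g → PU (fun a => min (f a) (g a)) := by
    intro β _ f g hf hg
    exact (hf.sub (hf.sub hg)).congr (fun a => by omega)
  have key : ∀ a i, (fun x => min (2 * x) (B a))^[i] (min 1 (B a)) = min (2 ^ i) (B a) := by
    intro a i
    induction i with
    | zero => rfl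
    | succ i ih =>
      rw [Function.iterate_succ_apply', ih, pow_succ]
      omega
  refine (PU.iter (F := fun a x => min (2 * x) (B a)) he (hmin (PU.const 1) hB)
    (hmin ((PU.const 2).mul PU.snd) hB.wk) B hB.bound (fun a i _ => ?_)).congr (fun a => key a _)
  rw [key]
  exact min_le_right _ _

theorem pu_min {f g : α → ℕ} (hf : PU f) (hg : PU g) : PU (fun a => min (f a) (g a)) :=
  (hf.sub (hf.sub hg)).congr (fun a => by omega)

theorem pp_bitP {B r s : α → ℕ} (hB : PU B) (hr : PU r) (hs : PU s) :
    Una.PP (fun a => bitP (B a) (r a) (s a)) :=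
  PP.eq ((hr.div (pu_powcap hs hB)).mod (PU.const 2)) (PU.const 1)

/-- Number of zeros before a position. -/
noncomputable def nf (w : List Bool) (p : ℕ) : ℕ := cnt p (fun q => bitw w q = 0)

/-- The `j`-th number of a list of numbers coded by a word. -/
noncomputable def num (w : List Bool) (j : ℕ) : ℕ := cnt w.length (fun p => nf w p = j ∧ bitw w p = 1)

theorem pu_num {j : α → ℕ} (hj : PU j) : PU (fun a => num (Ctx.inp a) (j a)) := by
  refine pu_cnt (Q := fun a p => nf (Ctx.inp a) p = j a ∧ bitw (Ctx.inp a) p = 1) PU.len
    ((PP.eq ?_ hj.wk).and (PP.eq (PU.bit (α := α × ℕ) PU.snd) (PU.const 1)))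
  exact pu_cnt (α := α × ℕ) (n := fun p => p.2) (Q := fun p q => bitw (Ctx.inp p.1) q = 0) PU.snd
    (PP.eq (PU.bit (α := (α × ℕ) × ℕ) PU.snd) (PU.const 0))

theorem cnt_succ' (n : ℕ) (Q : ℕ → Prop) : cnt (n + 1) Q = tv (Q 0) + cnt n (fun i => Q (i + 1)) := by
  classical
  rw [cnt_eq, cnt_eq, card_filter, card_filter, sum_range_succ']
  by_cases h : Q 0
  · rw [if_pos h, tv_true h]; omega
  · rw [if_neg h, tv_false h]; omega

theorem cnt_zero (Q : ℕ → Prop) : cnt 0 Q = 0 := by
  classical
  rw [cnt_eq]; rfl

theorem bitw_succ (c : Bool) (w : List Bool) (q : ℕ) : bitw (c :: w) (q + 1) = bitw w q := by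
  unfold bitw
  rw [List.getElem?_cons_succ]

theorem bitw_true (w : List Bool) : bitw (true :: w) 0 = 1 := rfl
theorem bitw_false (w : List Bool) : bitw (false :: w) 0 = 0 := rfl

theorem nf_succ (c : Bool) (w : List Bool) (p : ℕ) :
    nf (c :: w) (p + 1) = (if c then 0 else 1) + nf w p := by
  unfold nf
  rw [cnt_succ']
  congr 1
  cases c
  · exact tv_true rfl
  · exact tv_false (by rw [bitw_true]; decide)

theorem nf_zero (w : List Bool) : nf w 0 = 0 := cnt_zero _

theorem num_true (w : List Bool) (j : ℕ) :
    num (true :: w) j = (if j = 0 then 1 else 0) + num w j := by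
  unfold num
  rw [List.length_cons, cnt_succ']
  congr 1
  · split_ifs with h
    · exact tv_true ⟨by rw [nf_zero, h], rfl⟩
    · exact tv_false (fun h2 => h (by rw [nf_zero] at h2; exact h2.1.symm))
  · refine cnt_congr (fun p _ => ?_)
    rw [nf_succ, bitw_succ]
    simp

theorem num_false_zero (w : List Bool) : num (false :: w) 0 = 0 := by
  unfold num
  rw [List.length_cons, cnt_succ', tv_false (fun h => by
    have := h.2
    rw [bitw_false] at this
    omega)]
  classical
  rw [cnt_eq, card_eq_zero.mpr, add_zero]
  rw [filter_eq_empty_iff]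
  rintro p _ ⟨h1, _⟩
  rw [nf_succ] at h1
  simp at h1

theorem num_false_succ (w : List Bool) (j : ℕ) : num (false :: w) (j + 1) = num w j := by
  unfold num
  rw [List.length_cons, cnt_succ', tv_false (fun h => by
    have := h.2
    rw [bitw_false] at this
    omega), zero_add]
  refine cnt_congr (fun p _ => ?_)
  rw [nf_succ, bitw_succ]
  simp only [Bool.false_eq_true, if_false]
  constructor
  · rintro ⟨h1, h2⟩; exact ⟨by omega, h2⟩
  · rintro ⟨h1, h2⟩; exact ⟨by omega, h2⟩

theorem num_block_zero (a : ℕ) (w : List Bool) :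
    num (List.replicate a true ++ false :: w) 0 = a := by
  induction a with
  | zero => exact num_false_zero w
  | succ a ih =>
    rw [List.replicate_succ, List.cons_append, num_true, ih, if_pos rfl]
    omega

theorem num_block_succ (a : ℕ) (w : List Bool) (j : ℕ) :
    num (List.replicate a true ++ false :: w) (j + 1) = num w j := by
  induction a with
  | zero => exact num_false_succ w j
  | succ a ih =>
    rw [List.replicate_succ, List.cons_append, num_true, ih, if_neg (by omega)]
    omega

theorem num_enc (l : List ℕ) (w : List Bool) : ∀ j < l.length, num (enc l ++ w) j = l.getD j 0 := by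
  induction l with
  | nil => intro j hj; simp at hj
  | cons a l ih =>
    intro j hj
    have h1 : enc (a :: l) ++ w = List.replicate a true ++ false :: (enc l ++ w) := by
      simp [enc]
    rw [h1]
    rcases j with _ | j
    · rw [num_block_zero]; rfl
    · rw [num_block_succ, ih j (by simpa using hj)]; rfl

theorem num_enc_add (l : List ℕ) (w : List Bool) (j : ℕ) :
    num (enc l ++ w) (l.length + j) = num w j := by
  induction l with
  | nil => simp [enc]
  | cons a l ih =>
    have h1 : enc (a :: l) ++ w = List.replicate a true ++ false :: (enc l ++ w) := by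
      simp [enc]
    have h2 : (a :: l).length + j = (l.length + j) + 1 := by simp; omega
    rw [h1, h2, num_block_succ, ih]

/-- Length of the code of the first `m` numbers. -/
noncomputable def offs (w : List Bool) (m : ℕ) : ℕ := ∑ j ∈ range m, (num w j + 1)

theorem pu_offs {m : α → ℕ} (hm : PU m) : PU (fun a => offs (Ctx.inp a) (m a)) :=
  PU.sum (f := fun a j => num (Ctx.inp a) j + 1) hm
    ((pu_num (α := α × ℕ) PU.snd).add (PU.const 1))

theorem length_enc (l : List ℕ) : (enc l).length = ∑ j ∈ range l.length, (l.getD j 0 + 1) := by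
  induction l with
  | nil => rfl
  | cons a l ih =>
    rw [List.length_cons, sum_range_succ']
    simp only [enc, List.length_append, List.length_replicate, List.length_cons, ih,
      List.getD_cons_succ, List.getD_cons_zero]
    omega

theorem offs_enc (l : List ℕ) (w : List Bool) : offs (enc l ++ w) l.length = (enc l).length := by
  unfold offs
  rw [length_enc]
  refine sum_congr rfl (fun j hj => ?_)
  rw [num_enc l w j (mem_range.mp hj)]

theorem enc_append (l l' : List ℕ) : enc (l ++ l') = enc l ++ enc l' := by
  induction l with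
  | nil => rfl
  | cons a l ih => simp [enc, ih]

theorem bitw_append (u v : List Bool) (p : ℕ) : bitw (u ++ v) (u.length + p) = bitw v p := by
  unfold bitw
  rw [List.getElem?_append_right (by omega), Nat.add_sub_cancel_left]

theorem bitw_one {w : List Bool} {p : ℕ} : bitw w p = 1 ↔ w[p]? = some true := by
  unfold bitw
  rcases h : w[p]? with _ | c
  · simp
  · cases c <;> simp

/-- The code of the list `f 0, ..., f (r - 1)`. -/
theorem enc_eq (f : ℕ → ℕ) (r : ℕ) : enc ((List.range r).map f) =
    (List.range (∑ j ∈ range r, (f j + 1))).map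
      (fun p => decide (¬ ∃ j < r, p + 1 = ∑ i ∈ range (j + 1), (f i + 1))) := by
  classical
  have hmono : ∀ i j : ℕ, i ≤ j → ∑ k ∈ range i, (f k + 1) ≤ ∑ k ∈ range j, (f k + 1) :=
    fun i j h => sum_le_sum_of_subset (range_subset_range.mpr h)
  induction r with
  | zero => rfl
  | succ r ih =>
    rw [List.range_succ, List.map_append, enc_append, ih]
    set Q := ∑ j ∈ range r, (f j + 1) with hQ
    have hQ1 : ∑ j ∈ range (r + 1), (f j + 1) = Q + (f r + 1) := by rw [sum_range_succ]
    rw [hQ1, List.range_add, List.map_append]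
    congr 1
    · refine List.map_congr_left (fun p hp => ?_)
      have hp := List.mem_range.mp hp
      congr 1
      apply propext
      constructor
      · rintro h ⟨j, hj, h2⟩
        rcases Nat.lt_succ_iff_lt_or_eq.mp hj with h3 | rfl
        · exact h ⟨j, h3, h2⟩
        · rw [hQ1] at h2; omega
      · rintro h ⟨j, hj, h2⟩
        exact h ⟨j, by omega, h2⟩
    · rw [List.map_map]
      have h1 : enc ([r].map f) = List.replicate (f r) true ++ [false] := by simp [enc]
      rw [h1, List.range_succ, List.map_append]
      congr 1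
      · refine List.ext_getElem (by simp) (fun i h2 h3 => ?_)
        simp only [List.getElem_replicate, List.getElem_map, List.getElem_range, Function.comp]
        symm
        rw [decide_eq_true_eq]
        rintro ⟨j, hj, h4⟩
        have hi : i < f r := by simpa using h2
        rcases Nat.lt_succ_iff_lt_or_eq.mp hj with h5 | rfl
        · have := hmono (j + 1) r h5
          omega
        · rw [hQ1] at h4
          omega
      · simp only [List.map_cons, List.map_nil, Function.comp]
        congr 1
        symm
        rw [decide_eq_false_iff_not, not_not]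
        exact ⟨r, by omega, by rw [hQ1]; omega⟩

/-- Word functions that write a list of numbers and copy the end of the word. -/
theorem PW_enc {r o : List Bool → ℕ} {f : List Bool → ℕ → ℕ} (hr : PU r) (ho : PU o)
    (hf : PU (fun p : List Bool × ℕ => f p.1 p.2)) :
    PW (fun w => enc ((List.range (r w)).map (f w)) ++ w.drop (o w)) := by
  classical
  have hlen : PU (fun w : List Bool => w.length) := PU.len
  have hQ : PU (fun w => ∑ j ∈ range (r w), (f w j + 1)) :=
    PU.sum (f := fun w j => f w j + 1) hr (hf.add (PU.const 1))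
  refine ⟨fun w => ∑ j ∈ range (r w), (f w j + 1) + (w.length - o w), fun w p =>
    if p < ∑ j ∈ range (r w), (f w j + 1) then
      (if ∃ j < r w, p + 1 = ∑ i ∈ range (j + 1), (f w i + 1) then 0 else 1)
    else bitw w (o w + (p - ∑ j ∈ range (r w), (f w j + 1))),
    hQ.add (hlen.sub ho), ?_, fun w => ?_⟩
  · refine PU.ite (PP.lt PU.snd hQ.wk) (PU.ite ?_ (PU.const 0) (PU.const 1))
      (PU.bit (α := List Bool × ℕ) (ho.wk.add (PU.snd.sub hQ.wk)))
    refine PP.exLt (α := List Bool × ℕ) (n := fun p => r p.1)
      (Q := fun p j => p.2 + 1 = ∑ i ∈ range (j + 1), (f p.1 i + 1)) hr.wk ?_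
    refine PP.eq (PU.snd.wk.add (PU.const 1)) ?_
    exact PU.sum (α := (List Bool × ℕ) × ℕ) (n := fun p => p.2 + 1)
      (f := fun p i => f p.1.1 i + 1) (PU.snd.add (PU.const 1))
      ((PU.mid (α := List Bool × ℕ) (f := fun p i => f p.1 i) (PU.mid hf)).add (PU.const 1))
  · simp only
    rw [enc_eq, List.range_add, List.map_append, List.map_map]
    congr 1
    · refine List.map_congr_left (fun p hp => ?_)
      have hp := List.mem_range.mp hp
      simp only [if_pos hp]
      by_cases h : ∃ j < r w, p + 1 = ∑ i ∈ range (j + 1), (f w i + 1)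
      · simp only [if_pos h]
        rw [decide_eq_false (not_not.mpr h)]
        rfl
      · simp only [if_neg h]
        rw [decide_eq_true h]
        rfl
    · refine List.ext_getElem (by simp) (fun i h1 h2 => ?_)
      simp only [List.getElem_map, List.getElem_range, Function.comp]
      have hi : i < w.length - o w := by simpa using h1
      rw [if_neg (by omega), Nat.add_sub_cancel_left, List.getElem_drop]
      have h3 : o w + i < w.length := by omega
      by_cases h4 : w[o w + i] = true
      · rw [h4]
        symm
        rw [decide_eq_true_eq, bitw_one, List.getElem?_eq_getElem h3, h4]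
      · have h5 : w[o w + i] = false := by simpa using h4
        rw [h5]
        symm
        rw [decide_eq_false_iff_not, bitw_one, List.getElem?_eq_getElem h3, h5]
        simp

end Pool.Agent.Helper68.Una
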